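import Pool.Agent.H76.PS.Defs
import Pool.Agent.K7.H10.PS.A1

/-!
# Parity of Selmer groups: job A4
-/

set_option autoImplicit false
set_option linter.unusedSectionVars false

namespace Pool.Agent.K7.H6.PS

open Pool.Agent.H76.PS

section transport

variable {G H : Type} [Group G] [TopologicalSpace G] [Group H] [TopologicalSpace H]

/-- pull back of characters along a continuous homomorphism -/
def pb (e : G →* H) (he : Continuous e) : HS H →ₗ[ZMod 2] HS G where
  toFun φ := ⟨fun g => φ.1 (e g), φ.2.1.comp_continuous he, fun x y => by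
    beta_reduce; rw [map_mul]; exact φ.2.2 _ _⟩
  map_add' _ _ := rfl
  map_smul' _ _ := rfl

theorem finrank_congr (e : G ≃* H) (h1 : Continuous e) (h2 : Continuous e.symm) :
    Module.finrank (ZMod 2) (HS G) = Module.finrank (ZMod 2) (HS H) := by
  refine (LinearEquiv.ofLinearMap (pb e.toMonoidHom h1) (pb e.symm.toMonoidHom h2) ?_ ?_).finrank_eq.symm
  · ext φ g
    show φ.1 (e.symm (e g)) = φ.1 g
    simp
  · ext φ g
    show φ.1 (e (e.symm g)) = φ.1 g
    simp

theorem B2_pb (e : G →* H) (he : Continuous e) {f : H → H → ZMod 2} (hf : f ∈ B2 H) :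
    (fun x y => f (e x) (e y)) ∈ B2 G := by
  obtain ⟨a, ha, h⟩ := hf
  exact ⟨fun g => a (e g), ha.comp_continuous he, fun x y => by beta_reduce; rw [h, map_mul]⟩

theorem Z2_pb (e : G →* H) (he : Continuous e) {f : H → H → ZMod 2} (hf : f ∈ Z2 H) :
    (fun x y => f (e x) (e y)) ∈ Z2 G := by
  refine ⟨hf.1.comp_continuous (f := fun v : G × G => (e v.1, e v.2)) (by fun_prop), fun x y z => ?_⟩
  have := hf.2 (e x) (e y) (e z)
  simpa only [map_mul] using this

end transport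

section open_sub

variable {G : Type} [Group G] [TopologicalSpace G] {Q : Subgroup G}

theorem map_open (hQ : IsOpen (Q : Set G)) (U : Subgroup Q) (hU : IsOpen (U : Set Q)) :
    IsOpen ((U.map Q.subtype : Subgroup G) : Set G) := by
  have h := hQ.isOpenMap_subtype_val U hU
  rwa [Subgroup.coe_map]

theorem finrank_map (U : Subgroup Q) :
    Module.finrank (ZMod 2) (HS (U.map Q.subtype : Subgroup G)) = Module.finrank (ZMod 2) (HS U) := by
  symm
  refine finrank_congr (U.equivMapOfInjective Q.subtype Q.subtype_injective) ?_ ?_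
  · refine Continuous.subtype_mk (f := fun x : U => ((x : Q) : G)) (by fun_prop) _
  · rw [continuous_induced_rng, continuous_induced_rng]
    have h : (Subtype.val ∘ Subtype.val ∘ (U.equivMapOfInjective Q.subtype Q.subtype_injective).symm) =
        (Subtype.val : ↥(Subgroup.map Q.subtype U) → G) := by
      funext x
      obtain ⟨y, rfl⟩ := (U.equivMapOfInjective Q.subtype Q.subtype_injective).surjective x
      simp
    rw [h]
    exact continuous_subtype_val

theorem Cnt_sub (hQ : IsOpen (Q : Set G)) (h2 : Q.index = 2) {c : ℕ} (h : Cnt G c) : Cnt Q (2 * c) := by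
  intro U hU
  rw [← finrank_map U, h _ (map_open hQ U hU), Subgroup.index_map_subtype, h2]
  ring

theorem Pow2_sub (hQ : IsOpen (Q : Set G)) (h2 : Q.index = 2) (h : Pow2 G) : Pow2 Q := by
  intro U hU
  obtain ⟨k, hk⟩ := h _ (map_open hQ U hU)
  rw [Subgroup.index_map_subtype, h2] at hk
  rcases k with _ | k
  · omega
  · exact ⟨k, by rw [pow_succ] at hk; omega⟩

theorem finrank_top {c : ℕ} (h : Cnt G c) : Module.finrank (ZMod 2) (HS G) = c + 2 := by
  have h1 := h ⊤ isOpen_univ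
  rw [Subgroup.index_top, mul_one] at h1
  rw [← h1]
  symm
  exact finrank_congr Subgroup.topEquiv (by exact continuous_subtype_val)
    (by exact Continuous.subtype_mk continuous_id _)

end open_sub

section lin

variable {G : Type} [Group G] [TopologicalSpace G]

/-- the cup product as a linear map in the second variable -/
def cupR (ψ : G → ZMod 2) : HS G →ₗ[ZMod 2] (G → G → ZMod 2) where
  toFun y := cup ψ y.1
  map_add' a b := by
    funext x y
    simp only [cup, Submodule.coe_add, Pi.add_apply]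
    ring
  map_smul' a b := by
    funext x y
    simp only [cup, Submodule.coe_smul, Pi.smul_apply, smul_eq_mul, RingHom.id_apply]
    ring

/-- the orthogonal of `ψ` -/
def perp (ψ : G → ZMod 2) : Submodule (ZMod 2) (HS G) := (B2 G).comap (cupR ψ)

theorem mem_perp {ψ : G → ZMod 2} {y : HS G} : y ∈ perp ψ ↔ cup ψ y.1 ∈ B2 G := Iff.rfl

theorem cup_comm {ψ b : G → ZMod 2} (h1 : ψ ∈ HS G) (h2 : b ∈ HS G) : cup ψ b + cup b ψ ∈ B2 G := by
  refine ⟨fun g => ψ g * b g, h1.1.mul h2.1, fun x y => ?_⟩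
  have h3 := h1.2 x y
  have h4 := h2.2 x y
  simp only [Pi.add_apply, cup, h3, h4]
  grind

theorem add_self' (f : G → G → ZMod 2) : f + f = 0 := by
  funext x y
  simp only [Pi.add_apply, Pi.zero_apply]
  grind

theorem cup_symm {ψ b : G → ZMod 2} (h1 : ψ ∈ HS G) (h2 : b ∈ HS G) (h : cup ψ b ∈ B2 G) :
    cup b ψ ∈ B2 G := by
  have h3 := (B2 G).add_mem h (cup_comm h1 h2)
  rwa [← add_assoc, add_self', zero_add] at h3

/-- the characters restricted to a subgroup -/
def res (Q : Subgroup G) : HS G →ₗ[ZMod 2] HS Q := pb Q.subtype continuous_subtype_val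

theorem chi_HS [IsTopologicalGroup G] {Q : Subgroup G} (hQ : IsOpen (Q : Set G)) (h2 : Q.index = 2) :
    chi Q ∈ HS G := by
  classical
  refine ⟨?_, fun x y => ?_⟩
  · rw [IsLocallyConstant.iff_exists_open]
    intro x
    by_cases hx : x ∈ Q
    · refine ⟨Q, hQ, hx, fun y hy => ?_⟩
      have hy : y ∈ Q := hy
      simp [chi, hx, hy]
    · refine ⟨(Q : Set G)ᶜ, (Subgroup.isClosed_of_isOpen Q hQ).isOpen_compl, hx, fun y hy => ?_⟩
      have hy : y ∉ Q := hy
      simp [chi, hx, hy]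
  · have h := Subgroup.mul_mem_iff_of_index_two h2 (a := x) (b := y)
    by_cases hx : x ∈ Q <;> by_cases hy : y ∈ Q <;> simp only [hx, hy, iff_true, iff_false, not_true] at h <;>
      (simp [chi, hx, hy, h]; try decide)

end lin

section main

variable {G : Type} [Group G] [TopologicalSpace G] [IsTopologicalGroup G]

/-- the kernel of a character -/
def kr (ψ : G → ZMod 2) (h : ψ ∈ HS G) : Subgroup G where
  carrier := {g | ψ g = 0}
  mul_mem' := by
    intro a b ha hb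
    show ψ (a * b) = 0
    rw [h.2, show ψ a = 0 from ha, show ψ b = 0 from hb, add_zero]
  one_mem' := by
    show ψ 1 = 0
    have h1 := h.2 1 1
    rw [mul_one] at h1
    grind
  inv_mem' := by
    intro a ha
    show ψ a⁻¹ = 0
    have h0 : ψ 1 = 0 := by
      have h1 := h.2 1 1
      rw [mul_one] at h1
      grind
    have h1 := h.2 a a⁻¹
    rw [mul_inv_cancel, h0, show ψ a = 0 from ha, zero_add] at h1
    exact h1.symm

theorem mem_kr {ψ : G → ZMod 2} {h : ψ ∈ HS G} {g : G} : g ∈ kr ψ h ↔ ψ g = 0 := Iff.rfl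

theorem z2_ne {x : ZMod 2} (h : x ≠ 0) : x = 1 := by revert x; decide

theorem kr_open {ψ : G → ZMod 2} (h : ψ ∈ HS G) : IsOpen (kr ψ h : Set G) := h.1 {0}

theorem kr_index {ψ : G → ZMod 2} (h : ψ ∈ HS G) (h0 : ψ ≠ 0) : (kr ψ h).index = 2 := by
  obtain ⟨a, ha⟩ : ∃ a, ψ a ≠ 0 := by
    by_contra hc
    push Not at hc
    exact h0 (funext hc)
  rw [Subgroup.index_eq_two_iff]
  refine ⟨a, fun b => ?_⟩
  rw [mem_kr, mem_kr, h.2, z2_ne ha]
  generalize ψ b = z
  revert z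
  decide

theorem chi_kr {ψ : G → ZMod 2} (h : ψ ∈ HS G) : chi (kr ψ h) = ψ := by
  classical
  funext g
  unfold chi
  by_cases hg : ψ g = 0
  · rw [if_pos (mem_kr.2 hg), hg]
  · rw [if_neg (fun hc => hg (mem_kr.1 hc)), z2_ne hg]

theorem exists_not_mem {Q : Subgroup G} (h2 : Q.index = 2) : ∃ t : G, t ∉ Q := by
  by_contra h
  push Not at h
  have : Q = ⊤ := by ext; simp [h]
  rw [this, Subgroup.index_top] at h2
  omega

/-- corestriction as a linear map -/
noncomputable def corL (hA : StA2) {Q : Subgroup G} (hQ : IsOpen (Q : Set G)) (h2 : Q.index = 2) {t : G} (ht : t ∉ Q) :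
    HS Q →ₗ[ZMod 2] HS G :=
  AddMonoidHom.toZModLinearMap 2
    { toFun := fun b => ⟨cor Q t b.1, (hA G Q t hQ h2 ht).1 b.1 b.2⟩
      map_zero' := by
        have h := (hA G Q t hQ h2 ht).2.1 0 0
        rw [add_zero] at h
        ext g
        have h3 := congrFun h g
        simp only [Pi.add_apply] at h3
        show cor Q t 0 g = 0
        grind
      map_add' := fun a b => by
        ext g
        exact congrFun ((hA G Q t hQ h2 ht).2.1 a.1 b.1) g }

theorem finrank_perp_chi (hA : StA2) {c : ℕ} (h : Cnt G c) {Q : Subgroup G} (hQ : IsOpen (Q : Set G))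
    (h2 : Q.index = 2) : Module.finrank (ZMod 2) (perp (chi Q)) = c + 1 := by
  obtain ⟨t, ht⟩ := exists_not_mem h2
  have hG := finrank_top h
  have hQf := finrank_top (Cnt_sub hQ h2 h)
  have : FiniteDimensional (ZMod 2) (HS G) := Module.finite_of_finrank_pos (by omega)
  have : FiniteDimensional (ZMod 2) (HS Q) := Module.finite_of_finrank_pos (by omega)
  have h3 : LinearMap.range (corL hA hQ h2 ht) = perp (chi Q) := by
    ext y
    rw [mem_perp, (hA G Q t hQ h2 ht).2.2.2 y.1 y.2]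
    constructor
    · rintro ⟨b, rfl⟩
      exact ⟨b.1, b.2, rfl⟩
    · rintro ⟨b, hb, h4⟩
      exact ⟨⟨b, hb⟩, Subtype.ext h4⟩
  have h5 : LinearMap.ker (corL hA hQ h2 ht) = LinearMap.range (res Q) := by
    ext b
    rw [LinearMap.mem_ker]
    have h6 : corL hA hQ h2 ht b = 0 ↔ cor Q t b.1 = 0 := by
      rw [Subtype.ext_iff]
      exact Iff.rfl
    rw [h6, (hA G Q t hQ h2 ht).2.2.1 b.1 b.2]
    constructor
    · rintro ⟨ψ, hψ, h7⟩
      exact ⟨⟨ψ, hψ⟩, Subtype.ext (funext fun q => (h7 q).symm)⟩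
    · rintro ⟨ψ, rfl⟩
      exact ⟨ψ.1, ψ.2, fun q => rfl⟩
  have h6 : LinearMap.ker (res Q : HS G →ₗ[ZMod 2] HS Q) = Submodule.span (ZMod 2) {⟨chi Q, chi_HS hQ h2⟩} := by
    classical
    ext φ
    rw [LinearMap.mem_ker, Submodule.mem_span_singleton]
    constructor
    · intro h7
      have h8 : ∀ q ∈ Q, φ.1 q = 0 := fun q hq => congrFun (congrArg Subtype.val h7) ⟨q, hq⟩
      refine ⟨φ.1 t, Subtype.ext (funext fun g => ?_)⟩
      show φ.1 t * chi Q g = φ.1 g
      unfold chi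
      by_cases hg : g ∈ Q
      · rw [if_pos hg, h8 g hg, mul_zero]
      · rw [if_neg hg, mul_one]
        have h9 : t * g ∈ Q := by
          rw [Subgroup.mul_mem_iff_of_index_two h2]; tauto
        have h10 := h8 _ h9
        rw [φ.2.2] at h10
        grind
    · rintro ⟨a, rfl⟩
      refine Subtype.ext (funext fun q => ?_)
      show a * chi Q q.1 = 0
      unfold chi
      rw [if_pos q.2, mul_zero]
  have h7 : Module.finrank (ZMod 2) (LinearMap.ker (res Q : HS G →ₗ[ZMod 2] HS Q)) = 1 := by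
    classical
    rw [h6]
    refine finrank_span_singleton ?_
    intro h8
    have h9 := congrFun (congrArg Subtype.val h8) t
    have h9 : chi Q t = 0 := h9
    unfold chi at h9
    rw [if_neg ht] at h9
    exact one_ne_zero h9
  have r1 := LinearMap.finrank_range_add_finrank_ker (corL hA hQ h2 ht)
  have r2 := LinearMap.finrank_range_add_finrank_ker (res Q : HS G →ₗ[ZMod 2] HS Q)
  rw [h3, h5] at r1
  omega

theorem finrank_perp (hA : StA2) {c : ℕ} (h : Cnt G c) {ψ : G → ZMod 2} (hψ : ψ ∈ HS G) (h0 : ψ ≠ 0) :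
    Module.finrank (ZMod 2) (perp ψ) = c + 1 := by
  rw [← finrank_perp_chi hA h (kr_open hψ) (kr_index hψ h0), chi_kr]

theorem perp_ne_top (hA : StA2) {c : ℕ} (h : Cnt G c) {ψ : G → ZMod 2} (hψ : ψ ∈ HS G) (h0 : ψ ≠ 0) :
    perp ψ ≠ ⊤ := by
  intro h1
  have h2 := finrank_perp hA h hψ h0
  rw [h1, _root_.finrank_top, finrank_top h] at h2
  omega

/-- the orthogonal has codimension one -/
theorem add_mem_perp (hA : StA2) {c : ℕ} (h : Cnt G c) {ψ : G → ZMod 2} (hψ : ψ ∈ HS G) {y y' : HS G}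
    (hy : y ∉ perp ψ) (hy' : y' ∉ perp ψ) : y + y' ∈ perp ψ := by
  have h0 : ψ ≠ 0 := by
    rintro rfl
    apply hy
    rw [mem_perp]
    have : cup 0 y.1 = 0 := by
      funext a b
      simp [cup]
    rw [this]
    exact (B2 G).zero_mem
  have hG := finrank_top h
  have : FiniteDimensional (ZMod 2) (HS G) := Module.finite_of_finrank_pos (by omega)
  have h1 := finrank_perp hA h hψ h0
  have h2 := Submodule.finrank_quotient_add_finrank (perp ψ)
  have h3 : Module.finrank (ZMod 2) (HS G ⧸ perp ψ) = 1 := by omega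
  obtain ⟨v, hv, h4⟩ := finrank_eq_one_iff'.1 h3
  have h5 : ∀ z : HS G, z ∉ perp ψ → (Submodule.Quotient.mk z : HS G ⧸ perp ψ) = v := by
    intro z hz
    obtain ⟨a, ha⟩ := h4 (Submodule.Quotient.mk z)
    have ha0 : a ≠ 0 := by
      rintro rfl
      rw [zero_smul] at ha
      exact hz ((Submodule.Quotient.mk_eq_zero _).1 ha.symm)
    rw [← ha, z2_ne ha0, one_smul]
  rw [← Submodule.Quotient.mk_eq_zero, Submodule.Quotient.mk_add, h5 y hy, h5 y' hy']
  have h6 : v + v = (2 : ZMod 2) • v := (two_smul _ v).symm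
  rw [h6]
  have : (2 : ZMod 2) = 0 := by decide
  rw [this, zero_smul]

theorem cup_add_right (ψ b b' : G → ZMod 2) : cup ψ b + cup ψ b' = cup ψ (b + b') := by
  funext x y
  simp only [cup, Pi.add_apply]
  ring

theorem cup_add_left (ψ ψ' b : G → ZMod 2) : cup ψ b + cup ψ' b = cup (ψ + ψ') b := by
  funext x y
  simp only [cup, Pi.add_apply]
  ring

theorem cup_right (hA : StA2) {c : ℕ} (h : Cnt G c) {ψ y y' : G → ZMod 2} (hψ : ψ ∈ HS G) (hy : y ∈ HS G)
    (hy' : y' ∈ HS G) (h1 : cup ψ y ∉ B2 G) (h2 : cup ψ y' ∉ B2 G) : cup ψ y + cup ψ y' ∈ B2 G := by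
  rw [cup_add_right]
  exact add_mem_perp hA h hψ (y := ⟨y, hy⟩) (y' := ⟨y', hy'⟩) h1 h2

theorem cup_left (hA : StA2) {c : ℕ} (h : Cnt G c) {ψ ψ' y : G → ZMod 2} (hψ : ψ ∈ HS G) (hψ' : ψ' ∈ HS G)
    (hy : y ∈ HS G) (h1 : cup ψ y ∉ B2 G) (h2 : cup ψ' y ∉ B2 G) : cup ψ y + cup ψ' y ∈ B2 G := by
  rw [cup_add_left]
  refine cup_symm hy ((HS G).add_mem hψ hψ') ?_
  rw [← cup_add_right]
  exact cup_right hA h hy hψ hψ' (fun h3 => h1 (cup_symm hy hψ h3)) (fun h3 => h2 (cup_symm hy hψ' h3))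

/-- two elements of the module are outside of two proper submodules -/
theorem exists_out {R M : Type} [Ring R] [AddCommGroup M] [Module R M] {A B : Submodule R M} (hA : A ≠ ⊤)
    (hB : B ≠ ⊤) : ∃ y, y ∉ A ∧ y ∉ B := by
  obtain ⟨a, ha⟩ : ∃ a, a ∉ A := by
    by_contra hc
    push Not at hc
    exact hA (by ext; simp [hc])
  obtain ⟨b, hb⟩ : ∃ b, b ∉ B := by
    by_contra hc
    push Not at hc
    exact hB (by ext; simp [hc])
  by_cases h1 : a ∈ B
  · by_cases h2 : b ∈ A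
    · refine ⟨a + b, fun h => ha ?_, fun h => hb ?_⟩
      · exact (A.add_mem_iff_left h2).1 h
      · exact (B.add_mem_iff_right h1).1 h
    · exact ⟨b, h2, hb⟩
  · exact ⟨a, ha, h1⟩

/-- any two nontrivial cup products are cohomologous -/
theorem cup_cup (hA : StA2) {c : ℕ} (h : Cnt G c) {ψ₁ y₁ ψ₂ y₂ : G → ZMod 2} (hψ₁ : ψ₁ ∈ HS G) (hy₁ : y₁ ∈ HS G)
    (hψ₂ : ψ₂ ∈ HS G) (hy₂ : y₂ ∈ HS G) (h1 : cup ψ₁ y₁ ∉ B2 G) (h2 : cup ψ₂ y₂ ∉ B2 G) :
    cup ψ₁ y₁ + cup ψ₂ y₂ ∈ B2 G := by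
  have t1 : perp ψ₁ ≠ ⊤ := fun h3 => h1 (by
    have : (⟨y₁, hy₁⟩ : HS G) ∈ perp ψ₁ := by rw [h3]; trivial
    exact this)
  have t2 : perp ψ₂ ≠ ⊤ := fun h3 => h2 (by
    have : (⟨y₂, hy₂⟩ : HS G) ∈ perp ψ₂ := by rw [h3]; trivial
    exact this)
  obtain ⟨y, h3, h4⟩ := exists_out t1 t2
  have r1 := cup_right hA h hψ₁ hy₁ y.2 h1 h3
  have r2 := cup_right hA h hψ₂ hy₂ y.2 h2 h4
  have r3 := cup_left hA h hψ₁ hψ₂ y.2 h3 h4
  have r4 := (B2 G).add_mem ((B2 G).add_mem r1 r2) r3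
  have r5 : cup ψ₁ y₁ + cup ψ₁ y.1 + (cup ψ₂ y₂ + cup ψ₂ y.1) + (cup ψ₁ y.1 + cup ψ₂ y.1) =
      cup ψ₁ y₁ + cup ψ₂ y₂ := by
    funext a b
    simp only [Pi.add_apply]
    grind
  rwa [r5] at r4

/-- distinct characters have distinct orthogonals -/
theorem exists_perp (hA : StA2) {c : ℕ} (h : Cnt G c) {ψ₁ ψ₂ : G → ZMod 2} (hψ₁ : ψ₁ ∈ HS G) (h01 : ψ₁ ≠ 0)
    (hψ₂ : ψ₂ ∈ HS G) (h02 : ψ₂ ≠ 0) (hne : ψ₁ ≠ ψ₂) : ∃ y ∈ HS G, cup ψ₁ y ∈ B2 G ∧ cup ψ₂ y ∉ B2 G := by
  by_contra hc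
  push Not at hc
  have hG := finrank_top h
  have : FiniteDimensional (ZMod 2) (HS G) := Module.finite_of_finrank_pos (by omega)
  have h1 : perp ψ₁ ≤ perp ψ₂ := fun y hy => hc y.1 y.2 hy
  have h2 : perp ψ₁ = perp ψ₂ := by
    refine Submodule.eq_of_le_of_finrank_eq h1 ?_
    rw [finrank_perp hA h hψ₁ h01, finrank_perp hA h hψ₂ h02]
  have h3 : ψ₁ + ψ₂ ≠ 0 := by
    intro h4
    apply hne
    funext g
    have h5 := congrFun h4 g
    simp only [Pi.add_apply, Pi.zero_apply] at h5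
    grind
  refine perp_ne_top hA h ((HS G).add_mem hψ₁ hψ₂) h3 ?_
  rw [eq_top_iff]
  intro y _
  rw [mem_perp, ← cup_add_left]
  by_cases h4 : y ∈ perp ψ₁
  · exact (B2 G).add_mem h4 (h1 h4)
  · refine cup_left hA h hψ₁ hψ₂ y.2 h4 ?_
    intro h5
    exact h4 (by rw [h2]; exact h5)

/-- there is a nonzero character different from a given one -/
theorem exists_char {c : ℕ} (h : Cnt G c) {ψ : G → ZMod 2} (hψ : ψ ∈ HS G) : 
    ∃ φ ∈ HS G, φ ≠ 0 ∧ φ ≠ ψ := by
  by_contra hc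
  push Not at hc
  have hG := finrank_top h
  have h1 : Submodule.span (ZMod 2) {(⟨ψ, hψ⟩ : HS G)} = ⊤ := by
    rw [eq_top_iff]
    intro φ _
    rw [Submodule.mem_span_singleton]
    by_cases h2 : φ.1 = 0
    · exact ⟨0, by rw [zero_smul]; exact (Subtype.ext h2).symm⟩
    · exact ⟨1, by rw [one_smul]; exact (Subtype.ext (hc φ.1 φ.2 h2)).symm⟩
  have h2 := finrank_span_le_card (R := ZMod 2) ({(⟨ψ, hψ⟩ : HS G)} : Set (HS G))
  rw [h1, _root_.finrank_top] at h2
  simp at h2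
  omega

theorem rs_Z2 (Q : Subgroup G) {e : G → G → ZMod 2} (he : e ∈ Z2 G) : rs Q e ∈ Z2 Q :=
  Z2_pb Q.subtype continuous_subtype_val he

/-- a class which dies on an open normal subgroup is a cup product -/
theorem ind (h1 : StA1) (h2 : StA2) (h3 : StA3) (n : ℕ) : ∀ (G : Type) [Group G] [TopologicalSpace G]
    [IsTopologicalGroup G] (c : ℕ), Cnt G c → Pow2 G → ∀ N : Subgroup G, N.Normal → IsOpen (N : Set G) →
      N.index = 2 ^ n → ∀ e ∈ Z2 G, rs N e ∈ B2 N →
        e ∈ B2 G ∨ ∃ ψ ∈ HS G, ∃ y ∈ HS G, cup ψ y ∉ B2 G ∧ e + cup ψ y ∈ B2 G := by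
  induction n with
  | zero =>
    intro G _ _ _ c hc hp N hN hNo hi e he hr
    left
    rw [pow_zero, Subgroup.index_eq_one] at hi
    subst hi
    exact B2_pb (Subgroup.topEquiv (G := G)).symm.toMonoidHom
      (by exact Continuous.subtype_mk continuous_id _) hr
  | succ n ih =>
    intro G _ _ _ c hc hp N hN hNo hi e he hr
    have hcard : Nat.card (G ⧸ N) = 2 ^ (n + 1) := hi
    have : Finite (G ⧸ N) := Nat.finite_of_card_ne_zero (by rw [hcard]; positivity)
    obtain ⟨K, hK⟩ := Sylow.exists_subgroup_card_pow_prime (G := G ⧸ N) 2 (n := n) (by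
      rw [hcard]; exact pow_dvd_pow 2 (Nat.le_succ n))
    have hKi : K.index = 2 := by
      have h4 := K.card_mul_index
      rw [hK, hcard, pow_succ] at h4
      exact Nat.eq_of_mul_eq_mul_left (by positivity) h4
    set Q : Subgroup G := K.comap (QuotientGroup.mk' N) with hQdef
    have hQ2 : Q.index = 2 := by
      rw [hQdef, Subgroup.index_comap_of_surjective _ (QuotientGroup.mk'_surjective N), hKi]
    have hNQ : N ≤ Q := QuotientGroup.le_comap_mk' N K
    have hQo : IsOpen (Q : Set G) := Subgroup.isOpen_mono hNQ hNo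
    obtain ⟨t, ht⟩ := exists_not_mem hQ2
    have hNQo : IsOpen ((N.subgroupOf Q : Subgroup Q) : Set Q) := hNo.preimage continuous_subtype_val
    have hNQi : (N.subgroupOf Q).index = 2 ^ n := by
      have h4 := Subgroup.relIndex_mul_index hNQ
      rw [hQ2, hi, pow_succ] at h4
      exact Nat.eq_of_mul_eq_mul_right (by norm_num) h4
    have hr' : rs (N.subgroupOf Q) (rs Q e) ∈ B2 (N.subgroupOf Q) := by
      exact B2_pb (G := N.subgroupOf Q) (H := N) (Subgroup.subgroupOfEquivOfLe hNQ).toMonoidHom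
        (by
          refine Continuous.subtype_mk (f := fun x : N.subgroupOf Q => ((x : Q) : G)) (by fun_prop) _) hr
    rcases ih Q (2 * c) (Cnt_sub hQo hQ2 hc) (Pow2_sub hQo hQ2 hp) (N.subgroupOf Q) (hN.subgroupOf Q) hNQo hNQi
      (rs Q e) (rs_Z2 Q he) hr' with h4 | ⟨ψ', hψ', y', hy', h5, h6⟩
    · obtain ⟨b, hb, h7⟩ := h1 G Q hQo hQ2 e he h4
      by_cases h8 : cup (chi Q) b ∈ B2 G
      · left
        have h9 := (B2 G).add_mem h7 h8
        rwa [add_assoc, add_self', add_zero] at h9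
      · exact Or.inr ⟨chi Q, chi_HS hQo hQ2, b, hb, h8, h7⟩
    · exfalso
      have hχ0 : chi Q ≠ 0 := by
        classical
        intro h7
        have h8 := congrFun h7 t
        unfold chi at h8
        rw [if_neg ht] at h8
        exact one_ne_zero h8
      obtain ⟨ψ, hψ, hψ0, hψχ⟩ := exists_char hc (chi_HS hQo hQ2)
      obtain ⟨y, hy, h7, h8⟩ := exists_perp h2 hc (chi_HS hQo hQ2) hχ0 hψ hψ0 hψχ.symm
      obtain ⟨b, hb, rfl⟩ := ((h2 G Q t hQo hQ2 ht).2.2.2 y hy).1 h7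
      have hψQ : (fun q : Q => ψ q) ∈ HS Q := (res Q ⟨ψ, hψ⟩).2
      by_cases h9 : cup (fun q : Q => ψ q) b ∈ B2 Q
      · refine h8 (h3 G Q t hQo hQ2 ht 0 (Z2 G).zero_mem ψ hψ b hb ?_)
        have : rs Q (0 : G → G → ZMod 2) = 0 := rfl
        rw [this, zero_add]
        exact h9
      · refine h8 (h3 G Q t hQo hQ2 ht e he ψ hψ b hb ?_)
        have h10 := cup_cup h2 (Cnt_sub hQo hQ2 hc) hψ' hy' hψQ hb h5 h9
        have h11 := (B2 Q).add_mem h6 h10
        have h12 : rs Q e + cup ψ' y' + (cup ψ' y' + cup (fun q : Q => ψ q) b) =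
            rs Q e + cup (fun q : Q => ψ q) b := by
          rw [add_assoc, ← add_assoc (cup ψ' y'), add_self', zero_add]
        rwa [h12] at h11

/-- the two-sided stabiliser of a cochain -/
def stab (e : G → G → ZMod 2) : Subgroup G where
  carrier := {g | ∀ x z y, e (x * g * z) y = e (x * z) y ∧ e y (x * g * z) = e y (x * z)}
  one_mem' := fun x z y => by rw [mul_one]; exact ⟨rfl, rfl⟩
  mul_mem' := by
    intro a b ha hb x z y
    have h1 := ha x (b * z) y
    have h2 := hb x z y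
    rw [← mul_assoc x b z, ← mul_assoc (x * a) b z, mul_assoc x a b] at h1
    exact ⟨h1.1.trans h2.1, h1.2.trans h2.2⟩
  inv_mem' := by
    intro a ha x z y
    have h1 := ha (x * a⁻¹) z y
    rw [inv_mul_cancel_right] at h1
    exact ⟨h1.1.symm, h1.2.symm⟩

theorem stab_normal (e : G → G → ZMod 2) : (stab e).Normal := by
  refine ⟨fun g hg h x z y => ?_⟩
  have h1 := hg (x * h) (h⁻¹ * z) y
  rw [show x * h * g * (h⁻¹ * z) = x * (h * g * h⁻¹) * z by group,
    show x * h * (h⁻¹ * z) = x * z by group] at h1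
  exact h1

theorem stab_open [CompactSpace G] {e : G → G → ZMod 2} (he : e ∈ Z2 G) : IsOpen (stab e : Set G) := by
  have h1 : IsLocallyConstant (fun v : G × (G × G × G) =>
      (e (v.2.1 * v.1 * v.2.2.1) v.2.2.2, e v.2.2.2 (v.2.1 * v.1 * v.2.2.1),
        e (v.2.1 * v.2.2.1) v.2.2.2, e v.2.2.2 (v.2.1 * v.2.2.1))) := by
    have a1 := he.1.comp_continuous (f := fun v : G × (G × G × G) => (v.2.1 * v.1 * v.2.2.1, v.2.2.2))
      (by fun_prop)
    have a2 := he.1.comp_continuous (f := fun v : G × (G × G × G) => (v.2.2.2, v.2.1 * v.1 * v.2.2.1))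
      (by fun_prop)
    have a3 := he.1.comp_continuous (f := fun v : G × (G × G × G) => (v.2.1 * v.2.2.1, v.2.2.2))
      (by fun_prop)
    have a4 := he.1.comp_continuous (f := fun v : G × (G × G × G) => (v.2.2.2, v.2.1 * v.2.2.1))
      (by fun_prop)
    exact a1.prodMk (a2.prodMk (a3.prodMk a4))
  have h2 : IsOpen {v : G × (G × G × G) | e (v.2.1 * v.1 * v.2.2.1) v.2.2.2 = e (v.2.1 * v.2.2.1) v.2.2.2 ∧
      e v.2.2.2 (v.2.1 * v.1 * v.2.2.1) = e v.2.2.2 (v.2.1 * v.2.2.1)} :=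
    h1 {w | w.1 = w.2.2.1 ∧ w.2.1 = w.2.2.2}
  obtain ⟨U, V, hU, _, hU1, hV1, hUV⟩ := generalized_tube_lemma (isCompact_singleton (x := (1 : G)))
    (isCompact_univ (X := G × G × G)) h2 (by
      rintro ⟨g, x, z, y⟩ ⟨hg, -⟩
      have hg : g = 1 := hg
      subst hg
      show e (x * 1 * z) y = e (x * z) y ∧ e y (x * 1 * z) = e y (x * z)
      rw [mul_one]
      exact ⟨rfl, rfl⟩)
  refine Subgroup.isOpen_of_mem_nhds _ (g := 1) (Filter.mem_of_superset (hU.mem_nhds (hU1 rfl)) ?_)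
  intro g hg x z y
  exact hUV (show (g, x, z, y) ∈ U ×ˢ V from ⟨hg, hV1 trivial⟩)

theorem stab_B2 (e : G → G → ZMod 2) : rs (stab e) e ∈ B2 (stab e) := by
  refine ⟨fun _ => e 1 1, IsLocallyConstant.const _, fun x y => ?_⟩
  have h1 := (x.2 1 1 y.1).1
  have h2 := (y.2 1 1 1).2
  simp only [one_mul, mul_one] at h1 h2
  show e x.1 y.1 = e 1 1 + e 1 1 + e 1 1
  rw [h1, h2]
  grind

end main

/-- Job A4 -/
theorem stA4 : StA4 := by
  intro h1 h2 h3 G _ _ _ _ c hc1 hc hp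
  have key : ∀ e ∈ Z2 G, e ∉ B2 G → ∃ ψ ∈ HS G, ∃ y ∈ HS G, cup ψ y ∉ B2 G ∧ e + cup ψ y ∈ B2 G := by
    intro e he hne
    obtain ⟨n, hn⟩ := hp (stab e) (stab_open he)
    exact (ind h1 h2 h3 n G c hc hp (stab e) (stab_normal e) (stab_open he) hn e he (stab_B2 e)).resolve_left hne
  refine ⟨fun e₁ he₁ e₂ he₂ hn₁ hn₂ => ?_, fun ψ hψ h0 => ?_⟩
  · obtain ⟨ψ₁, hψ₁, y₁, hy₁, h4, h5⟩ := key e₁ he₁ hn₁
    obtain ⟨ψ₂, hψ₂, y₂, hy₂, h6, h7⟩ := key e₂ he₂ hn₂
    have h8 := cup_cup h2 hc hψ₁ hy₁ hψ₂ hy₂ h4 h6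
    have h9 := (B2 G).add_mem ((B2 G).add_mem h5 h7) h8
    have h10 : e₁ + cup ψ₁ y₁ + (e₂ + cup ψ₂ y₂) + (cup ψ₁ y₁ + cup ψ₂ y₂) = e₁ + e₂ := by
      funext a b
      simp only [Pi.add_apply]
      grind
    rwa [h10] at h9
  · by_contra hcon
    push Not at hcon
    refine perp_ne_top h2 hc hψ h0 ?_
    rw [eq_top_iff]
    intro y _
    exact hcon y.1 y.2

/-- The result of part A -/
theorem stA : StA := stA4 Pool.Agent.K7.H10.PS.stA1 Pool.Agent.K7.H10.PS.stA2 Pool.Agent.K7.H10.PS.stA3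

end Pool.Agent.K7.H6.PS
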