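import Pool.Agent.K7.H6.PS.H4

/-!
# Parity of Selmer groups: job E2
-/

set_option autoImplicit false
set_option linter.unusedSectionVars false

namespace Pool.Agent.K7.H6.PSE

open Pool.Agent.Y715.Gi (QB KK GK)
open Pool.Agent.Y715.Nr Pool.Agent.W237.RK
open Pool.Agent.Z384 (II DD DDs Fld)
open Pool.Agent.H76.PS
open Pool.Agent.K7.H6.PSH
open Pool.Agent.K7.H6.PS (pb)
open Pool.Agent.K7.H10.PS (ex ex_mem ex_not ex_lc)

variable {s : QB}

/-- the characters of `U` trivial on `Nf s` -/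
def XU (U : Subgroup (GK s)) : Submodule (ZMod 2) (HS U) where
  carrier := {φ | ∀ σ : U, (σ : GK s) ∈ Nf s → φ.1 σ = 0}
  add_mem' := by
    intro φ ψ h1 h2 σ hσ
    show φ.1 σ + ψ.1 σ = 0
    rw [h1 σ hσ, h2 σ hσ, add_zero]
  zero_mem' := fun σ _ => rfl
  smul_mem' := by
    intro a φ h σ hσ
    show a * φ.1 σ = 0
    rw [h σ hσ, mul_zero]

/-- restriction to the decomposition group -/
noncomputable def resD (U D : Subgroup (GK s)) : HS U →ₗ[ZMod 2] HS (U ⊓ D : Subgroup (GK s)) :=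
  pb (Subgroup.inclusion (inf_le_left : U ⊓ D ≤ U)) (by exact Continuous.subtype_mk continuous_subtype_val _)

/-- the signs -/
noncomputable def sg (a : ZMod 2) : QB := if a = 0 then 1 else -1

theorem sg_zero : sg 0 = 1 := if_pos rfl

theorem sg_add (a b : ZMod 2) : sg (a + b) = sg a * sg b := by
  have h : ∀ a : ZMod 2, a = 0 ∨ a = 1 := by decide
  have e1 : sg 1 = -1 := if_neg (by decide)
  rcases h a with rfl | rfl <;> rcases h b with rfl | rfl
  · rw [add_zero, sg_zero, one_mul]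
  · rw [zero_add, sg_zero, one_mul]
  · rw [add_zero, sg_zero, mul_one]
  · rw [show (1 : ZMod 2) + 1 = 0 by decide, sg_zero, e1]; norm_num

theorem sg_sum {ι : Type} (S : Finset ι) (f : ι → ZMod 2) : sg (∑ i ∈ S, f i) = ∏ i ∈ S, sg (f i) := by
  classical
  induction S using Finset.induction_on with
  | empty => simp [sg_zero]
  | insert a S ha ih => rw [Finset.sum_insert ha, Finset.prod_insert ha, sg_add, ih]

theorem sg_eq_one {a : ZMod 2} (h : sg a = 1) : a = 0 := by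
  by_contra hc
  unfold sg at h
  rw [if_neg hc] at h
  norm_num at h

theorem tu_mul {x y : QB} (hx : TwoUnit x) (hy : TwoUnit y) : TwoUnit (x * y) := by
  obtain ⟨hx0, k, h1, h2⟩ := hx
  obtain ⟨hy0, l, h3, h4⟩ := hy
  refine ⟨mul_ne_zero hx0 hy0, k + l, ?_, ?_⟩
  · have := h1.mul h3
    have e : (2 : QB) ^ (k + l) * (x * y) = 2 ^ k * x * (2 ^ l * y) := by ring
    rwa [e]
  · have := h2.mul h4
    have e : (2 : QB) ^ (k + l) * (x * y)⁻¹ = 2 ^ k * x⁻¹ * (2 ^ l * y⁻¹) := by rw [mul_inv]; ring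
    rwa [e]

theorem tu_prod {ι : Type} (S : Finset ι) (f : ι → QB) (h : ∀ i, TwoUnit (f i)) : TwoUnit (∏ i ∈ S, f i) := by
  classical
  induction S using Finset.induction_on with
  | empty => simpa using tu_one
  | insert a S ha ih => rw [Finset.prod_insert ha]; exact tu_mul (h a) ih

/-- the family of Kummer characters -/
theorem kumfam (hD : StD) (hD3 : StD3) (hE0 : StE0) {d : ℕ} (hs : s ^ 2 = -(d : QB)) (hF : Fld d)
    (U : Subgroup (GK s)) (hU : IsOpen (U : Set (GK s))) (hN : Nf s ≤ U) :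
    ∃ (x : Fin (U.index + 2) → QB) (φ : Fin (U.index + 2) → XU U),
      (∀ i, ∀ σ ∈ U, σ (x i ^ 2) = x i ^ 2) ∧ (∀ i, TwoUnit (x i ^ 2)) ∧
      (∀ i (σ : U), (σ : GK s) (x i) = sg ((φ i).1.1 σ) * x i) ∧ LinearIndependent (ZMod 2) φ := by
  classical
  obtain ⟨u, hu1, hu2, hu3⟩ := hD s d hs hF U hU
  have hsq : ∀ y : QB, ∃ z : QB, z ^ 2 = y := fun y => IsAlgClosed.exists_pow_nat_eq y (by norm_num)
  choose sq hsq using hsq
  have hx : ∀ i, sq (u i) ^ 2 = u i := fun i => hsq _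
  have hfx : ∀ i, ∀ σ ∈ U, σ (sq (u i) ^ 2) = sq (u i) ^ 2 := by
    intro i σ hσ
    rw [hx, hu1 i σ hσ]
  have hNx : ∀ i, ∀ n ∈ Nf s, n (sq (u i)) = sq (u i) := by
    intro i
    apply fix_Nf hD3 hE0 hs hF 1 (sq (u i))
    · rw [pow_one, hx]; exact hu2 i
    · intro n hn
      rw [pow_one]
      exact hfx i n (hN hn)
  set φ : Fin (U.index + 2) → XU U := fun i =>
    ⟨⟨fun σ : U => if (σ : GK s) (sq (u i)) = sq (u i) then (0 : ZMod 2) else 1, kum_HS (hfx i)⟩, by
      intro σ hσ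
      show (if (σ : GK s) (sq (u i)) = sq (u i) then (0 : ZMod 2) else 1) = 0
      rw [if_pos (hNx i σ hσ)]⟩ with hφ
  have hact : ∀ i (σ : U), (σ : GK s) (sq (u i)) = sg ((φ i).1.1 σ) * sq (u i) := by
    intro i σ
    show _ = sg (if (σ : GK s) (sq (u i)) = sq (u i) then (0 : ZMod 2) else 1) * sq (u i)
    by_cases h : (σ : GK s) (sq (u i)) = sq (u i)
    · rw [if_pos h, sg_zero, one_mul, h]
    · rw [if_neg h]
      have h1 := hfx i σ.1 σ.2
      rw [map_pow] at h1
      rcases sq_eq_sq_iff_eq_or_eq_neg.1 h1 with h2 | h2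
      · exact absurd h2 h
      · rw [h2, show sg 1 = -1 from if_neg (by decide)]
        ring
  refine ⟨fun i => sq (u i), φ, hfx, fun i => by rw [hx]; exact hu2 i, hact, ?_⟩
  rw [Fintype.linearIndependent_iff]
  intro g hg i
  set S : Finset (Fin (U.index + 2)) := Finset.univ.filter fun i => g i ≠ 0 with hS
  have h1 : S = ∅ := by
    apply hu3 S
    refine ⟨∏ i ∈ S, sq (u i), fun σ hσ => ?_, ?_⟩
    · rw [map_prod]
      have h2 : ∀ i, σ (sq (u i)) = sg ((φ i).1.1 ⟨σ, hσ⟩) * sq (u i) := fun i => hact i ⟨σ, hσ⟩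
      simp only [h2]
      rw [Finset.prod_mul_distrib, ← sg_sum]
      have h3 : ∑ i ∈ S, (φ i).1.1 ⟨σ, hσ⟩ = 0 := by
        have h4 := congrFun (congrArg Subtype.val (congrArg Subtype.val hg)) (⟨σ, hσ⟩ : U)
        have h5 : (((∑ i, g i • φ i : XU U).1).1 ⟨σ, hσ⟩ : ZMod 2) = ∑ i, g i * (φ i).1.1 ⟨σ, hσ⟩ := by
          simp [Finset.sum_apply]
        rw [h5] at h4
        have h6 : ∑ i ∈ S, (φ i).1.1 ⟨σ, hσ⟩ = ∑ i, g i * (φ i).1.1 ⟨σ, hσ⟩ := by
          rw [hS, Finset.sum_filter]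
          refine Finset.sum_congr rfl fun i _ => ?_
          by_cases h7 : g i = 0
          · rw [if_neg (by simpa using h7), h7, zero_mul]
          · rw [if_pos h7, Pool.Agent.K7.H6.PS.z2_ne h7, one_mul]
        rw [h6]
        exact h4
      rw [h3, sg_zero, one_mul]
    · rw [← Finset.prod_pow]
      exact Finset.prod_congr rfl fun i _ => hx i
  by_contra hc
  have : i ∈ S := by
    rw [hS, Finset.mem_filter]
    exact ⟨Finset.mem_univ _, hc⟩
  rw [h1] at this
  exact absurd this (Finset.notMem_empty _)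

/-- density: the restriction is injective -/
theorem resD_inj (hE0 : StE0) {d : ℕ} (hs : s ^ 2 = -(d : QB)) (hF : Fld d) (ι₀ : QB →ₐ[ℚ] PadicAlgCl 2)
    (U : Subgroup (GK s)) (hU : IsOpen (U : Set (GK s))) (hN : Nf s ≤ U) :
    Function.Injective ((resD U (DDs ι₀)).comp (XU U).subtype) := by
  rw [← LinearMap.ker_eq_bot, LinearMap.ker_eq_bot']
  intro φ hφ
  apply Subtype.ext
  apply Subtype.ext
  funext g
  show φ.1.1 g = 0
  have hφD : ∀ δ (h : δ ∈ U), δ ∈ DDs (s := s) ι₀ → φ.1.1 ⟨δ, h⟩ = 0 := by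
    intro δ h h'
    exact congrFun (congrArg Subtype.val hφ) ⟨δ, h, h'⟩
  have hadd := φ.1.2.2
  have h1 : φ.1.1 1 = 0 := by
    have := hadd 1 1
    rw [mul_one] at this
    exact left_eq_add.1 this
  -- the kernel
  let W : Subgroup (GK s) :=
    { carrier := {x | ∃ h : x ∈ U, φ.1.1 ⟨x, h⟩ = 0}
      mul_mem' := by
        rintro x y ⟨hx, hx'⟩ ⟨hy, hy'⟩
        refine ⟨mul_mem hx hy, ?_⟩
        have := hadd ⟨x, hx⟩ ⟨y, hy⟩
        rw [hx', hy', add_zero] at this
        exact this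
      one_mem' := ⟨one_mem U, h1⟩
      inv_mem' := by
        rintro x ⟨hx, hx'⟩
        refine ⟨inv_mem hx, ?_⟩
        have := hadd ⟨x, hx⟩ ⟨x⁻¹, inv_mem hx⟩
        rw [hx', zero_add] at this
        rw [← this]
        have e : (⟨x, hx⟩ : U) * ⟨x⁻¹, inv_mem hx⟩ = 1 := by
          apply Subtype.ext
          show x * x⁻¹ = 1
          group
        rw [e, h1] }
  have hWo : IsOpen (W : Set (GK s)) := by
    have h2 : IsOpen {x : U | φ.1.1 x = 0} := φ.1.2.1.isOpen_fiber 0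
    have h3 := hU.isOpenEmbedding_subtypeVal.isOpenMap _ h2
    convert h3 using 1
    ext x
    constructor
    · rintro ⟨h, h'⟩
      exact ⟨⟨x, h⟩, h', rfl⟩
    · rintro ⟨⟨y, hy⟩, h', rfl⟩
      exact ⟨hy, h'⟩
  · have hWN : Nf s ≤ W := fun n hn => ⟨hN hn, φ.2 ⟨n, hN hn⟩ hn⟩
    obtain ⟨δ, hδ, hδg⟩ := (hE0 s d hs hF).2.2.2.2 ι₀ W hWo hWN g.1
    obtain ⟨h2, h3⟩ := hδg
    have hδU : δ ∈ U := by
      have h4 : δ = g.1 * (δ⁻¹ * g.1)⁻¹ := by group
      rw [h4]
      exact mul_mem g.2 (inv_mem h2)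
    have h5 := hadd ⟨δ, hδU⟩ ⟨δ⁻¹ * g.1, h2⟩
    rw [h3, hφD δ hδU hδ, add_zero] at h5
    have e : (⟨δ, hδU⟩ : U) * ⟨δ⁻¹ * g.1, h2⟩ = g := by
      apply Subtype.ext
      show δ * (δ⁻¹ * g.1) = g.1
      group
    rwa [e] at h5

/-- the local bound -/
theorem fin_bound (hC : StC) (hE1 : StE1) {d : ℕ} (hs : s ^ 2 = -(d : QB)) (hF : Fld d)
    (ι₀ : QB →ₐ[ℚ] PadicAlgCl 2) (U : Subgroup (GK s)) (hU : IsOpen (U : Set (GK s))) :
    Module.Finite (ZMod 2) (HS (U ⊓ DDs ι₀ : Subgroup (GK s))) ∧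
      Module.finrank (ZMod 2) (HS (U ⊓ DDs ι₀ : Subgroup (GK s))) ≤ U.index + 2 := by
  obtain ⟨r, hr, -, hrange⟩ := hE1 s d hs hF ι₀
  have hV : IsOpen ((U.comap r : Subgroup (Au 2)) : Set (Au 2)) := hU.preimage hr
  obtain ⟨hfin, hle⟩ := hC (U.comap r) hV
  have hi0 : U.index ≠ 0 := by
    have := Subgroup.quotient_finite_of_isOpen U hU
    exact Subgroup.index_ne_zero_of_finite
  have hi : (U.comap r).index ≤ U.index := by
    rw [Subgroup.index_comap]
    have h1 := Subgroup.relIndex_le_of_le_right (H := U) (K := r.range) (L := ⊤) le_top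
      (by rw [Subgroup.relIndex_top_right]; exact hi0)
    rwa [Subgroup.relIndex_top_right] at h1
  let f : (U.comap r) →* (U ⊓ DDs ι₀ : Subgroup (GK s)) :=
    (r.comp (U.comap r).subtype).codRestrict _ (fun v => ⟨v.2, by rw [← hrange]; exact ⟨v.1, rfl⟩⟩)
  have hf : Continuous f := Continuous.subtype_mk (hr.comp continuous_subtype_val) _
  have hsurj : Function.Surjective f := by
    rintro ⟨x, hxU, hxD⟩
    rw [SetLike.mem_coe, ← hrange] at hxD
    obtain ⟨τ, rfl⟩ := hxD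
    exact ⟨⟨τ, hxU⟩, rfl⟩
  have hinj : Function.Injective (pb f hf) := by
    intro φ ψ h
    apply Subtype.ext
    funext x
    obtain ⟨v, rfl⟩ := hsurj x
    exact congrFun (congrArg Subtype.val h) v
  have h3 := LinearMap.finrank_le_finrank_of_injective hinj
  exact ⟨Module.Finite.of_injective (pb f hf) hinj, by omega⟩

theorem main_dim (hC : StC) (hD : StD) (hD3 : StD3) (hE0 : StE0) (hE1 : StE1) {d : ℕ} (hs : s ^ 2 = -(d : QB))
    (hF : Fld d) (ι₀ : QB →ₐ[ℚ] PadicAlgCl 2) (U : Subgroup (GK s)) (hU : IsOpen (U : Set (GK s)))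
    (hN : Nf s ≤ U) : Module.Finite (ZMod 2) (XU U) ∧ Module.finrank (ZMod 2) (XU U) = U.index + 2 ∧
      Function.Surjective ((resD U (DDs ι₀)).comp (XU U).subtype) := by
  obtain ⟨hfin, hle⟩ := fin_bound hC hE1 hs hF ι₀ U hU
  have hinj := resD_inj hE0 hs hF ι₀ U hU hN
  have hfX : Module.Finite (ZMod 2) (XU U) := Module.Finite.of_injective _ hinj
  have h1 := LinearMap.finrank_le_finrank_of_injective hinj
  obtain ⟨x, φ, -, -, -, hli⟩ := kumfam hD hD3 hE0 hs hF U hU hN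
  have h2 := hli.fintype_card_le_finrank
  rw [Fintype.card_fin] at h2
  exact ⟨hfX, by omega, (LinearMap.injective_iff_surjective_of_finrank_eq_finrank (by omega)).1 hinj⟩

theorem stE2 : StE2 := by
  intro hC hD hD3 hE0 hE1 s d hs hF
  classical
  obtain ⟨ι₁⟩ : Nonempty (QB →ₐ[ℚ] PadicAlgCl 2) :=
    ⟨IsAlgClosed.lift (R := ℚ) (S := QB) (M := AlgebraicClosure ℚ_[2])⟩
  refine ⟨?_, ?_, ?_⟩
  · intro W hW
    set U : Subgroup (GK s) := W.comap (QuotientGroup.mk' (Nf s)) with hUdef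
    have hU : IsOpen (U : Set (GK s)) := hW.preimage continuous_quotient_mk'
    have hN : Nf s ≤ U := by
      intro x hx
      rw [hUdef, Subgroup.mem_comap]
      have : QuotientGroup.mk' (Nf s) x = 1 := (QuotientGroup.eq_one_iff x).2 hx
      rw [this]
      exact one_mem W
    have hi : U.index = W.index := Subgroup.index_comap_of_surjective _ (QuotientGroup.mk'_surjective _)
    obtain ⟨hfin, hdim, -⟩ := main_dim hC hD hD3 hE0 hE1 hs hF ι₁ U hU hN
    let f : U →* W := ((QuotientGroup.mk' (Nf s)).comp U.subtype).codRestrict _ (fun v => v.2)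
    have hf : Continuous f := Continuous.subtype_mk (continuous_quotient_mk'.comp continuous_subtype_val) _
    have hsurj : Function.Surjective f := by
      rintro ⟨x, hx⟩
      obtain ⟨σ, rfl⟩ := QuotientGroup.mk_surjective x
      exact ⟨⟨σ, hx⟩, rfl⟩
    have hinj : Function.Injective (pb f hf) := by
      intro φ ψ h
      apply Subtype.ext
      funext x
      obtain ⟨v, rfl⟩ := hsurj x
      exact congrFun (congrArg Subtype.val h) v
    have hrange : LinearMap.range (pb f hf) = XU U := by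
      ext ψ
      constructor
      · rintro ⟨φ, rfl⟩ σ hσ
        show φ.1 (f σ) = 0
        have h1 : f σ = 1 := by
          apply Subtype.ext
          exact (QuotientGroup.eq_one_iff _).2 hσ
        have h2 := φ.2.2 1 1
        rw [mul_one] at h2
        rw [h1]
        exact left_eq_add.1 h2
      · intro hψ
        have hinv : ∀ σ, ∀ n ∈ Nf s, ex U ψ.1 (σ * n) = ex U ψ.1 σ := by
          intro σ n hn
          by_cases hσ : σ ∈ U
          · rw [ex_mem _ hσ, ex_mem _ (mul_mem hσ (hN hn))]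
            have h1 := ψ.2.2 ⟨σ, hσ⟩ ⟨n, hN hn⟩
            rw [hψ ⟨n, hN hn⟩ hn, add_zero] at h1
            exact h1
          · have h1 : σ * n ∉ U := fun h => hσ (by
              have := mul_mem h (inv_mem (hN hn))
              rwa [mul_inv_cancel_right] at this)
            rw [ex_not _ hσ, ex_not _ h1]
        obtain ⟨Ψ, hΨ, hΨ'⟩ := descend (ex U ψ.1) (ex_lc hU ψ.2.1) hinv
        have hval : ∀ u : U, Ψ (f u : Gs s) = ψ.1 u := by
          intro u
          have h1 := hΨ' u.1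
          rw [ex_mem _ u.2] at h1
          exact h1
        refine ⟨⟨fun w => Ψ w, hΨ.comp_continuous continuous_subtype_val, fun x y => ?_⟩,
          Subtype.ext (funext hval)⟩
        obtain ⟨u, rfl⟩ := hsurj x
        obtain ⟨v, rfl⟩ := hsurj y
        beta_reduce
        rw [← map_mul, hval, hval, hval, ψ.2.2]
    rw [one_mul, ← hi, ← hdim, ← hrange]
    exact (LinearMap.finrank_range_of_inj hinj).symm
  · intro ι₀ U hU hN φ hφ
    obtain ⟨-, -, hsurj⟩ := main_dim hC hD hD3 hE0 hE1 hs hF ι₀ U hU hN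
    obtain ⟨ψ, hψ⟩ := hsurj ⟨φ, hφ⟩
    refine ⟨ψ.1.1, ψ.1.2, ψ.2, fun σ h h' => ?_⟩
    exact congrFun (congrArg Subtype.val hψ) ⟨σ, h'⟩
  · intro φ hφ
    have hN : Nf s ≤ (⊤ : Subgroup (GK s)) := le_top
    obtain ⟨hfin, hdim, -⟩ := main_dim hC hD hD3 hE0 hE1 hs hF ι₁ ⊤ isOpen_univ hN
    obtain ⟨x, Φ, hx1, hx2, hact, hli⟩ := kumfam hD hD3 hE0 hs hF ⊤ isOpen_univ hN
    have hspan := hli.span_eq_top_of_card_eq_finrank' (by rw [hdim, Fintype.card_fin])
    set ψ : XU (⊤ : Subgroup (GK s)) := ⟨⟨fun σ => φ (QuotientGroup.mk (σ : GK s)),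
      hφ.1.comp_continuous (continuous_quotient_mk'.comp continuous_subtype_val), fun a b => by
        show φ (QuotientGroup.mk ((a : GK s) * b)) = _
        rw [QuotientGroup.mk_mul, hφ.2]⟩, by
      intro σ hσ
      show φ (QuotientGroup.mk (σ : GK s)) = 0
      rw [(QuotientGroup.eq_one_iff _).2 hσ]
      have h2 := hφ.2 1 1
      rw [mul_one] at h2
      exact left_eq_add.1 h2⟩ with hψ
    have hmem : ψ ∈ Submodule.span (ZMod 2) (Set.range Φ) := by rw [hspan]; trivial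
    obtain ⟨g, hg⟩ := (Submodule.mem_span_range_iff_exists_fun (ZMod 2)).1 hmem
    set S : Finset (Fin ((⊤ : Subgroup (GK s)).index + 2)) := Finset.univ.filter fun i => g i ≠ 0 with hS
    have hσX : ∀ σ : GK s, σ (∏ i ∈ S, x i) = sg (φ (QuotientGroup.mk σ)) * ∏ i ∈ S, x i := by
      intro σ
      rw [map_prod]
      have h2 : ∀ i, σ (x i) = sg ((Φ i).1.1 ⟨σ, trivial⟩) * x i := fun i => hact i ⟨σ, trivial⟩
      simp only [h2]
      rw [Finset.prod_mul_distrib, ← sg_sum]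
      congr 2
      have h4 := congrFun (congrArg Subtype.val (congrArg Subtype.val hg)) (⟨σ, trivial⟩ : (⊤ : Subgroup (GK s)))
      have h5 : (((∑ i, g i • Φ i : XU (⊤ : Subgroup (GK s))).1).1 ⟨σ, trivial⟩ : ZMod 2) =
          ∑ i, g i * (Φ i).1.1 ⟨σ, trivial⟩ := by
        simp [Finset.sum_apply]
      rw [h5] at h4
      have h6 : ∑ i ∈ S, (Φ i).1.1 ⟨σ, trivial⟩ = ∑ i, g i * (Φ i).1.1 ⟨σ, trivial⟩ := by
        rw [hS, Finset.sum_filter]
        refine Finset.sum_congr rfl fun i _ => ?_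
        by_cases h7 : g i = 0
        · rw [if_neg (by simpa using h7), h7, zero_mul]
        · rw [if_pos h7, Pool.Agent.K7.H6.PS.z2_ne h7, one_mul]
      rw [h6, h4]
    have hX0 : ∏ i ∈ S, x i ≠ 0 := by
      rw [Finset.prod_ne_zero_iff]
      intro i _ h
      apply (hx2 i).1
      rw [h]
      norm_num
    refine ⟨∏ i ∈ S, x i ^ 2, ∏ i ∈ S, x i, ?_, tu_prod S _ hx2, by rw [Finset.prod_pow], fun σ => ?_⟩
    · have hfix : ∀ σ : GK s, σ (∏ i ∈ S, x i ^ 2) = ∏ i ∈ S, x i ^ 2 := by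
        intro σ
        rw [map_prod]
        exact Finset.prod_congr rfl fun i _ => hx1 i σ trivial
      have h3 := (InfiniteGalois.mem_bot_iff_fixed (k := KK s) (K := QB) (∏ i ∈ S, x i ^ 2)).2 hfix
      rw [IntermediateField.mem_bot] at h3
      obtain ⟨z, hz⟩ := h3
      rw [← hz]
      exact z.2
    · rw [hσX]
      constructor
      · intro h
        rw [h, sg_zero, one_mul]
      · intro h
        apply sg_eq_one
        apply mul_right_cancel₀ hX0
        rw [h, one_mul]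

end Pool.Agent.K7.H6.PSE
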