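import Pool.Agent.K7.H6.PS.E2

/-!
# Parity of Selmer groups: job F1
-/

set_option autoImplicit false
set_option linter.unusedSectionVars false

namespace Pool.Agent.K7.H6.PSF

open Pool.Agent.Y715.Gi (QB KK GK)
open Pool.Agent.Y715.Nr Pool.Agent.W237.RK
open Pool.Agent.Z384 (II DD DDs Fld)
open Pool.Agent.H76.PS
open Pool.Agent.K7.H6.PSH Pool.Agent.K7.H6.PSE

variable {s : QB}

/-- uniqueness of the extensions of characters -/
theorem uniq (hE0 : StE0) {d : ℕ} (hs : s ^ 2 = -(d : QB)) (hF : Fld d) (ι₀ : QB →ₐ[ℚ] PadicAlgCl 2)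
    {U : Subgroup (GK s)} (hU : IsOpen (U : Set (GK s))) (hN : Nf s ≤ U) {φ ψ : U → ZMod 2} (hφ : φ ∈ HS U)
    (hψ : ψ ∈ HS U) (h1 : ∀ σ : U, (σ : GK s) ∈ Nf s → φ σ = 0) (h2 : ∀ σ : U, (σ : GK s) ∈ Nf s → ψ σ = 0)
    (h : ∀ σ : U, (σ : GK s) ∈ DDs (s := s) ι₀ → φ σ = ψ σ) : φ = ψ := by
  have h3 := resD_inj hE0 hs hF ι₀ U hU hN (a₁ := ⟨⟨φ, hφ⟩, h1⟩) (a₂ := ⟨⟨ψ, hψ⟩, h2⟩)
    (by
      apply Subtype.ext
      funext x
      exact h ⟨x.1, x.2.1⟩ x.2.2)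
  exact congrArg Subtype.val (congrArg Subtype.val h3)

section cen

variable {P : Type} [Group P] (z : P)

/-- the embedding of `ZMod 2` -/
def io (a : ZMod 2) : P := if a = 0 then 1 else z

variable {z} (hz2 : z * z = 1)

include hz2 in
theorem io_add (a b : ZMod 2) : io z (a + b) = io z a * io z b := by
  have h : ∀ a : ZMod 2, a = 0 ∨ a = 1 := by decide
  have e0 : io z 0 = 1 := if_pos rfl
  have e1 : io z 1 = z := if_neg (by decide)
  rcases h a with rfl | rfl <;> rcases h b with rfl | rfl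
  · rw [add_zero, e0, one_mul]
  · rw [zero_add, e0, one_mul]
  · rw [add_zero, e0, mul_one]
  · rw [show (1 : ZMod 2) + 1 = 0 by decide, e0, e1, hz2]

theorem io_zero : io z 0 = 1 := if_pos rfl

theorem io_inj (hz1 : z ≠ 1) {a b : ZMod 2} (h : io z a = io z b) : a = b := by
  have hc : ∀ a : ZMod 2, a = 0 ∨ a = 1 := by decide
  have e0 : io z 0 = 1 := if_pos rfl
  have e1 : io z 1 = z := if_neg (by decide)
  rcases hc a with rfl | rfl <;> rcases hc b with rfl | rfl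
  · rfl
  · rw [e0, e1] at h; exact absurd h.symm hz1
  · rw [e0, e1] at h; exact absurd h hz1
  · rfl

theorem io_comm (hz : z ∈ Subgroup.center P) (a : ZMod 2) (x : P) : io z a * x = x * io z a := by
  unfold io
  split_ifs
  · rw [one_mul, mul_one]
  · exact ((Subgroup.mem_center_iff.1 hz) x).symm

end cen

/-- one step -/
theorem step (hE : StE) (hE0 : StE0) {d : ℕ} (hs : s ^ 2 = -(d : QB)) (hF : Fld d)
    (ι₀ : QB →ₐ[ℚ] PadicAlgCl 2) {P : Type} [Group P] (r : DDs (s := s) ι₀ →* P)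
    (hr : IsLocallyConstant (fun δ => r δ)) {z : P} (hz : z ∈ Subgroup.center P) (hz1 : z ≠ 1)
    (hz2 : z * z = 1) {Q : Type} [Group Q] (π : P →* Q) (hπ : ∀ x, π x = 1 → x = 1 ∨ x = z)
    (R' : GK s →* Q) (hR'lc : IsLocallyConstant (fun σ => R' σ)) (hR'N : ∀ σ ∈ Nf s, R' σ = 1)
    (hR'r : ∀ δ : DDs (s := s) ι₀, R' (δ : GK s) = π (r δ)) :
    ∃ R : GK s →* P, IsLocallyConstant (fun σ => R σ) ∧ (∀ σ ∈ Nf s, R σ = 1) ∧
      ∀ δ : DDs (s := s) ι₀, R (δ : GK s) = r δ := by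
  classical
  set U : Subgroup (GK s) := R'.ker with hUdef
  have hU : IsOpen (U : Set (GK s)) := hR'lc.isOpen_fiber 1
  have hN : Nf s ≤ U := fun n hn => hR'N n hn
  have hUn : ∀ u ∈ U, ∀ g, g⁻¹ * u * g ∈ U := by
    intro u hu g
    have hu : R' u = 1 := hu
    show R' (g⁻¹ * u * g) = 1
    rw [map_mul, map_mul, hu, mul_one, ← map_mul, inv_mul_cancel, map_one]
  -- the values on `U ⊓ D`
  have hval : ∀ x : (U ⊓ DDs ι₀ : Subgroup (GK s)), r ⟨x, x.2.2⟩ = 1 ∨ r ⟨x, x.2.2⟩ = z := by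
    intro x
    apply hπ
    rw [← hR'r]
    exact x.2.1
  set φ₀ : (U ⊓ DDs ι₀ : Subgroup (GK s)) → ZMod 2 := fun x => if r ⟨x, x.2.2⟩ = 1 then 0 else 1 with hφ₀
  have hio : ∀ x, io z (φ₀ x) = r ⟨x, x.2.2⟩ := by
    intro x
    rw [hφ₀]
    beta_reduce
    by_cases h : r ⟨x, x.2.2⟩ = 1
    · rw [if_pos h, io_zero, h]
    · rw [if_neg h, (hval x).resolve_left h]
      exact if_neg (by decide)
  have hφ₀m : φ₀ ∈ HS (U ⊓ DDs ι₀ : Subgroup (GK s)) := by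
    refine ⟨?_, fun x y => ?_⟩
    · exact (hr.comp (fun p => if p = 1 then (0 : ZMod 2) else 1)).comp_continuous
        (f := fun x : (U ⊓ DDs ι₀ : Subgroup (GK s)) => (⟨x, x.2.2⟩ : DDs (s := s) ι₀))
        (Continuous.subtype_mk continuous_subtype_val _)
    · apply io_inj hz1
      rw [io_add hz2, hio, hio, hio, ← map_mul]
      rfl
  obtain ⟨φ, hφ, hφN, hφr⟩ := (hE s d hs hF).2.1 ι₀ U hU hN φ₀ hφ₀m
  have hφD : ∀ (δ : GK s) (h : δ ∈ U) (h' : δ ∈ DDs (s := s) ι₀), io z (φ ⟨δ, h⟩) = r ⟨δ, h'⟩ := by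
    intro δ h h'
    rw [hφr δ h ⟨h, h'⟩, hio]
  -- invariance under conjugation
  have hconj : ∀ (δ : GK s) (_ : δ ∈ DDs (s := s) ι₀) (u : GK s) (hu : u ∈ U),
      φ ⟨δ⁻¹ * u * δ, hUn u hu δ⟩ = φ ⟨u, hu⟩ := by
    intro δ hδ
    have h1 : (fun u : U => φ ⟨δ⁻¹ * u.1 * δ, hUn u.1 u.2 δ⟩) = φ := by
      refine uniq hE0 hs hF ι₀ hU hN ⟨?_, fun x y => ?_⟩ hφ (fun σ hσ => ?_) hφN (fun σ hσ => ?_)
      · exact hφ.1.comp_continuous (f := fun u : U => (⟨δ⁻¹ * u.1 * δ, hUn u.1 u.2 δ⟩ : U)) (by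
          refine Continuous.subtype_mk ?_ _
          exact (continuous_mul_const δ).comp ((continuous_const_mul δ⁻¹).comp continuous_subtype_val))
      · beta_reduce
        rw [← hφ.2]
        congr 1
        apply Subtype.ext
        show δ⁻¹ * (x.1 * y.1) * δ = (δ⁻¹ * x.1 * δ) * (δ⁻¹ * y.1 * δ)
        group
      · apply hφN
        have h2 := (normal_Nf s).conj_mem σ.1 hσ δ⁻¹
        rwa [inv_inv] at h2
      · apply io_inj hz1
        have h2 : δ⁻¹ * σ.1 * δ ∈ DDs (s := s) ι₀ := mul_mem (mul_mem (inv_mem hδ) hσ) hδ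
        rw [hφD _ _ h2, hφD σ.1 σ.2 hσ]
        have h3 : (⟨δ⁻¹ * σ.1 * δ, h2⟩ : DDs (s := s) ι₀) = ⟨δ, hδ⟩⁻¹ * ⟨σ.1, hσ⟩ * ⟨δ, hδ⟩ := rfl
        rw [h3, map_mul, map_mul, map_inv, ← hφD σ.1 σ.2 hσ, mul_assoc, io_comm hz, ← mul_assoc, inv_mul_cancel,
          one_mul]
    intro u hu
    exact congrFun h1 ⟨u, hu⟩
  -- the definition
  have hdens : ∀ g : GK s, ∃ δ ∈ DDs (s := s) ι₀, δ⁻¹ * g ∈ U := (hE0 s d hs hF).2.2.2.2 ι₀ U hU hN
  choose δ hδD hδU using hdens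
  set R : GK s → P := fun g => r ⟨δ g, hδD g⟩ * io z (φ ⟨(δ g)⁻¹ * g, hδU g⟩) with hRdef
  have hRv : ∀ (e : GK s) (he : e ∈ DDs (s := s) ι₀) (u : GK s) (hu : u ∈ U),
      R (e * u) = r ⟨e, he⟩ * io z (φ ⟨u, hu⟩) := by
    intro e he u hu
    have h1 : (δ (e * u))⁻¹ * e ∈ U := by
      have h2 := mul_mem (hδU (e * u)) (inv_mem hu)
      have h3 : (δ (e * u))⁻¹ * (e * u) * u⁻¹ = (δ (e * u))⁻¹ * e := by group
      rwa [h3] at h2
    have h1' : (δ (e * u))⁻¹ * e ∈ DDs (s := s) ι₀ := mul_mem (inv_mem (hδD _)) he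
    have h2 : φ ⟨(δ (e * u))⁻¹ * (e * u), hδU _⟩ = φ ⟨(δ (e * u))⁻¹ * e, h1⟩ + φ ⟨u, hu⟩ := by
      rw [← hφ.2]
      congr 1
    rw [hRdef]
    beta_reduce
    rw [h2, io_add hz2, hφD _ h1 h1', ← mul_assoc, ← map_mul]
    congr 2
    apply Subtype.ext
    show δ (e * u) * ((δ (e * u))⁻¹ * e) = e
    group
  have hRD : ∀ (e : GK s) (he : e ∈ DDs (s := s) ι₀), R e = r ⟨e, he⟩ := by
    intro e he
    have h1 := hRv e he 1 (one_mem U)
    rw [mul_one] at h1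
    have h2 : φ ⟨1, one_mem U⟩ = 0 := hφN ⟨1, one_mem U⟩ (one_mem _)
    rw [h1, h2, io_zero, mul_one]
  have hRU : ∀ (u : GK s) (hu : u ∈ U), R u = io z (φ ⟨u, hu⟩) := by
    intro u hu
    have h1 := hRv 1 (one_mem _) u hu
    rw [one_mul] at h1
    rw [h1]
    have : (⟨1, one_mem _⟩ : DDs (s := s) ι₀) = 1 := rfl
    rw [this, map_one, one_mul]
  have hRm : ∀ g h, R (g * h) = R g * R h := by
    intro g h
    have eg : g = δ g * ((δ g)⁻¹ * g) := by group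
    have eh : h = δ h * ((δ h)⁻¹ * h) := by group
    have h1 : g * h = (δ g * δ h) * (((δ h)⁻¹ * ((δ g)⁻¹ * g) * δ h) * ((δ h)⁻¹ * h)) := by group
    have hu1 := hUn _ (hδU g) (δ h)
    have h2 := hRv (δ g * δ h) (mul_mem (hδD g) (hδD h)) _ (mul_mem hu1 (hδU h))
    rw [← h1] at h2
    have h3 : φ ⟨((δ h)⁻¹ * ((δ g)⁻¹ * g) * δ h) * ((δ h)⁻¹ * h), mul_mem hu1 (hδU h)⟩ =
        φ ⟨(δ g)⁻¹ * g, hδU g⟩ + φ ⟨(δ h)⁻¹ * h, hδU h⟩ := by
      rw [← hconj (δ h) (hδD h) _ (hδU g), ← hφ.2]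
      rfl
    rw [h2, h3, io_add hz2]
    have h4 : (⟨δ g * δ h, mul_mem (hδD g) (hδD h)⟩ : DDs (s := s) ι₀) = ⟨δ g, hδD g⟩ * ⟨δ h, hδD h⟩ := rfl
    rw [h4, map_mul]
    show _ = r ⟨δ g, hδD g⟩ * io z (φ ⟨(δ g)⁻¹ * g, hδU g⟩) * (r ⟨δ h, hδD h⟩ * io z (φ ⟨(δ h)⁻¹ * h, hδU h⟩))
    rw [mul_assoc, mul_assoc, ← mul_assoc (io z (φ ⟨(δ g)⁻¹ * g, hδU g⟩)) (r ⟨δ h, hδD h⟩), io_comm hz _ (r ⟨δ h, hδD h⟩),
      mul_assoc]
  refine ⟨MonoidHom.mk' R hRm, ?_, fun n hn => ?_, fun e => hRD e.1 e.2⟩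
  · rw [IsLocallyConstant.iff_exists_open]
    intro g
    have hWo : IsOpen (Subtype.val '' {u : U | φ u = 0} : Set (GK s)) :=
      hU.isOpenEmbedding_subtypeVal.isOpenMap _ (hφ.1.isOpen_fiber 0)
    refine ⟨(fun h => g⁻¹ * h) ⁻¹' (Subtype.val '' {u : U | φ u = 0}), hWo.preimage (continuous_const_mul _), ?_, ?_⟩
    · refine ⟨1, hφN 1 (one_mem _), ?_⟩
      beta_reduce
      rw [inv_mul_cancel]
      rfl
    · rintro h ⟨u, hu, hu'⟩
      show R h = R g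
      have h1 : h = g * u.1 := by
        rw [hu']
        beta_reduce
        group
      have hu : φ u = 0 := hu
      rw [h1, hRm, hRU u.1 u.2, hu, io_zero, mul_one]
  · show R n = 1
    rw [hRU n (hN hn), hφN ⟨n, hN hn⟩ hn, io_zero]

theorem stF1 (hE : StE) (hE0 : StE0) : StF1 := by
  intro s d hs hF ι₀
  have key : ∀ (n : ℕ) (P : Type) [Group P] [Finite P], Nat.card P = n → IsPGroup 2 P →
      ∀ r : DDs (s := s) ι₀ →* P, IsLocallyConstant (fun δ => r δ) →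
      ∃ R : GK s →* P, IsLocallyConstant (fun σ => R σ) ∧ (∀ σ ∈ Nf s, R σ = 1) ∧
        ∀ δ : DDs (s := s) ι₀, R (δ : GK s) = r δ := by
    intro n
    induction n using Nat.strong_induction_on with
    | _ n ih =>
      intro P _ _ hn hP r hr
      rcases subsingleton_or_nontrivial P with hsub | hnt
      · exact ⟨1, IsLocallyConstant.const 1, fun _ _ => rfl, fun δ => Subsingleton.elim _ _⟩
      have : Fact (Nat.Prime 2) := ⟨Nat.prime_two⟩
      have hcn := hP.center_nontrivial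
      have hcp : IsPGroup 2 (Subgroup.center P) := hP.to_subgroup _
      obtain ⟨k, hk0, hk⟩ := hcp.nontrivial_iff_card.1 hcn
      obtain ⟨z, hz⟩ := exists_prime_orderOf_dvd_card' (G := Subgroup.center P) 2 (by
        rw [hk]; exact dvd_pow_self 2 hk0.ne')
      have hz2 : (z : P) * z = 1 := by
        have h1 := pow_orderOf_eq_one z
        rw [hz, pow_two] at h1
        exact congrArg Subtype.val h1
      have hz1 : (z : P) ≠ 1 := by
        intro h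
        have h1 : z = 1 := Subtype.ext h
        rw [h1, orderOf_one] at hz
        omega
      have hzc : ∀ x : P, x * z = z * x := Subgroup.mem_center_iff.1 z.2
      have hZn : (Subgroup.zpowers (z : P)).Normal := by
        refine ⟨fun x hx g => ?_⟩
        obtain ⟨m, rfl⟩ := Subgroup.mem_zpowers_iff.1 hx
        have h1 : Commute g ((z : P) ^ m) := (show Commute g (z : P) from hzc g).zpow_right m
        rw [h1.eq, mul_inv_cancel_right]
        exact hx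
      have hcard : Nat.card (P ⧸ Subgroup.zpowers (z : P)) < n := by
        have h1 := (Subgroup.zpowers (z : P)).card_mul_index
        have h2 : Nat.card (Subgroup.zpowers (z : P)) = 2 := by
          rw [Nat.card_zpowers, Subgroup.orderOf_coe, hz]
        have h3 : Nat.card (P ⧸ Subgroup.zpowers (z : P)) = (Subgroup.zpowers (z : P)).index := rfl
        have h4 : 0 < Nat.card P := Nat.card_pos
        rw [h2] at h1
        omega
      obtain ⟨R', h1, h2, h3⟩ := ih _ hcard (P ⧸ Subgroup.zpowers (z : P)) rfl (hP.to_quotient _)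
        ((QuotientGroup.mk' _).comp r) (hr.comp (QuotientGroup.mk' (Subgroup.zpowers (z : P))))
      refine step hE hE0 hs hF ι₀ r hr z.2 hz1 hz2 (QuotientGroup.mk' (Subgroup.zpowers (z : P))) (fun x hx => ?_)
        R' h1 h2 h3
      have h4 : x ∈ Subgroup.zpowers (z : P) := (QuotientGroup.eq_one_iff x).1 hx
      obtain ⟨m, hm⟩ := Subgroup.mem_zpowers_iff.1 h4
      rcases Int.even_or_odd' m with ⟨c, hc | hc⟩
      · left
        rw [← hm, hc, zpow_mul, zpow_ofNat, pow_two, hz2, one_zpow]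
      · right
        rw [← hm, hc, zpow_add, zpow_mul, zpow_ofNat, pow_two, hz2, one_zpow, one_mul, zpow_one]
  intro P _ _ hP r hr
  exact key _ P rfl hP r hr

end Pool.Agent.K7.H6.PSF
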