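import Pool.Agent.K7.H6.PS.S1

/-!
# Parity of Selmer groups: job F2
-/

set_option autoImplicit false
set_option linter.unusedSectionVars false

namespace Pool.Agent.K7.H6.PSF

open Pool.Agent.Y715.Gi (QB KK GK)
open Pool.Agent.Y715.Nr Pool.Agent.W237.RK
open Pool.Agent.Z384 (II DD DDs Fld)
open Pool.Agent.H76.PS
open Pool.Agent.K7.H6.PSH Pool.Agent.K7.H6.PSE
open Matrix IsLocalRing

section mat

variable {A : Type} [CommRing A] [IsLocalRing A] {n : ℕ}

/-- matrices with entries in an ideal -/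
def Me (I : Ideal A) (X : Matrix (Fin n) (Fin n) A) : Prop := ∀ i j, X i j ∈ I

theorem Me_mul {I J : Ideal A} {X Y : Matrix (Fin n) (Fin n) A} (hX : Me I X) (hY : Me J Y) :
    Me (I * J) (X * Y) := by
  intro i j
  rw [Matrix.mul_apply]
  exact Ideal.sum_mem _ fun k _ => Ideal.mul_mem_mul (hX i k) (hY k j)

theorem Me_add {I : Ideal A} {X Y : Matrix (Fin n) (Fin n) A} (hX : Me I X) (hY : Me I Y) : Me I (X + Y) :=
  fun i j => I.add_mem (hX i j) (hY i j)

/-- residually unipotent matrices: first step -/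
theorem first (h2 : (2 : A) ∈ maximalIdeal A) {M : Matrix (Fin n) (Fin n) A} {e : ℕ}
    (h : Me (maximalIdeal A) ((M - 1) ^ e)) : ∃ a : ℕ, Me (maximalIdeal A) (M ^ 2 ^ a - 1) := by
  set f : Matrix (Fin n) (Fin n) A →+* Matrix (Fin n) (Fin n) (ResidueField A) := (residue A).mapMatrix with hf
  have hf0 : ∀ X : Matrix (Fin n) (Fin n) A, f X = 0 ↔ Me (maximalIdeal A) X := by
    intro X
    constructor
    · intro hX i j
      rw [← residue_eq_zero_iff]
      exact congrFun (congrFun hX i) j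
    · intro hX
      ext i j
      exact (residue_eq_zero_iff _).2 (hX i j)
  have h20 : ∀ Y : Matrix (Fin n) (Fin n) (ResidueField A), Y + Y = 0 := by
    intro Y
    ext i j
    have h3 : (2 : ResidueField A) = 0 := by
      rw [← map_ofNat (residue A) 2]
      exact (residue_eq_zero_iff _).2 h2
    show Y i j + Y i j = 0
    rw [← two_mul, h3, zero_mul]
  have key : ∀ a, (f M) ^ 2 ^ a = 1 + (f M - 1) ^ 2 ^ a := by
    intro a
    induction a with
    | zero => rw [pow_zero, pow_one, pow_one]; abel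
    | succ a ih =>
      rw [pow_succ, pow_mul, ih, pow_mul]
      generalize (f M - 1) ^ 2 ^ a = Y
      rw [pow_two, mul_add, mul_one, add_mul, one_mul, pow_two]
      have := h20 Y
      calc 1 + Y + (Y + Y * Y) = 1 + (Y + Y) + Y * Y := by abel
        _ = _ := by rw [this, add_zero]
  refine ⟨e, ?_⟩
  rw [← hf0, map_sub, map_pow, map_one, key e]
  have h4 : (f M - 1) ^ e = 0 := by
    rw [← map_one f, ← map_sub, ← map_pow]
    exact (hf0 _).2 h
  have h5 : (f M - 1) ^ 2 ^ e = 0 := pow_eq_zero_of_le (Nat.lt_two_pow_self).le h4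
  rw [h5]
  abel

theorem next (h2 : (2 : A) ∈ maximalIdeal A) {M : Matrix (Fin n) (Fin n) A} {i : ℕ} (hi : 1 ≤ i)
    (h : Me (maximalIdeal A ^ i) (M - 1)) : Me (maximalIdeal A ^ (i + 1)) (M ^ 2 - 1) := by
  have e : M ^ 2 - 1 = (M - 1) * (M - 1) + (2 : A) • (M - 1) := by
    rw [pow_two, mul_sub, sub_mul, mul_one, one_mul, two_smul]
    abel
  rw [e]
  refine Me_add (fun k l => ?_) (fun k l => ?_)
  · have h1 := Me_mul h h k l
    rw [← pow_add] at h1
    exact Ideal.pow_le_pow_right (by omega) h1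
  · show (2 : A) * (M - 1) k l ∈ _
    rw [pow_succ']
    exact Ideal.mul_mem_mul h2 (h k l)

theorem all (h2 : (2 : A) ∈ maximalIdeal A) {M : Matrix (Fin n) (Fin n) A} {e : ℕ}
    (h : Me (maximalIdeal A) ((M - 1) ^ e)) (k : ℕ) : ∃ a : ℕ, Me (maximalIdeal A ^ (k + 1)) (M ^ 2 ^ a - 1) := by
  induction k with
  | zero =>
    obtain ⟨a, ha⟩ := first h2 h
    exact ⟨a, by rwa [zero_add, pow_one]⟩
  | succ k ih =>
    obtain ⟨a, ha⟩ := ih
    refine ⟨a + 1, ?_⟩
    rw [show M ^ 2 ^ (a + 1) = (M ^ 2 ^ a) ^ 2 by rw [pow_succ, pow_mul]]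
    exact next h2 (by omega) ha

end mat

section top

variable {A : Type} [CommRing A] [IsLocalRing A] [TopologicalSpace A] [IsTopologicalRing A]

theorem ev_mk (hI : IsAdic (maximalIdeal A)) {X : Type} [TopologicalSpace X] {f : X → A} (hf : Continuous f)
    (k : ℕ) (x : X) : ∀ᶠ y in nhds x, f y - f x ∈ maximalIdeal A ^ k := by
  have h1 : IsOpen ((maximalIdeal A ^ k : Ideal A) : Set A) := (isAdic_iff.1 hI).1 k
  have h2 : IsOpen {y | f y - f x ∈ maximalIdeal A ^ k} := h1.preimage (hf.sub continuous_const)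
  exact h2.mem_nhds (by simp)

theorem cont_adic (hI : IsAdic (maximalIdeal A)) {X : Type} [TopologicalSpace X] {f : X → A}
    (h : ∀ k x, ∀ᶠ y in nhds x, f y - f x ∈ maximalIdeal A ^ k) : Continuous f := by
  rw [continuous_iff_continuousAt]
  intro x
  rw [ContinuousAt, (hI.hasBasis_nhds (f x)).tendsto_right_iff]
  intro k _
  filter_upwards [h k x] with y hy
  exact ⟨f y - f x, hy, by ring⟩

end top

variable {s : QB} {A : Type} [CommRing A] [IsLocalRing A] [IsNoetherianRing A] [TopologicalSpace A]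
  [IsTopologicalRing A] {n : ℕ}

/-- the kernel modulo a power -/
noncomputable def Vk (ρ : GK s →* GL (Fin n) A) (k : ℕ) : Subgroup (GK s) :=
  ((Matrix.GeneralLinearGroup.map (n := Fin n) (Ideal.Quotient.mk (maximalIdeal A ^ k))).comp ρ).ker

theorem mem_Vk {ρ : GK s →* GL (Fin n) A} {k : ℕ} {σ : GK s} :
    σ ∈ Vk ρ k ↔ Me (maximalIdeal A ^ k) ((ρ σ : Matrix (Fin n) (Fin n) A) - 1) := by
  rw [Vk, MonoidHom.mem_ker]
  constructor
  · intro h i j
    rw [← Ideal.Quotient.eq_zero_iff_mem]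
    have h1 := congrArg (fun g : GL (Fin n) (A ⧸ maximalIdeal A ^ k) => g.val i j) h
    have h2 : Ideal.Quotient.mk (maximalIdeal A ^ k) ((ρ σ : Matrix (Fin n) (Fin n) A) i j) =
        (1 : Matrix (Fin n) (Fin n) (A ⧸ maximalIdeal A ^ k)) i j := h1
    rw [Matrix.sub_apply, map_sub, h2, sub_eq_zero]
    by_cases hij : i = j
    · subst hij
      simp
    · simp [Matrix.one_apply_ne hij]
  · intro h
    apply Units.ext
    ext i j
    show Ideal.Quotient.mk (maximalIdeal A ^ k) ((ρ σ : Matrix (Fin n) (Fin n) A) i j) =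
        (1 : Matrix (Fin n) (Fin n) (A ⧸ maximalIdeal A ^ k)) i j
    have h1 := h i j
    rw [← Ideal.Quotient.eq_zero_iff_mem, Matrix.sub_apply, map_sub, sub_eq_zero] at h1
    rw [h1]
    by_cases hij : i = j
    · subst hij
      simp
    · simp [Matrix.one_apply_ne hij]

theorem te_Vk (hI : IsAdic (maximalIdeal A)) (h2 : (2 : A) ∈ maximalIdeal A) {ρ : GK s →* GL (Fin n) A}
    (hρ : Rp ρ) (k : ℕ) : TE (Vk ρ k) := by
  refine te_of' ?_ ?_ ?_ ?_
  · have h1 : ((Vk ρ k : Subgroup (GK s)) : Set (GK s)) =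
        ⋂ i, ⋂ j, {σ | ((ρ σ : Matrix (Fin n) (Fin n) A) - 1) i j ∈ maximalIdeal A ^ k} := by
      ext σ
      rw [SetLike.mem_coe, mem_Vk]
      simp only [Set.mem_iInter]
      exact Iff.rfl
    rw [h1]
    refine isOpen_iInter_of_finite fun i => isOpen_iInter_of_finite fun j => ?_
    have h3 : IsOpen ((maximalIdeal A ^ k : Ideal A) : Set A) := (isAdic_iff.1 hI).1 k
    exact h3.preimage ((hρ.cont i j).sub continuous_const)
  · exact MonoidHom.normal_ker _
  · intro g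
    obtain ⟨e, he⟩ := hρ.unipotent g
    obtain ⟨a, ha⟩ := all h2 he k
    refine ⟨a, ?_⟩
    rw [mem_Vk, map_pow, Units.val_pow_eq_pow_val]
    exact fun i j => Ideal.pow_le_pow_right (Nat.le_succ k) (ha i j)
  · intro p _ ι hp σ hσ
    rw [mem_Vk, hρ.unramified p ι hp σ hσ]
    intro i j
    simp

theorem haus (hA : IsAdicComplete (maximalIdeal A) A) {x : A} (h : ∀ k, x ∈ maximalIdeal A ^ k) : x = 0 := by
  refine hA.toIsHausdorff.haus x fun k => ?_
  rw [SModEq.zero, smul_eq_mul, Ideal.mul_top]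
  exact h k

theorem ρ_Nf (hI : IsAdic (maximalIdeal A)) (hA : IsAdicComplete (maximalIdeal A) A)
    (h2 : (2 : A) ∈ maximalIdeal A) {ρ : GK s →* GL (Fin n) A} (hρ : Rp ρ) {σ : GK s} (hσ : σ ∈ Nf s) : ρ σ = 1 := by
  apply Units.ext
  ext i j
  rw [← sub_eq_zero]
  refine haus hA fun k => ?_
  have h1 : σ ∈ Vk ρ k := Pool.Agent.K7.H34.PS.nf_le (te_Vk hI h2 hρ k) hσ
  exact mem_Vk.1 h1 i j

/-- one level -/
theorem level (hF1 : StF1) {d : ℕ} (hs : s ^ 2 = -(d : QB)) (hF : Fld d) (ι₀ : QB →ₐ[ℚ] PadicAlgCl 2)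
    (hI : IsAdic (maximalIdeal A)) (hfin : Finite (ResidueField A)) (h2 : (2 : A) ∈ maximalIdeal A)
    {ρ : GK s →* GL (Fin n) A} (hρ : Rp ρ) {l : DDs (s := s) ι₀ → Fin n → A} (hl : Continuous l)
    (hc : ∀ δ δ', l (δ * δ') = l δ + (ρ (δ : GK s) : Matrix (Fin n) (Fin n) A) *ᵥ l δ') (k : ℕ) :
    ∃ y : GK s → Fin n → A ⧸ maximalIdeal A ^ k, IsLocallyConstant y ∧
      (∀ (δ : DDs (s := s) ι₀), ∀ n ∈ Nf s, ∀ i, y (δ * n) i = Ideal.Quotient.mk _ (l δ i)) := by
  classical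
  have hfq : Finite (A ⧸ maximalIdeal A) := hfin
  have hfk : Finite (A ⧸ maximalIdeal A ^ k) :=
    Ideal.finite_quotient_pow (IsNoetherian.noetherian _) k
  set q : A →+* A ⧸ maximalIdeal A ^ k := Ideal.Quotient.mk _ with hq
  set X : Type := Fin n → A ⧸ maximalIdeal A ^ k with hX
  set M : DDs (s := s) ι₀ → Matrix (Fin n) (Fin n) (A ⧸ maximalIdeal A ^ k) := fun δ =>
    (ρ (δ : GK s) : Matrix (Fin n) (Fin n) A).map q with hM
  have hM1 : M 1 = 1 := by
    rw [hM]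
    beta_reduce
    rw [Subgroup.coe_one, map_one]
    exact Matrix.map_one q (map_zero q) (map_one q)
  have hMm : ∀ δ δ', M (δ * δ') = M δ * M δ' := by
    intro δ δ'
    rw [hM]
    beta_reduce
    rw [Subgroup.coe_mul, map_mul]
    exact Matrix.map_mul
  set b : DDs (s := s) ι₀ → X := fun δ i => q (l δ i) with hb
  have hbm : ∀ δ δ', b (δ * δ') = b δ + M δ *ᵥ b δ' := by
    intro δ δ'
    funext i
    rw [hb]
    beta_reduce
    rw [hc, Pi.add_apply, map_add]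
    congr 1
    simp only [Matrix.mulVec, dotProduct, map_sum, map_mul, hM]
    rfl
  have hb1 : b 1 = 0 := by
    have h1 := hbm 1 1
    rw [mul_one, hM1, Matrix.one_mulVec] at h1
    exact left_eq_add.1 h1
  let F : DDs (s := s) ι₀ →* Function.End X :=
    { toFun := fun δ v => M δ *ᵥ v + b δ
      map_one' := by
        funext v
        show M 1 *ᵥ v + b 1 = v
        rw [hM1, hb1, Matrix.one_mulVec, add_zero]
      map_mul' := fun δ δ' => by
        funext v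
        show M (δ * δ') *ᵥ v + b (δ * δ') = M δ *ᵥ (M δ' *ᵥ v + b δ') + b δ
        rw [hMm, hbm, Matrix.mulVec_add, Matrix.mulVec_mulVec]
        abel }
  set r : DDs (s := s) ι₀ →* Equiv.Perm X := F.toHomPerm with hr
  have hrv : ∀ δ v, r δ v = M δ *ᵥ v + b δ := fun δ v => rfl
  -- two-group
  have hpow : ∀ (δ : DDs (s := s) ι₀), M δ = 1 → ∀ m : ℕ, M (δ ^ m) = 1 ∧ b (δ ^ m) = m • b δ := by
    intro δ hδ m
    induction m with
    | zero => rw [pow_zero, hM1, hb1, zero_smul]; exact ⟨rfl, rfl⟩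
    | succ m ih =>
      rw [pow_succ, hMm, hbm, ih.1, ih.2, hδ, Matrix.one_mulVec, mul_one, succ_nsmul]
      exact ⟨rfl, rfl⟩
  have hP : IsPGroup 2 r.range := by
    rintro ⟨_, δ, rfl⟩
    obtain ⟨e, he⟩ := hρ.unipotent (δ : GK s)
    obtain ⟨a, ha⟩ := all h2 he k
    have h3 : M (δ ^ 2 ^ a) = 1 := by
      ext i j
      have h4 : (δ : GK s) ^ 2 ^ a ∈ Vk ρ k := by
        rw [mem_Vk, map_pow, Units.val_pow_eq_pow_val]
        exact fun i j => Ideal.pow_le_pow_right (Nat.le_succ k) (ha i j)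
      rw [Vk, MonoidHom.mem_ker] at h4
      exact congrArg (fun g : GL (Fin n) (A ⧸ maximalIdeal A ^ k) => g.val i j) h4
    refine ⟨a + k, ?_⟩
    apply Subtype.ext
    show (r δ) ^ 2 ^ (a + k) = 1
    rw [← map_pow, pow_add, pow_mul]
    obtain ⟨h5, h6⟩ := hpow _ h3 (2 ^ k)
    ext v i
    rw [hrv, h5, h6, Matrix.one_mulVec]
    have h7 : (2 ^ k : ℕ) • b (δ ^ 2 ^ a) = 0 := by
      funext i
      have h8 : (((2 : A) ^ k : A) : A) ∈ maximalIdeal A ^ k := Ideal.pow_mem_pow h2 k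
      have h9 : q (2 ^ k) = 0 := Ideal.Quotient.eq_zero_iff_mem.2 h8
      rw [Pi.smul_apply, nsmul_eq_mul, Nat.cast_pow, Nat.cast_ofNat]
      rw [map_pow, map_ofNat] at h9
      rw [h9, zero_mul]
      rfl
    rw [h7, add_zero]
    rfl
  -- continuity
  have hlc : IsLocallyConstant (fun δ => r.rangeRestrict δ) := by
    rw [IsLocallyConstant.iff_eventually_eq]
    intro δ
    have e1 : ∀ᶠ (δ' : DDs (s := s) ι₀) in nhds δ, ∀ i j, (ρ (δ' : GK s) : Matrix (Fin n) (Fin n) A) i j -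
        (ρ (δ : GK s) : Matrix (Fin n) (Fin n) A) i j ∈ maximalIdeal A ^ k := by
      rw [Filter.eventually_all]
      intro i
      rw [Filter.eventually_all]
      intro j
      exact ev_mk hI (f := fun δ : DDs (s := s) ι₀ => (ρ (δ : GK s) : Matrix (Fin n) (Fin n) A) i j)
        ((hρ.cont i j).comp continuous_subtype_val) k δ
    have e2 : ∀ᶠ (δ' : DDs (s := s) ι₀) in nhds δ, ∀ i, l δ' i - l δ i ∈ maximalIdeal A ^ k := by
      rw [Filter.eventually_all]
      intro i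
      exact ev_mk hI (f := fun δ => l δ i) ((continuous_apply i).comp hl) k δ
    filter_upwards [e1, e2] with δ' h1 h3
    apply Subtype.ext
    show r δ' = r δ
    have h4 : M δ' = M δ := by
      ext i j
      exact Ideal.Quotient.eq.2 (h1 i j)
    have h5 : b δ' = b δ := by
      funext i
      exact Ideal.Quotient.eq.2 (h3 i)
    refine Equiv.ext fun v => ?_
    rw [hrv, hrv, h4, h5]
  obtain ⟨R, hR1, hR2, hR3⟩ := hF1 s d hs hF ι₀ r.range hP r.rangeRestrict hlc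
  refine ⟨fun σ => (R σ : Equiv.Perm X) 0, hR1.comp (fun p => (p : Equiv.Perm X) 0), fun δ m hm i => ?_⟩
  beta_reduce
  rw [map_mul, hR2 m hm, mul_one, hR3]
  show r δ 0 i = _
  rw [hrv, Matrix.mulVec_zero, zero_add]

theorem stF2 (hF1 : StF1) (hE0 : StE0) (hE1 : StE1) : StF2 := by
  intro s d hs hF ι₀ A _ _ _ _ _ hI hA hfin h2 n ρ hρ l hl hc
  have hlev := level hF1 hs hF ι₀ hI hfin h2 hρ hl hc
  choose y hy1 hy2 using hlev
  have hρN : ∀ σ ∈ Nf s, ρ σ = 1 := fun σ hσ => ρ_Nf hI hA h2 hρ hσ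
  have hl1 : l 1 = 0 := by
    have h1 := hc 1 1
    rw [mul_one, Subgroup.coe_one, map_one, Units.val_one, Matrix.one_mulVec] at h1
    exact left_eq_add.1 h1
  -- `l` is trivial on `Nf s`
  have hlN : ∀ δ : DDs (s := s) ι₀, (δ : GK s) ∈ Nf s → l δ = 0 := by
    intro δ hδ
    funext i
    refine haus hA fun k => ?_
    rw [← Ideal.Quotient.eq_zero_iff_mem]
    have h1 := hy2 k 1 (δ : GK s) hδ i
    have h3 := hy2 k δ 1 (one_mem _) i
    rw [Subgroup.coe_one, one_mul, hl1] at h1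
    rw [mul_one, h1] at h3
    rw [← h3]
    simp
  have hdens := surjN hE0 hE1 hs hF ι₀
  choose δ hδD hδN using hdens
  set x : GK s → Fin n → A := fun σ => l ⟨δ σ, hδD σ⟩ with hx
  have hxv : ∀ (e : GK s) (he : e ∈ DDs (s := s) ι₀) (u : GK s) (_ : u ∈ Nf s), x (e * u) = l ⟨e, he⟩ := by
    intro e he u hu
    have h1 : (δ (e * u))⁻¹ * e ∈ Nf s := by
      have h2 := mul_mem (hδN (e * u)) (inv_mem hu)
      have h3 : (δ (e * u))⁻¹ * (e * u) * u⁻¹ = (δ (e * u))⁻¹ * e := by group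
      rwa [h3] at h2
    have h1' : (δ (e * u))⁻¹ * e ∈ DDs (s := s) ι₀ := mul_mem (inv_mem (hδD _)) he
    have h3 := hc ⟨δ (e * u), hδD _⟩ ⟨(δ (e * u))⁻¹ * e, h1'⟩
    rw [hlN ⟨(δ (e * u))⁻¹ * e, h1'⟩ h1, Matrix.mulVec_zero, add_zero] at h3
    rw [hx]
    beta_reduce
    rw [← h3]
    congr 1
    apply Subtype.ext
    show δ (e * u) * ((δ (e * u))⁻¹ * e) = e
    group
  have hdec : ∀ σ : GK s, σ = δ σ * ((δ σ)⁻¹ * σ) := fun σ => by group
  have hxσ : ∀ σ, x σ = l ⟨δ σ, hδD σ⟩ := fun σ => rfl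
  have hρσ : ∀ σ, ρ σ = ρ (δ σ) := by
    intro σ
    conv_lhs => rw [hdec σ]
    rw [map_mul, hρN _ (hδN σ), mul_one]
  have hxy : ∀ k σ i, y k σ i = Ideal.Quotient.mk _ (x σ i) := by
    intro k σ i
    conv_lhs => rw [hdec σ]
    exact hy2 k ⟨δ σ, hδD σ⟩ _ (hδN σ) i
  refine ⟨x, ?_, fun σ τ => ?_, fun p _ ι hp σ hσ => ?_, fun e => ?_⟩
  · refine continuous_pi fun i => cont_adic hI fun k σ => ?_
    filter_upwards [(IsLocallyConstant.iff_eventually_eq _).1 (hy1 k) σ] with τ hτ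
    have h1 := congrFun hτ i
    rw [hxy, hxy] at h1
    exact Ideal.Quotient.eq.1 h1
  · have h1 : σ * τ = (δ σ * δ τ) * (((δ τ)⁻¹ * ((δ σ)⁻¹ * σ) * δ τ) * ((δ τ)⁻¹ * τ)) := by group
    have h3 : (δ τ)⁻¹ * ((δ σ)⁻¹ * σ) * δ τ ∈ Nf s := by
      have := (normal_Nf s).conj_mem _ (hδN σ) (δ τ)⁻¹
      rwa [inv_inv] at this
    have h4 := hxv (δ σ * δ τ) (mul_mem (hδD σ) (hδD τ)) _ (mul_mem h3 (hδN τ))
    rw [← h1] at h4
    rw [h4, hρσ σ, hxσ σ, hxσ τ]
    exact hc ⟨δ σ, hδD σ⟩ ⟨δ τ, hδD τ⟩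
  · have h1 := hxv 1 (one_mem _) σ (II_Nf ι hp hσ)
    rw [one_mul] at h1
    rw [h1]
    exact hl1
  · have h1 := hxv e.1 e.2 1 (one_mem _)
    rw [mul_one] at h1
    exact h1

end Pool.Agent.K7.H6.PSF
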