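import Pool.Agent.K7.H6.PS.H1
import Pool.Agent.K7.H34.PS.D3
import Pool.Agent.K7.H34.PS.E0

/-!
# Parity of Selmer groups: job G1
-/

set_option autoImplicit false
set_option linter.unusedSectionVars false

namespace Pool.Agent.K7.H6.PSG

open Pool.Agent.Y715.Gi (QB KK GK)
open Pool.Agent.Z384 (II DD DDs Fld)
open Pool.Agent.H76.PS
open Pool.Agent.K7.H6.PSH

theorem cont_of {X : Type} [TopologicalSpace X] (F : X → ℤ_[2])
    (h : ∀ n, IsLocallyConstant (fun x => PadicInt.toZModPow n (F x))) : Continuous F := by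
  rw [Metric.continuous_iff']
  intro x ε hε
  obtain ⟨n, hn⟩ := exists_pow_lt_of_lt_one hε (by norm_num : (1 / 2 : ℝ) < 1)
  have h1 : IsOpen {y | PadicInt.toZModPow n (F y) = PadicInt.toZModPow n (F x)} :=
    (h n).isOpen_fiber _
  filter_upwards [h1.mem_nhds (show x ∈ {y | PadicInt.toZModPow n (F y) = PadicInt.toZModPow n (F x)} from rfl)]
    with y hy
  have hy : PadicInt.toZModPow n (F y) = PadicInt.toZModPow n (F x) := hy
  rw [dist_eq_norm]
  have h2 : F y - F x ∈ RingHom.ker (PadicInt.toZModPow (p := 2) n) := by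
    rw [RingHom.mem_ker, map_sub, hy, sub_self]
  rw [PadicInt.ker_toZModPow] at h2
  have h3 := (PadicInt.norm_le_pow_iff_mem_span_pow (F y - F x) n).2 h2
  refine lt_of_le_of_lt h3 ?_
  rw [zpow_neg, zpow_natCast]
  have e : (((2 : ℕ) : ℝ) ^ n)⁻¹ = (1 / 2) ^ n := by
    rw [one_div, inv_pow]
    norm_num
  rw [e]
  exact hn

theorem exists_prim (m : ℕ) : ∃ ζ : QB, IsPrimitiveRoot ζ (2 ^ m) :=
  HasEnoughRootsOfUnity.exists_primitiveRoot QB (2 ^ m)

theorem prim_inj {m : ℕ} {ζ : QB} (h : IsPrimitiveRoot ζ (2 ^ m)) {a b : ZMod (2 ^ m)}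
    (e : ζ ^ a.val = ζ ^ b.val) : a = b :=
  ZMod.val_injective _ (h.pow_inj (ZMod.val_lt a) (ZMod.val_lt b) e)

theorem prim_nat {m : ℕ} {ζ : QB} (h : ζ ^ 2 ^ m = 1) (n : ℕ) : ζ ^ ((n : ZMod (2 ^ m))).val = ζ ^ n := by
  rw [ZMod.val_natCast]
  exact (pow_eq_pow_mod n h).symm

variable {s : QB} {χ : GK s → ℤ_[2]}

theorem one_of (h : IsCyc χ) {σ : GK s} {m : ℕ} {ζ : QB} (hζ : IsPrimitiveRoot ζ (2 ^ m)) :
    σ ζ = ζ ↔ PadicInt.toZModPow m (χ σ) = 1 := by
  have h1 := h σ m ζ hζ.pow_eq_one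
  have e : ζ ^ ((1 : ZMod (2 ^ m))).val = ζ := by
    have := prim_nat hζ.pow_eq_one 1
    rwa [Nat.cast_one, pow_one] at this
  constructor
  · intro h2
    apply prim_inj hζ
    rw [← h1, h2, e]
  · intro h2
    rw [h1, h2, e]

theorem isChar (h : IsCyc χ) : IsChar χ where
  cont := by
    refine cont_of χ fun n => ?_
    obtain ⟨ζ, hζ⟩ := exists_prim n
    rw [IsLocallyConstant.iff_exists_open]
    intro σ
    obtain ⟨U, hU, h1, h2⟩ := (IsLocallyConstant.iff_exists_open _).1 (lc_apply (s := s) ζ) σ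
    refine ⟨U, hU, h1, fun τ hτ => prim_inj hζ ?_⟩
    rw [← h τ n ζ hζ.pow_eq_one, ← h σ n ζ hζ.pow_eq_one]
    exact h2 τ hτ
  one := by
    refine PadicInt.ext_of_toZModPow.1 fun n => ?_
    obtain ⟨ζ, hζ⟩ := exists_prim n
    rw [map_one]
    exact (one_of h hζ).1 rfl
  mul := by
    intro σ τ
    refine PadicInt.ext_of_toZModPow.1 fun n => ?_
    obtain ⟨ζ, hζ⟩ := exists_prim n
    rw [map_mul]
    apply prim_inj hζ
    rw [← h (σ * τ) n ζ hζ.pow_eq_one, AlgEquiv.mul_apply, h τ n ζ hζ.pow_eq_one, map_pow,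
      h σ n ζ hζ.pow_eq_one, ← pow_mul]
    have e := prim_nat hζ.pow_eq_one ((PadicInt.toZModPow n (χ σ)).val * (PadicInt.toZModPow n (χ τ)).val)
    rw [Nat.cast_mul, ZMod.natCast_zmod_val, ZMod.natCast_zmod_val] at e
    exact e.symm

theorem te_cyc (h : IsCyc χ) {m : ℕ} {ζ : QB} (hζ : IsPrimitiveRoot ζ (2 ^ m)) : TE (st ζ : Subgroup (GK s)) := by
  have hc := isChar h
  refine Pool.Agent.K7.H34.PS.te_of (a := m) (st_open ζ) ?_ ?_ ?_
  · refine ⟨fun n hn g => ?_⟩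
    rw [mem_st, one_of h hζ] at hn ⊢
    rw [hc.mul, hc.mul, map_mul, map_mul, hn, mul_one, ← map_mul, ← hc.mul, mul_inv_cancel, hc.one, map_one]
  · intro g
    rw [mem_st, one_of h hζ]
    have hp : ∀ k : ℕ, χ (g ^ k) = χ g ^ k := by
      intro k
      induction k with
      | zero => rw [pow_zero, pow_zero, hc.one]
      | succ k ih => rw [pow_succ, hc.mul, ih, pow_succ]
    have hu : IsUnit (PadicInt.toZModPow m (χ g)) := by
      refine IsUnit.of_mul_eq_one (PadicInt.toZModPow m (χ g⁻¹)) ?_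
      rw [← map_mul, ← hc.mul, mul_inv_cancel, hc.one, map_one]
    obtain ⟨u, hu⟩ := hu
    rw [hp, map_pow, ← hu, ← Units.val_pow_eq_pow_val]
    have h1 : u ^ 2 ^ m = 1 := by
      have h2 := ZMod.pow_totient u
      have h3 : (2 ^ m).totient ∣ 2 ^ m := by
        rcases m with _ | m
        · simp
        · rw [Nat.totient_prime_pow_succ Nat.prime_two]
          exact ⟨2, by ring⟩
      obtain ⟨k, hk⟩ := h3
      have h4 : ∀ N, N = (2 ^ m).totient * k → u ^ N = 1 := by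
        rintro N rfl
        rw [pow_mul, h2, one_pow]
      exact h4 _ hk
    rw [h1, Units.val_one]
  · intro p _ ι hp σ hσ
    rw [mem_st]
    refine Pool.Agent.K7.H34.PS.stD3 s p ι hp σ hσ ζ m ?_ ?_
    · rw [hζ.pow_eq_one]
      exact ⟨one_ne_zero, 0, by simpa using isIntegral_one, by simpa using isIntegral_one⟩
    · rw [hζ.pow_eq_one, map_one]

theorem stG1 : StG1 := by
  intro s χ h
  have hc := isChar h
  refine ⟨hc, fun σ τ hτ => ?_⟩
  have h1 : χ τ = 1 := by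
    refine PadicInt.ext_of_toZModPow.1 fun n => ?_
    obtain ⟨ζ, hζ⟩ := exists_prim n
    rw [map_one]
    refine (one_of h hζ).1 ?_
    exact (Subgroup.mem_sInf.1 hτ) _ (te_cyc h hζ)
  rw [hc.mul, h1, mul_one]

end Pool.Agent.K7.H6.PSG
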