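import Pool.Agent.K7.H6.PS.H3

/-!
# Parity of Selmer groups: job H
-/

set_option autoImplicit false
set_option linter.unusedSectionVars false

namespace Pool.Agent.K7.H6.PSH

open Pool.Agent.Y715.Gi (QB KK GK)
open Pool.Agent.Z384 (II DD DDs Fld)
open Pool.Agent.H76.PS

section units

theorem tu_one : TwoUnit 1 := ⟨one_ne_zero, 0, by simpa using isIntegral_one, by simpa using isIntegral_one⟩

theorem int_two : IsIntegral ℤ (2 : QB) := by
  have := isIntegral_algebraMap (R := ℤ) (A := QB) (x := 2)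
  simpa using this

theorem tu_two : TwoUnit 2 := by
  refine ⟨two_ne_zero, 1, ?_, ?_⟩
  · rw [pow_one]
    exact int_two.mul int_two
  · rw [pow_one, mul_inv_cancel₀ two_ne_zero]
    exact isIntegral_one

variable {ζ : QB} (hζ : ζ ^ 8 = -1)

include hζ

theorem int_ζ : IsIntegral ℤ ζ := by
  refine IsIntegral.of_pow (n := 8) (by norm_num) ?_
  rw [hζ]
  exact isIntegral_one.neg

theorem int_aa : IsIntegral ℤ (aa ζ) := (int_ζ hζ).sub ((int_ζ hζ).pow 7)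
theorem int_bb : IsIntegral ℤ (bb ζ) := ((int_ζ hζ).pow 3).sub ((int_ζ hζ).pow 5)

theorem Dx_ne : Dx (aa ζ) (bb ζ) ≠ 0 := by
  have P := prod_eq hζ
  have h1 : (2 + aa ζ) * (2 + bb ζ) * (2 - aa ζ) * (2 - bb ζ) ≠ 0 := by rw [P]; norm_num
  have h2 := left_ne_zero_of_mul h1
  have h3 := left_ne_zero_of_mul h2
  have h4 := right_ne_zero_of_mul h1
  have h5 := right_ne_zero_of_mul h2
  have h6 := right_ne_zero_of_mul h3
  exact mul_ne_zero (mul_ne_zero h6 (pow_ne_zero _ h5)) (pow_ne_zero _ h4)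

theorem tu_Dx : TwoUnit (Dx (aa ζ) (bb ζ)) := by
  have P := prod_eq hζ
  have i1 := int_two.add (int_aa hζ)
  have i2 := int_two.add (int_bb hζ)
  have i3 := int_two.sub (int_aa hζ)
  have i4 := int_two.sub (int_bb hζ)
  refine ⟨Dx_ne hζ, 3, ?_, ?_⟩
  · exact (int_two.pow 3).mul ((i2.mul (i3.pow 2)).mul (i4.pow 3))
  · have e : (2 : QB) ^ 3 * (Dx (aa ζ) (bb ζ))⁻¹ = (2 + aa ζ) ^ 3 * (2 - aa ζ) * (2 + bb ζ) ^ 2 := by
      rw [mul_inv_eq_iff_eq_mul₀ (Dx_ne hζ)]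
      have h2 : (2 : QB) ^ 3 = ((2 + aa ζ) * (2 + bb ζ) * (2 - aa ζ) * (2 - bb ζ)) ^ 3 := by rw [P]
      rw [h2]
      unfold Dx
      ring
    rw [e]
    exact ((i1.pow 3).mul i3).mul (i2.pow 2)

theorem a_sq : (aa ζ ^ 2 - 2) ^ 2 = 2 := by
  unfold aa
  grind

end units

section conj

variable {c : QB ≃ₐ[ℚ] QB} (hc : IsConj c)

include hc

theorem cc (x : QB) : c (c x) = x := by
  obtain ⟨j, hj⟩ := hc
  apply j.injective
  rw [hj, hj, starRingEnd_self_apply]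

theorem c_ζ {ζ : QB} (hζ : ζ ^ 8 = -1) : c ζ = ζ⁻¹ := by
  obtain ⟨j, hj⟩ := hc
  have h1 : ‖j ζ‖ = 1 := by
    have h2 : ‖j ζ‖ ^ 8 = 1 := by
      rw [← norm_pow, ← map_pow, hζ, map_neg, map_one, norm_neg, norm_one]
    exact (pow_eq_one_iff_of_nonneg (norm_nonneg _) (by norm_num)).1 h2
  apply eq_inv_of_mul_eq_one_left
  apply j.injective
  rw [map_mul, hj, map_one, Complex.conj_mul', h1]
  norm_num

theorem c_aa {ζ : QB} (hζ : ζ ^ 8 = -1) : c (aa ζ) = aa ζ := by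
  have h0 := ζ_ne hζ
  have h1 : c ζ = -ζ ^ 7 := by
    rw [c_ζ hc hζ]
    field_simp
    linear_combination hζ
  unfold aa
  rw [map_sub, map_pow, h1]
  linear_combination (ζ ^ 41 - ζ ^ 33 + ζ ^ 25 - ζ ^ 17 + ζ ^ 9 - ζ) * hζ

theorem c_s {s : QB} {d : ℕ} (hs : s ^ 2 = -(d : QB)) (hd : d ≠ 0) : c s = -s := by
  have h1 : (c s) ^ 2 = s ^ 2 := by rw [← map_pow, hs, map_neg, map_natCast]
  rcases sq_eq_sq_iff_eq_or_eq_neg.1 h1 with h | h
  · exfalso
    obtain ⟨j, hj⟩ := hc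
    have h2 := hj s
    rw [h] at h2
    obtain ⟨t, ht⟩ := Complex.conj_eq_iff_real.1 h2.symm
    have h3 : (j s) ^ 2 = -(d : ℂ) := by rw [← map_pow, hs, map_neg, map_natCast]
    rw [ht] at h3
    have h4 : t ^ 2 = -(d : ℝ) := by exact_mod_cast h3
    have h5 : (0 : ℝ) < d := by exact_mod_cast Nat.pos_of_ne_zero hd
    nlinarith [sq_nonneg t]
  · exact h

end conj

/-- an integral rational number is an integer -/
theorem int_of_rat {q : ℚ} (h : IsIntegral ℤ (q : QB)) : ∃ n : ℤ, q = n := by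
  have h1 : IsIntegral ℤ q := by
    have h2 : (q : QB) = algebraMap ℚ QB q := (eq_ratCast _ q).symm
    rw [h2] at h
    exact (isIntegral_algebraMap_iff (algebraMap ℚ QB).injective).1 h
  obtain ⟨n, hn⟩ := IsIntegrallyClosed.isIntegral_iff.1 h1
  exact ⟨n, by rw [← hn]; simp⟩

/-- the norm of a `2`-unit is a power of two -/
theorem norm_pow2 {c : QB ≃ₐ[ℚ] QB} (hc : IsConj c) {s : QB} {d : ℕ} (hs : s ^ 2 = -(d : QB)) (hd : d ≠ 0)
    {b : QB} (hb : b ∈ KK s) (hu : TwoUnit b) : ∃ m e : ℕ, b * c b * 2 ^ m = 2 ^ e := by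
  obtain ⟨u, v, huv⟩ := Pool.Agent.Z384.KK_ex hs hb
  obtain ⟨hb0, k, h1, h2⟩ := hu
  have hcb : c b = u - v * s := by
    rw [huv, map_add, map_mul, c_s hc hs hd, map_ratCast, map_ratCast]
    ring
  set q : ℚ := u ^ 2 + d * v ^ 2 with hq
  have hB : b * c b = (q : QB) := by
    rw [hcb]
    conv_lhs => rw [huv]
    rw [hq]
    push_cast
    linear_combination (-(v : QB) ^ 2) * hs
  have hcb0 : c b ≠ 0 := by
    intro h
    exact hb0 (by rw [← cc hc b, h, map_zero])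
  have hq0 : q ≠ 0 := by
    intro h
    rw [h, Rat.cast_zero] at hB
    exact mul_ne_zero hb0 hcb0 hB
  have hqpos : 0 < q := lt_of_le_of_ne (by positivity) hq0.symm
  have i1 : IsIntegral ℤ (c (2 ^ k * b)) := h1.map (c.toAlgHom.restrictScalars ℤ)
  have i2 : IsIntegral ℤ (c (2 ^ k * b⁻¹)) := h2.map (c.toAlgHom.restrictScalars ℤ)
  have hc2 : c 2 = 2 := map_ofNat c 2
  have j1 : IsIntegral ℤ (((4 ^ k * q : ℚ)) : QB) := by
    have e : (((4 ^ k * q : ℚ)) : QB) = (2 ^ k * b) * c (2 ^ k * b) := by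
      rw [map_mul, map_pow, hc2]
      push_cast
      rw [← hB, show (4 : QB) = 2 * 2 by norm_num, mul_pow]
      ring
    rw [e]
    exact h1.mul i1
  have j2 : IsIntegral ℤ (((4 ^ k * q⁻¹ : ℚ)) : QB) := by
    have e : (((4 ^ k * q⁻¹ : ℚ)) : QB) = (2 ^ k * b⁻¹) * c (2 ^ k * b⁻¹) := by
      rw [map_mul, map_pow, hc2, map_inv₀]
      push_cast
      rw [← hB, show (4 : QB) = 2 * 2 by norm_num, mul_pow, mul_inv]
      ring
    rw [e]
    exact h2.mul i2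
  obtain ⟨n, hn⟩ := int_of_rat j1
  obtain ⟨n', hn'⟩ := int_of_rat j2
  have hnn : n * n' = 2 ^ (4 * k) := by
    have h3 : (n : ℚ) * n' = 2 ^ (4 * k) := by
      rw [← hn, ← hn', pow_mul]
      have : (4 : ℚ) ^ k * q * (4 ^ k * q⁻¹) = (4 ^ k * 4 ^ k) * (q * q⁻¹) := by ring
      rw [this, mul_inv_cancel₀ hq0, mul_one, ← mul_pow]
      norm_num
    exact_mod_cast h3
  have hnpos : 0 < n := by
    have : (0 : ℚ) < n := by rw [← hn]; positivity
    exact_mod_cast this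
  have hdvd : n.natAbs ∣ 2 ^ (4 * k) := by
    have h3 := congrArg Int.natAbs hnn
    rw [Int.natAbs_mul, Int.natAbs_pow] at h3
    exact ⟨_, h3.symm⟩
  obtain ⟨e, -, he⟩ := (Nat.dvd_prime_pow Nat.prime_two).1 hdvd
  refine ⟨2 * k, e, ?_⟩
  have h5 : (n : ℤ) = 2 ^ e := by
    have h6 : ((n.natAbs : ℕ) : ℤ) = n := Int.natAbs_of_nonneg hnpos.le
    rw [← h6, he]
    push_cast
    rfl
  have h6 : q * 2 ^ (2 * k) = 2 ^ e := by
    have h7 : (n : ℚ) = 2 ^ e := by rw [h5]; push_cast; rfl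
    rw [← h7, ← hn, pow_mul]
    norm_num
    ring
  rw [hB]
  exact_mod_cast congrArg (fun x : ℚ => (x : QB)) h6

theorem red_zero : ∀ a : Z4, 2 * a = 0 ↔ ZMod.castHom (by norm_num : 2 ∣ 2 ^ 2) (ZMod 2) a = 0 := by decide

theorem z2_eq : ∀ a b : ZMod 2, (a = 0 ↔ b = 0) → a = b := by decide

end Pool.Agent.K7.H6.PSH
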