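import Pool.Agent.K7.H6.PS.G1
import Pool.Agent.K7.H6.PS.H4

/-!
# Parity of Selmer groups: job G2
-/

set_option autoImplicit false
set_option linter.unusedSectionVars false

namespace Pool.Agent.K7.H6.PSG

open Pool.Agent.Y715.Gi (QB KK GK)
open Pool.Agent.Z384 (II DD DDs Fld)
open Pool.Agent.H76.PS
open Pool.Agent.K7.H6.PSH

/-- an element of `ℤ_2` with given residues -/
theorem exists_lim (k : ℕ → ℤ) (h : ∀ n, (2 : ℤ) ^ n ∣ k (n + 1) - k n) :
    ∃ z : ℤ_[2], ∀ n, PadicInt.toZModPow n z = (k n : ZMod (2 ^ n)) := by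
  have key : ∀ (n : ℕ) (z : ℤ_[2]), z ∈ Metric.closedBall ((k n : ℤ) : ℤ_[2]) (((2 : ℕ) : ℝ) ^ (-n : ℤ)) ↔
      PadicInt.toZModPow n z = (k n : ZMod (2 ^ n)) := by
    intro n z
    rw [Metric.mem_closedBall, dist_eq_norm, PadicInt.norm_le_pow_iff_mem_span_pow, ← PadicInt.ker_toZModPow,
      RingHom.mem_ker, map_sub, sub_eq_zero, map_intCast]
  have hne := IsCompact.nonempty_iInter_of_sequence_nonempty_isCompact_isClosed
    (fun n => Metric.closedBall ((k n : ℤ) : ℤ_[2]) (((2 : ℕ) : ℝ) ^ (-n : ℤ))) ?_ ?_ ?_ ?_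
  · obtain ⟨z, hz⟩ := hne
    rw [Set.mem_iInter] at hz
    exact ⟨z, fun n => (key n z).1 (hz n)⟩
  · intro n z hz
    rw [key] at hz ⊢
    have h1 := congrArg (ZMod.castHom (pow_dvd_pow 2 (Nat.le_succ n)) (ZMod (2 ^ n))) hz
    rw [map_intCast, ← RingHom.comp_apply, PadicInt.zmod_cast_comp_toZModPow _ _ (Nat.le_succ n)] at h1
    rw [h1, ← sub_eq_zero, ← Int.cast_sub]
    exact (ZMod.intCast_zmod_eq_zero_iff_dvd _ _).2 (by exact_mod_cast h n)
  · intro n
    exact ⟨_, Metric.mem_closedBall_self (by positivity)⟩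
  · exact Metric.isClosed_closedBall.isCompact
  · intro n
    exact Metric.isClosed_closedBall

/-- compatible roots -/
theorem exists_roots (b x : QB) (hx : x ^ 2 = b) : ∃ X : ℕ → QB, X 0 = b ∧ X 1 = x ∧ ∀ n, X (n + 1) ^ 2 = X n := by
  have hsq : ∀ y : QB, ∃ z : QB, z ^ 2 = y := fun y => IsAlgClosed.exists_pow_nat_eq y (by norm_num)
  choose sq hsq using hsq
  refine ⟨fun n => if n = 0 then b else sq^[n - 1] x, by simp, by simp, fun n => ?_⟩
  rcases n with _ | n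
  · simpa using hx
  · simp only [Nat.add_eq_zero_iff, one_ne_zero, and_false, if_false, Nat.add_sub_cancel]
    rw [Function.iterate_succ_apply', hsq]

/-- compatible roots of unity -/
theorem exists_unity : ∃ Z : ℕ → QB, (∀ n, IsPrimitiveRoot (Z n) (2 ^ n)) ∧ ∀ n, Z (n + 1) ^ 2 = Z n := by
  obtain ⟨X, h0, h1, h2⟩ := exists_roots 1 (-1) (by norm_num)
  refine ⟨X, fun n => ?_, h2⟩
  have hp : ∀ n, X (n + 1) ^ 2 ^ n = -1 := by
    intro n
    induction n with
    | zero => rw [pow_zero, pow_one, h1]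
    | succ n ih => rw [pow_succ', pow_mul, h2, ih]
  rcases n with _ | n
  · rw [pow_zero, IsPrimitiveRoot.one_right_iff]
    exact h0
  · have h := orderOf_eq_prime_pow (p := 2) (n := n) (x := X (n + 1)) (by
      rw [hp]
      norm_num) (by rw [pow_succ, pow_mul, hp]; norm_num)
    have h3 := IsPrimitiveRoot.orderOf (X (n + 1))
    rwa [h] at h3

theorem stG2 (hE : StE) (hE0 : StE0) (hD3 : StD3) (hG1 : StG1) : StG2 := by
  intro s d hs hF χ hχ χ' hχ' φ hφ
  obtain ⟨hC, hCN⟩ := hG1 s χ hχ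
  have hfix := fix_Nf hD3 hE0 hs hF
  obtain ⟨b, x, hb, htu, hx, hφx⟩ := (hE s d hs hF).2.2 φ hφ
  obtain ⟨X, hX0, hX1, hX2⟩ := exists_roots b x hx
  obtain ⟨Z, hZ, hZ2⟩ := exists_unity
  have hfb : ∀ σ : GK s, σ b = b := fun σ => Pool.Agent.Z384.fixK σ hb
  have hXp : ∀ n, X n ^ 2 ^ n = b := by
    intro n
    induction n with
    | zero => rw [pow_zero, pow_one, hX0]
    | succ n ih => rw [pow_succ', pow_mul, hX2, ih]
  have hXne : ∀ n, X n ≠ 0 := by
    intro n h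
    apply htu.1
    rw [← hXp n, h]
    exact zero_pow (pow_ne_zero _ two_ne_zero)
  have hXN : ∀ n, ∀ m ∈ Nf s, m (X n) = X n := by
    intro n
    apply hfix n (X n)
    · rw [hXp]; exact htu
    · intro m _
      rw [hXp, hfb]
  -- the exponents
  have hex : ∀ (n : ℕ) (σ : GK s), ∃ a : ZMod (2 ^ n), σ (X n) = X n * Z n ^ a.val := by
    intro n σ
    have h1 : (σ (X n) / X n) ^ 2 ^ n = 1 := by
      rw [div_pow, ← map_pow, hXp, hfb, div_self htu.1]
    obtain ⟨i, -, hi⟩ := (hZ n).eq_pow_of_pow_eq_one h1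
    refine ⟨(i : ZMod (2 ^ n)), ?_⟩
    rw [prim_nat (hZ n).pow_eq_one, hi]
    have := hXne n
    field_simp
  choose K hK using hex
  have Kinj : ∀ (n : ℕ) (a a' : ZMod (2 ^ n)), X n * Z n ^ a.val = X n * Z n ^ a'.val → a = a' := by
    intro n a a' h
    exact prim_inj (hZ n) (mul_left_cancel₀ (hXne n) h)
  have hcast : ∀ (n : ℕ) (σ : GK s), ZMod.castHom (pow_dvd_pow 2 (Nat.le_succ n)) (ZMod (2 ^ n)) (K (n + 1) σ) =
      K n σ := by
    intro n σ
    apply Kinj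
    rw [← hK n σ]
    have h1 := congrArg (· ^ 2) (hK (n + 1) σ)
    beta_reduce at h1
    have h4 : ∀ k : ℕ, (Z (n + 1) ^ k) ^ 2 = Z n ^ k := fun k => by rw [← pow_mul, mul_comm, pow_mul, hZ2]
    rw [← map_pow, hX2, mul_pow, hX2, h4] at h1
    rw [h1]
    congr 1
    have h2 := prim_nat (hZ n).pow_eq_one (K (n + 1) σ).val
    rw [← h2]
    congr 2
    conv_lhs => rw [← ZMod.natCast_zmod_val (K (n + 1) σ)]
    rw [map_natCast]
  have hlim : ∀ σ : GK s, ∃ z : ℤ_[2], ∀ n, PadicInt.toZModPow n z = K n σ := by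
    intro σ
    obtain ⟨z, hz⟩ := exists_lim (fun n => ((K n σ).val : ℤ)) (fun n => by
      have h1 := hcast n σ
      have h3 : (((K (n + 1) σ).val : ℤ) : ZMod (2 ^ n)) = (((K n σ).val : ℤ) : ZMod (2 ^ n)) := by
        rw [Int.cast_natCast, Int.cast_natCast, ZMod.natCast_zmod_val, ← h1]
        conv_rhs => rw [← ZMod.natCast_zmod_val (K (n + 1) σ)]
        rw [map_natCast]
      rw [← sub_eq_zero, ← Int.cast_sub] at h3
      exact_mod_cast (ZMod.intCast_zmod_eq_zero_iff_dvd _ _).1 h3)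
    refine ⟨z, fun n => ?_⟩
    rw [hz n, Int.cast_natCast, ZMod.natCast_zmod_val]
  choose κ hκ using hlim
  have κN : ∀ σ, ∀ n ∈ Nf s, κ (σ * n) = κ σ := by
    intro σ m hm
    refine PadicInt.ext_of_toZModPow.1 fun n => ?_
    rw [hκ, hκ]
    apply Kinj
    rw [← hK, ← hK, AlgEquiv.mul_apply, hXN n m hm]
  have κc : Continuous κ := by
    refine cont_of κ fun n => ?_
    rw [IsLocallyConstant.iff_exists_open]
    intro σ
    obtain ⟨U, hU, h1, h2⟩ := (IsLocallyConstant.iff_exists_open _).1 (lc_apply (s := s) (X n)) σ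
    refine ⟨U, hU, h1, fun τ hτ => ?_⟩
    rw [hκ, hκ]
    apply Kinj
    rw [← hK, ← hK]
    exact h2 τ hτ
  have κm : ∀ σ τ, κ (σ * τ) = κ σ + χ σ * κ τ := by
    intro σ τ
    refine PadicInt.ext_of_toZModPow.1 fun n => ?_
    rw [map_add, map_mul, hκ, hκ, hκ]
    apply Kinj
    rw [← hK, AlgEquiv.mul_apply, hK n τ, map_mul, map_pow, hK n σ, hχ σ n (Z n) (hZ n).pow_eq_one, ← pow_mul, mul_assoc,
      ← pow_add]
    have e := prim_nat (hZ n).pow_eq_one ((K n σ).val + (PadicInt.toZModPow n (χ σ)).val * (K n τ).val)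
    rw [Nat.cast_add, Nat.cast_mul, ZMod.natCast_zmod_val, ZMod.natCast_zmod_val, ZMod.natCast_zmod_val] at e
    rw [← e]
  refine ⟨fun g => Quotient.liftOn' g κ fun a b hab => ?_, ?_, fun g g' => ?_, fun g => ?_⟩
  · have h1 := QuotientGroup.leftRel_apply.1 hab
    have h2 := κN a _ h1
    rw [mul_inv_cancel_left] at h2
    exact h2.symm
  · rw [(QuotientGroup.isQuotientMap_mk (N := Nf s)).continuous_iff]
    exact κc
  · obtain ⟨σ, rfl⟩ := QuotientGroup.mk_surjective g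
    obtain ⟨τ, rfl⟩ := QuotientGroup.mk_surjective g'
    rw [hχ']
    exact κm σ τ
  · obtain ⟨σ, rfl⟩ := QuotientGroup.mk_surjective g
    refine z2_eq _ _ ?_
    rw [hφx, ← hX1]
    show PadicInt.toZMod (κ σ) = 0 ↔ _
    have e1 : PadicInt.toZMod (κ σ) = 0 ↔ PadicInt.toZModPow 1 (κ σ) = 0 := by
      rw [← RingHom.mem_ker, ← RingHom.mem_ker, PadicInt.ker_toZMod, PadicInt.ker_toZModPow,
        PadicInt.maximalIdeal_eq_span_p, pow_one]
    rw [e1, hκ, hK 1 σ]
    constructor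
    · intro h
      rw [h, ZMod.val_zero, pow_zero, mul_one]
    · intro h
      apply Kinj
      rw [h, ZMod.val_zero, pow_zero, mul_one]

end Pool.Agent.K7.H6.PSG
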