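import Pool.Agent.H76.PS.Defs2
import Pool.Agent.K7.H6.PS.A4

/-!
# Parity of Selmer groups: general lemmas for job H
-/

set_option autoImplicit false
set_option linter.unusedSectionVars false

namespace Pool.Agent.K7.H6.PSH

open Pool.Agent.Y715.Gi (QB KK GK)
open Pool.Agent.Z384 (II DD DDs Fld)
open Pool.Agent.H76.PS

variable {s : QB}

/-- the orbit maps are locally constant -/
theorem lc_apply (x : QB) : IsLocallyConstant (fun σ : GK s => σ x) := by
  rw [IsLocallyConstant.iff_exists_open]
  intro σ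
  have hint : IsIntegral (KK s) x := (Algebra.IsAlgebraic.isAlgebraic x).isIntegral
  have hfd : FiniteDimensional (KK s) (IntermediateField.adjoin (KK s) {x}) :=
    IntermediateField.adjoin.finiteDimensional hint
  have hop : IsOpen ((IntermediateField.adjoin (KK s) {x}).fixingSubgroup : Set (GK s)) :=
    IntermediateField.fixingSubgroup_isOpen _
  refine ⟨(fun τ => σ⁻¹ * τ) ⁻¹' ((IntermediateField.adjoin (KK s) {x}).fixingSubgroup : Set (GK s)),
    hop.preimage (continuous_const_mul _), ?_, fun τ hτ => ?_⟩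
  · show σ⁻¹ * σ ∈ (IntermediateField.adjoin (KK s) {x}).fixingSubgroup
    rw [inv_mul_cancel]
    exact one_mem _
  · have h1 : (σ⁻¹ * τ) x = x := by
      have h2 : σ⁻¹ * τ ∈ (IntermediateField.adjoin (KK s) {x}).fixingSubgroup := hτ
      rw [IntermediateField.mem_fixingSubgroup_iff] at h2
      exact h2 x (IntermediateField.mem_adjoin_simple_self _ x)
    have h2 : σ ((σ⁻¹ * τ) x) = τ x := by
      rw [← AlgEquiv.mul_apply, mul_inv_cancel_left]
    rw [← h2, h1]

/-- the stabiliser of an element -/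
def st (x : QB) : Subgroup (GK s) where
  carrier := {σ | σ x = x}
  mul_mem' := by
    intro a b ha hb
    show (a * b) x = x
    rw [AlgEquiv.mul_apply, show b x = x from hb, show a x = x from ha]
  one_mem' := rfl
  inv_mem' := by
    intro a ha
    show a⁻¹ x = x
    have h1 : a⁻¹ (a x) = x := by rw [← AlgEquiv.mul_apply, inv_mul_cancel]; rfl
    rwa [show a x = x from ha] at h1

theorem mem_st {x : QB} {σ : GK s} : σ ∈ (st x : Subgroup (GK s)) ↔ σ x = x := Iff.rfl

theorem st_open (x : QB) : IsOpen ((st x : Subgroup (GK s)) : Set (GK s)) := lc_apply x {x}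

/-- Kummer characters of a stabiliser -/
theorem kum_HS {U : Subgroup (GK s)} {x : QB} (hU : ∀ σ ∈ U, σ (x ^ 2) = x ^ 2) [DecidableEq QB] :
    (fun σ : U => if (σ : GK s) x = x then (0 : ZMod 2) else 1) ∈ HS U := by
  have hpm : ∀ σ ∈ U, σ x = x ∨ σ x = -x := by
    intro σ hσ
    have h1 := hU σ hσ
    rw [map_pow] at h1
    exact sq_eq_sq_iff_eq_or_eq_neg.1 h1
  refine ⟨?_, fun σ τ => ?_⟩
  · exact ((lc_apply (s := s) x).comp (fun y : QB => if y = x then (0 : ZMod 2) else 1)).comp_continuous
      continuous_subtype_val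
  · by_cases hx : x = 0
    · subst hx
      simp
    have hne : -x ≠ x := by
      intro h
      apply hx
      have h2 : (2 : QB) * x = 0 := by linear_combination -h
      simpa using h2
    have hm : ((σ * τ : U) : GK s) x = (σ : GK s) ((τ : GK s) x) := rfl
    beta_reduce
    rw [hm]
    rcases hpm σ.1 σ.2 with h1 | h1 <;> rcases hpm τ.1 τ.2 with h2 | h2
    · simp [h1, h2]
    · simp [h1, h2, map_neg]
    · simp [h1, h2, map_neg]
    · simp only [h2, map_neg, h1, neg_neg]
      simp only [if_true, hne, if_false]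
      decide

/-- the roots of `2`-units are fixed by `Nf s` -/
theorem fix_Nf (hD3 : StD3) (hE0 : StE0) {d : ℕ} (hs : s ^ 2 = -(d : QB)) (hF : Fld d) (k : ℕ) :
    ∀ x : QB, TwoUnit (x ^ 2 ^ k) → (∀ n ∈ Nf s, n (x ^ 2 ^ k) = x ^ 2 ^ k) → ∀ n ∈ Nf s, n x = x := by
  classical
  induction k with
  | zero =>
    intro x _ h n hn
    have := h n hn
    rwa [pow_zero, pow_one] at this
  | succ k ih =>
    intro x hT h n hn
    have e1 : (x ^ 2) ^ 2 ^ k = x ^ 2 ^ (k + 1) := by rw [← pow_mul, pow_succ']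
    have h2 : ∀ n ∈ Nf s, n (x ^ 2) = x ^ 2 := by
      apply ih (x ^ 2)
      · rw [e1]; exact hT
      · rw [e1]; exact h
    have h4 := (hE0 s d hs hF).2.2.2.1 (st (x ^ 2)) (st_open _) (fun n hn => h2 n hn)
      _ (kum_HS (U := st (x ^ 2)) (x := x) (fun σ hσ => hσ)) (by
        intro p _ ι hp σ hσ
        have h5 : (σ : GK s) x = x := by
          refine hD3 s p ι hp σ.1 hσ x (k + 1) hT ?_
          rw [← e1, map_pow, show (σ : GK s) (x ^ 2) = x ^ 2 from σ.2]
        beta_reduce
        rw [if_pos h5]) ⟨n, h2 n hn⟩ hn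
    by_contra hc
    beta_reduce at h4
    rw [if_neg hc] at h4
    exact one_ne_zero h4

/-- locally constant functions invariant under `Nf s` descend -/
theorem descend {X : Type} (F : GK s → X) (hF : IsLocallyConstant F)
    (hn : ∀ σ, ∀ n ∈ Nf s, F (σ * n) = F σ) :
    ∃ F' : Gs s → X, IsLocallyConstant F' ∧ ∀ σ : GK s, F' (QuotientGroup.mk σ) = F σ := by
  refine ⟨fun g => Quotient.liftOn' g F fun a b hab => ?_, fun S => ?_, fun σ => rfl⟩
  · have h1 := QuotientGroup.leftRel_apply.1 hab
    have h2 := hn a _ h1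
    rw [mul_inv_cancel_left] at h2
    exact h2.symm
  · show IsOpen _
    rw [← (QuotientGroup.isQuotientMap_mk (N := Nf s)).isOpen_preimage]
    exact hF S

end Pool.Agent.K7.H6.PSH
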