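import Pool.Agent.K7.H6.PS.H1

/-!
# Parity of Selmer groups: the sixteenth roots of unity
-/

set_option autoImplicit false
set_option linter.unusedSectionVars false

namespace Pool.Agent.K7.H6.PSH

open Pool.Agent.Y715.Gi (QB KK GK)
open Pool.Agent.Z384 (II DD DDs Fld)
open Pool.Agent.H76.PS

abbrev Z4 : Type := ZMod (2 ^ 2)
abbrev Z16 : Type := ZMod (2 ^ 4)

section four

variable {ζ : QB} (hζ : ζ ^ 8 = -1)

/-- the powers of `ζ ^ 4` -/
noncomputable def pw (ζ : QB) (a : Z4) : QB := (ζ ^ 4) ^ a.val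

include hζ

theorem i4 : (ζ ^ 4) ^ 4 = 1 := by
  linear_combination (ζ ^ 8 - 1) * hζ

theorem i16 : ζ ^ 16 = 1 := by
  linear_combination (ζ ^ 8 - 1) * hζ

theorem ζ_ne : ζ ≠ 0 := by
  rintro rfl
  norm_num at hζ

theorem pw_nat (n : ℕ) : pw ζ (n : Z4) = (ζ ^ 4) ^ n := by
  unfold pw
  rw [ZMod.val_natCast]
  exact (pow_eq_pow_mod n (i4 hζ)).symm

theorem pw_add (a b : Z4) : pw ζ (a + b) = pw ζ a * pw ζ b := by
  conv_lhs => rw [← ZMod.natCast_zmod_val a, ← ZMod.natCast_zmod_val b, ← Nat.cast_add]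
  rw [pw_nat hζ, pow_add]
  rfl

theorem pw_zero : pw ζ 0 = 1 := by
  have := pw_nat hζ 0
  simpa using this

theorem pw_ne (a : Z4) : pw ζ a ≠ 0 := pow_ne_zero _ (pow_ne_zero _ (ζ_ne hζ))

theorem z4_cases (c : Z4) : c = 0 ∨ c = 1 ∨ c = 2 ∨ c = 3 := by revert c; decide

theorem pw_one_eq : pw ζ 1 = ζ ^ 4 := by
  have := pw_nat hζ 1
  simpa using this

theorem pw_two_eq : pw ζ 2 = -1 := by
  have h := pw_nat hζ 2
  rw [show ((2 : ℕ) : Z4) = 2 from rfl] at h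
  rw [h]
  linear_combination hζ

theorem pw_three_eq : pw ζ 3 = -ζ ^ 4 := by
  have h := pw_nat hζ 3
  rw [show ((3 : ℕ) : Z4) = 3 from rfl] at h
  rw [h]
  linear_combination ζ ^ 4 * hζ

theorem one_ne_neg : (1 : QB) ≠ -1 := by norm_num

theorem pw_eq_one {c : Z4} (h : pw ζ c = 1) : c = 0 := by
  rcases z4_cases hζ c with rfl | rfl | rfl | rfl
  · rfl
  · exfalso
    rw [pw_one_eq hζ] at h
    apply one_ne_neg hζ
    linear_combination -(ζ ^ 4 + 1) * h + hζ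
  · exfalso
    rw [pw_two_eq hζ] at h
    exact one_ne_neg hζ h.symm
  · exfalso
    rw [pw_three_eq hζ] at h
    apply one_ne_neg hζ
    linear_combination (ζ ^ 4 - 1) * h + hζ

theorem pw_neg (a : Z4) : pw ζ (-a) = (pw ζ a)⁻¹ := by
  have h := pw_add hζ (-a) a
  rw [neg_add_cancel, pw_zero hζ] at h
  exact eq_inv_of_mul_eq_one_left h.symm

theorem pw_inj {a b : Z4} (h : pw ζ a = pw ζ b) : a = b := by
  have h1 := pw_add hζ a (-b)
  rw [pw_neg hζ, h, mul_inv_cancel₀ (pw_ne hζ b)] at h1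
  have h2 := pw_eq_one hζ h1
  exact add_neg_eq_zero.1 h2

theorem exists_pw {z : QB} (hz : z ^ 4 = 1) : ∃ a, z = pw ζ a := by
  have h : (z - 1) * ((z + 1) * ((z - ζ ^ 4) * (z + ζ ^ 4))) = 0 := by
    linear_combination hz - (z ^ 2 - 1) * hζ
  rcases mul_eq_zero.1 h with h | h
  · exact ⟨0, by rw [pw_zero hζ]; linear_combination h⟩
  rcases mul_eq_zero.1 h with h | h
  · exact ⟨2, by rw [pw_two_eq hζ]; linear_combination h⟩
  rcases mul_eq_zero.1 h with h | h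
  · exact ⟨1, by rw [pw_one_eq hζ]; linear_combination h⟩
  · exact ⟨3, by rw [pw_three_eq hζ]; linear_combination h⟩

omit hζ in
open Classical in
/-- the discrete logarithm -/
noncomputable def lg (ζ z : QB) : Z4 := if h : ∃ a, z = pw ζ a then h.choose else 0

theorem pw_lg {z : QB} (hz : z ^ 4 = 1) : pw ζ (lg ζ z) = z := by
  have h := exists_pw hζ hz
  unfold lg
  rw [dif_pos h]
  exact h.choose_spec.symm

theorem pw_pow (a : Z4) (n : ℕ) : (pw ζ a) ^ n = pw ζ (n * a) := by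
  induction n with
  | zero => rw [pow_zero, Nat.cast_zero, zero_mul, pw_zero hζ]
  | succ n ih => rw [pow_succ, ih, Nat.cast_succ, add_mul, one_mul, pw_add hζ]

theorem pw4 (a : Z4) : (pw ζ a) ^ 4 = 1 := by
  rw [pw_pow hζ, show ((4 : ℕ) : Z4) = 0 from rfl, zero_mul, pw_zero hζ]

/-- the action of an automorphism -/
theorem map_pw {s : QB} {σ : GK s} {c : Z4} (h : σ (ζ ^ 4) = (ζ ^ 4) ^ c.val) (a : Z4) :
    σ (pw ζ a) = pw ζ (c * a) := by
  have h1 : σ (pw ζ a) = (pw ζ c) ^ a.val := by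
    unfold pw
    rw [map_pow, h]
  rw [h1, pw_pow hζ, ZMod.natCast_zmod_val, mul_comm]

end four

section sixteen

/-- the logarithm of the sixteenth cyclotomic character, modulo signs -/
def Lg (m : Z16) : Z4 :=
  if m = 1 ∨ m = 15 then 0 else if m = 3 ∨ m = 13 then 1 else if m = 7 ∨ m = 9 then 2 else 3

theorem Lg_mul : ∀ m n : Z16, 8 * m = 8 → 8 * n = 8 → Lg (m * n) = Lg m + Lg n := by decide

theorem odd16 : ∀ m n : Z16, m * n = 1 → 8 * m = 8 := by decide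

variable {ζ : QB} (hζ : ζ ^ 8 = -1)

noncomputable def aa (ζ : QB) : QB := ζ - ζ ^ 7
noncomputable def bb (ζ : QB) : QB := ζ ^ 3 - ζ ^ 5

/-- the rotations of `(a, b)` -/
noncomputable def ra (j : Z4) (a b : QB) : QB := if j = 0 then a else if j = 1 then b else if j = 2 then -a else -b
noncomputable def rb (j : Z4) (a b : QB) : QB := if j = 0 then b else if j = 1 then -a else if j = 2 then -b else a

include hζ in
theorem prod_eq : (2 + aa ζ) * (2 + bb ζ) * (2 - aa ζ) * (2 - bb ζ) = 2 := by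
  unfold aa bb
  grind

include hζ in
theorem act {s : QB} {σ : GK s} {m : Z16} (hm : 8 * m = 8) (h : σ ζ = ζ ^ m.val) :
    σ (aa ζ) = ra (Lg m) (aa ζ) (bb ζ) ∧ σ (bb ζ) = rb (Lg m) (aa ζ) (bb ζ) := by
  have h16 : ζ ^ 16 = 1 := i16 hζ
  have e : ∀ k, ζ ^ k = ζ ^ (k % 16) := fun k => pow_eq_pow_mod k h16
  have hm' : m = 1 ∨ m = 3 ∨ m = 5 ∨ m = 7 ∨ m = 9 ∨ m = 11 ∨ m = 13 ∨ m = 15 := by
    clear h
    revert m
    decide
  have h1 : σ (aa ζ) = ζ ^ m.val - ζ ^ (m.val * 7) := by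
    unfold aa
    rw [map_sub, map_pow, h, pow_mul]
  have h2 : σ (bb ζ) = ζ ^ (m.val * 3) - ζ ^ (m.val * 5) := by
    unfold bb
    rw [map_sub, map_pow, map_pow, h, pow_mul, pow_mul]
  rw [h1, h2]
  rcases hm' with rfl | rfl | rfl | rfl | rfl | rfl | rfl | rfl
  · rw [show Lg 1 = 0 by decide, show (1 : Z16).val = 1 from rfl]
    rw [show ra 0 (aa ζ) (bb ζ) = aa ζ from rfl, show rb 0 (aa ζ) (bb ζ) = bb ζ from rfl]
    norm_num [aa, bb]
  · rw [show Lg 3 = 1 by decide, show (3 : Z16).val = 3 from rfl, e (3 * 7), e (3 * 3), e (3 * 5)]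
    rw [show ra 1 (aa ζ) (bb ζ) = bb ζ from rfl, show rb 1 (aa ζ) (bb ζ) = -aa ζ from rfl]
    norm_num [aa, bb]
    try grind
  · rw [show Lg 5 = 3 by decide, show (5 : Z16).val = 5 from rfl, e (5 * 7), e (5 * 3), e (5 * 5)]
    rw [show ra 3 (aa ζ) (bb ζ) = -bb ζ from rfl, show rb 3 (aa ζ) (bb ζ) = aa ζ from rfl]
    norm_num [aa, bb]
    try grind
  · rw [show Lg 7 = 2 by decide, show (7 : Z16).val = 7 from rfl, e (7 * 7), e (7 * 3), e (7 * 5)]
    rw [show ra 2 (aa ζ) (bb ζ) = -aa ζ from rfl, show rb 2 (aa ζ) (bb ζ) = -bb ζ from rfl]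
    norm_num [aa, bb]
    try grind
  · rw [show Lg 9 = 2 by decide, show (9 : Z16).val = 9 from rfl, e (9 * 7), e (9 * 3), e (9 * 5)]
    rw [show ra 2 (aa ζ) (bb ζ) = -aa ζ from rfl, show rb 2 (aa ζ) (bb ζ) = -bb ζ from rfl]
    norm_num [aa, bb]
    try grind
  · rw [show Lg 11 = 3 by decide, show (11 : Z16).val = 11 from rfl, e (11 * 7), e (11 * 3), e (11 * 5)]
    rw [show ra 3 (aa ζ) (bb ζ) = -bb ζ from rfl, show rb 3 (aa ζ) (bb ζ) = aa ζ from rfl]
    norm_num [aa, bb]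
    try grind
  · rw [show Lg 13 = 1 by decide, show (13 : Z16).val = 13 from rfl, e (13 * 7), e (13 * 3), e (13 * 5)]
    rw [show ra 1 (aa ζ) (bb ζ) = bb ζ from rfl, show rb 1 (aa ζ) (bb ζ) = -aa ζ from rfl]
    norm_num [aa, bb]
    try grind
  · rw [show Lg 15 = 0 by decide, show (15 : Z16).val = 15 from rfl, e (15 * 7), e (15 * 3), e (15 * 5)]
    rw [show ra 0 (aa ζ) (bb ζ) = aa ζ from rfl, show rb 0 (aa ζ) (bb ζ) = bb ζ from rfl]
    norm_num [aa, bb]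
    try grind

end sixteen

end Pool.Agent.K7.H6.PSH
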