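import Pool.Agent.K7.H6.PS.H2

/-!
# Parity of Selmer groups: Kummer cocycles modulo four
-/

set_option autoImplicit false
set_option linter.unusedSectionVars false

namespace Pool.Agent.K7.H6.PSH

open Pool.Agent.Y715.Gi (QB KK GK)
open Pool.Agent.Z384 (II DD DDs Fld)
open Pool.Agent.H76.PS

section theta

noncomputable def Th (j : Z4) (a b : QB) : QB :=
  if j = 0 then 1 else if j = 1 then 2 + a else if j = 2 then (2 + a) * (2 + b) else (2 + a) * (2 + b) * (2 - a)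

noncomputable def Dx (a b : QB) : QB := (2 + b) * (2 - a) ^ 2 * (2 - b) ^ 3

variable {a b r : QB}

theorem Z4c (c : Z4) : c = 0 ∨ c = 1 ∨ c = 2 ∨ c = 3 := by revert c; decide

theorem Th0 : Th 0 a b = 1 := rfl
theorem Th1 : Th 1 a b = 2 + a := rfl
theorem Th2 : Th 2 a b = (2 + a) * (2 + b) := rfl
theorem Th3 : Th 3 a b = (2 + a) * (2 + b) * (2 - a) := rfl
theorem ra0 : ra 0 a b = a := rfl
theorem ra1 : ra 1 a b = b := rfl
theorem ra2 : ra 2 a b = -a := rfl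
theorem ra3 : ra 3 a b = -b := rfl
theorem rb0 : rb 0 a b = b := rfl
theorem rb1 : rb 1 a b = -a := rfl
theorem rb2 : rb 2 a b = -b := rfl
theorem rb3 : rb 3 a b = a := rfl
theorem v0 : (0 : Z4).val = 0 := rfl
theorem v1 : (1 : Z4).val = 1 := rfl
theorem v2 : (2 : Z4).val = 2 := rfl
theorem v3 : (3 : Z4).val = 3 := rfl
theorem s01 : (0 : Z4) + 1 = 1 := rfl
theorem s02 : (0 : Z4) + 2 = 2 := rfl
theorem s03 : (0 : Z4) + 3 = 3 := rfl
theorem s10 : (1 : Z4) + 0 = 1 := rfl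
theorem s11 : (1 : Z4) + 1 = 2 := rfl
theorem s12 : (1 : Z4) + 2 = 3 := rfl
theorem s13 : (1 : Z4) + 3 = 0 := rfl
theorem s20 : (2 : Z4) + 0 = 2 := rfl
theorem s21 : (2 : Z4) + 1 = 3 := rfl
theorem s22 : (2 : Z4) + 2 = 0 := rfl
theorem s23 : (2 : Z4) + 3 = 1 := rfl
theorem s30 : (3 : Z4) + 0 = 3 := rfl
theorem s31 : (3 : Z4) + 1 = 0 := rfl
theorem s32 : (3 : Z4) + 2 = 1 := rfl
theorem s33 : (3 : Z4) + 3 = 2 := rfl
theorem s00 : (0 : Z4) + 0 = 0 := rfl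

theorem Dx_rot (P : (2 + a) * (2 + b) * (2 - a) * (2 - b) = 2) (j : Z4) :
    Dx (ra j a b) (rb j a b) * 2 ^ j.val = Dx a b * (Th j a b) ^ 4 := by
  have h : Dx (ra j a b) (rb j a b) * ((2 + a) * (2 + b) * (2 - a) * (2 - b)) ^ j.val = Dx a b * (Th j a b) ^ 4 := by
    rcases Z4c j with rfl | rfl | rfl | rfl
    · rw [Th0, ra0, rb0, v0]; ring
    · rw [Th1, ra1, rb1, v1]; unfold Dx; ring
    · rw [Th2, ra2, rb2, v2]; unfold Dx; ring
    · rw [Th3, ra3, rb3, v3]; unfold Dx; ring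
  rwa [P] at h

theorem Th_rot (P : (2 + a) * (2 + b) * (2 - a) * (2 - b) = 2) (hr : r ^ 4 = 2) (j j' : Z4) :
    Th j a b * Th j' (ra j a b) (rb j a b) * r ^ (j + j').val = Th (j + j') a b * r ^ (j.val + j'.val) := by
  have h : r ^ 4 = (2 + a) * (2 + b) * (2 - a) * (2 - b) := hr.trans P.symm
  rcases Z4c j with rfl | rfl | rfl | rfl <;> rcases Z4c j' with rfl | rfl | rfl | rfl <;>
    simp only [Th0, Th1, Th2, Th3, ra0, ra1, ra2, ra3, rb0, rb1, rb2, rb3, s00, s01, s02, s03, s10, s11, s12, s13,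
      s20, s21, s22, s23, s30, s31, s32, s33, v0, v1, v2, v3] <;>
    first
    | ring1
    | linear_combination (-1 : QB) * h
    | linear_combination (-1 : QB) * r * h
    | linear_combination (-1 : QB) * (2 + a) * h
    | linear_combination (-1 : QB) * (2 + a) * r * h
    | linear_combination (-1 : QB) * (2 + a) * (2 + b) * r ^ 2 * h

theorem Th_ne (P : (2 + a) * (2 + b) * (2 - a) * (2 - b) = 2) (j : Z4) : Th j a b ≠ 0 := by
  have h1 : (2 + a) * (2 + b) * (2 - a) * (2 - b) ≠ 0 := by rw [P]; norm_num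
  have h2 := left_ne_zero_of_mul h1
  have h3 := left_ne_zero_of_mul h2
  rcases Z4c j with rfl | rfl | rfl | rfl
  · rw [Th0]; exact one_ne_zero
  · rw [Th1]; exact left_ne_zero_of_mul h3
  · rw [Th2]; exact h3
  · rw [Th3]; exact h2

theorem map_Th {s : QB} (σ : GK s) (j : Z4) : σ (Th j a b) = Th j (σ a) (σ b) := by
  have h2 : σ 2 = 2 := map_ofNat σ 2
  rcases Z4c j with rfl | rfl | rfl | rfl <;> simp [Th0, Th1, Th2, Th3, h2]

theorem map_Dx {s : QB} (σ : GK s) : σ (Dx a b) = Dx (σ a) (σ b) := by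
  have h2 : σ 2 = 2 := map_ofNat σ 2
  unfold Dx
  simp [h2]

end theta

section chi

variable {s : QB} {χ : GK s → ℤ_[2]}

noncomputable def c4 (χ : GK s → ℤ_[2]) (σ : GK s) : Z4 := PadicInt.toZModPow 2 (χ σ)
noncomputable def c16 (χ : GK s → ℤ_[2]) (σ : GK s) : Z16 := PadicInt.toZModPow 4 (χ σ)
noncomputable def ll (χ : GK s → ℤ_[2]) (σ : GK s) : Z4 := Lg (c16 χ σ)

theorem c4_mul (hc : IsChar χ) (σ τ : GK s) : c4 χ (σ * τ) = c4 χ σ * c4 χ τ := by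
  unfold c4
  rw [hc.mul, map_mul]

theorem c16_mul (hc : IsChar χ) (σ τ : GK s) : c16 χ (σ * τ) = c16 χ σ * c16 χ τ := by
  unfold c16
  rw [hc.mul, map_mul]

theorem c16_odd (hc : IsChar χ) (σ : GK s) : 8 * c16 χ σ = 8 := by
  refine odd16 _ (c16 χ σ⁻¹) ?_
  rw [← c16_mul hc, mul_inv_cancel]
  unfold c16
  rw [hc.one, map_one]

theorem ll_mul (hc : IsChar χ) (σ τ : GK s) : ll χ (σ * τ) = ll χ σ + ll χ τ := by
  unfold ll
  rw [c16_mul hc, Lg_mul _ _ (c16_odd hc σ) (c16_odd hc τ)]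

variable {ζ : QB} (hζ : ζ ^ 8 = -1)

include hζ in
theorem c16_ζ (h : IsCyc χ) (σ : GK s) : σ ζ = ζ ^ (c16 χ σ).val := h σ 4 ζ (i16 hζ)

include hζ in
theorem c4_ι (h : IsCyc χ) (σ : GK s) : σ (ζ ^ 4) = (ζ ^ 4) ^ (c4 χ σ).val := h σ 2 (ζ ^ 4) (i4 hζ)

theorem lc_of {X Y : Type} {g : GK s → Y} (hg : IsLocallyConstant g) {f : GK s → X}
    (h : ∀ σ τ, g σ = g τ → f σ = f τ) : IsLocallyConstant f := by
  rw [IsLocallyConstant.iff_exists_open]
  intro σ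
  obtain ⟨U, hU, h1, h2⟩ := (IsLocallyConstant.iff_exists_open g).1 hg σ
  exact ⟨U, hU, h1, fun τ hτ => h τ σ (h2 τ hτ)⟩

include hζ in
theorem ζ_prim : IsPrimitiveRoot ζ 16 := by
  have h := orderOf_eq_prime_pow (p := 2) (n := 3) (x := ζ) (by
    rw [show 2 ^ 3 = 8 from rfl, hζ]
    exact fun h => one_ne_neg hζ h.symm) (i16 hζ)
  have h2 := IsPrimitiveRoot.orderOf ζ
  rwa [h] at h2

include hζ in
theorem ζ_inj {m n : Z16} (h : ζ ^ m.val = ζ ^ n.val) : m = n :=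
  ZMod.val_injective _ ((ζ_prim hζ).pow_inj (ZMod.val_lt m) (ZMod.val_lt n) h)

include hζ in
theorem c16_lc (h : IsCyc χ) : IsLocallyConstant (c16 χ) := by
  refine lc_of (lc_apply ζ) fun σ τ e => ζ_inj hζ ?_
  rw [← c16_ζ hζ h, ← c16_ζ hζ h]
  exact e

include hζ in
theorem c4_lc (h : IsCyc χ) : IsLocallyConstant (c4 χ) := by
  refine lc_of (lc_apply (ζ ^ 4)) fun σ τ e => pw_inj hζ ?_
  unfold pw
  rw [← c4_ι hζ h, ← c4_ι hζ h]
  exact e

include hζ in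
theorem ll_lc (h : IsCyc χ) : IsLocallyConstant (ll χ) := (c16_lc hζ h).comp Lg

include hζ in
/-- Kummer cocycles modulo four -/
theorem kum4 (h : IsCyc χ) {y : QB} (hy : y ≠ 0) (h4 : ∀ σ : GK s, (σ y) ^ 4 = y ^ 4)
    (hN : ∀ n ∈ Nf s, n y = y) : ∃ k : GK s → Z4, IsLocallyConstant k ∧ (∀ σ, σ y = y * pw ζ (k σ)) ∧
      (∀ σ, ∀ n ∈ Nf s, k (σ * n) = k σ) ∧ ∀ σ τ, k (σ * τ) = k σ + c4 χ σ * k τ := by
  have key : ∀ σ : GK s, σ y = y * pw ζ (lg ζ (σ y / y)) := by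
    intro σ
    rw [pw_lg hζ (by rw [div_pow, h4, div_self (pow_ne_zero _ hy)])]
    field_simp
  refine ⟨fun σ => lg ζ (σ y / y), (lc_apply y).comp (fun z => lg ζ (z / y)), key, fun σ n hn => ?_,
    fun σ τ => ?_⟩
  · beta_reduce
    rw [show (σ * n) y = σ (n y) from rfl, hN n hn]
  · beta_reduce
    apply pw_inj hζ
    have h1 := key (σ * τ)
    rw [show (σ * τ) y = σ (τ y) from rfl] at h1
    have h2 : σ (τ y) = y * pw ζ (lg ζ (σ y / y)) * pw ζ (c4 χ σ * lg ζ (τ y / y)) := by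
      conv_lhs => rw [key τ]
      rw [map_mul, map_pw hζ (c4_ι hζ h σ), ← key σ]
    rw [show (σ * τ) y = σ (τ y) from rfl, pw_add hζ]
    apply mul_left_cancel₀ hy
    rw [← h1, h2]
    ring

include hζ in
/-- the cochain whose coboundary is the cup product -/
theorem thF (h : IsCyc χ) (hc : IsChar χ) (hcN : ∀ σ, ∀ τ ∈ Nf s, χ (σ * τ) = χ σ) {y r : QB}
    (hy : y ^ 4 = Dx (aa ζ) (bb ζ)) (hr : r ^ 4 = 2) (hN : ∀ n ∈ Nf s, n y = y) {k : GK s → Z4}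
    (hk : ∀ σ, σ r = r * pw ζ (k σ)) :
    ∃ f : GK s → Z4, IsLocallyConstant f ∧ (∀ σ, ∀ n ∈ Nf s, f (σ * n) = f σ) ∧
      ∀ σ τ, k σ * ll χ τ = f σ + c4 χ σ * f τ - f (σ * τ) := by
  have P := prod_eq hζ
  have hr0 : r ≠ 0 := by
    rintro rfl
    norm_num at hr
  have hy0 : y ≠ 0 := by
    rintro rfl
    have h1 : (2 + aa ζ) * (2 + bb ζ) * (2 - aa ζ) * (2 - bb ζ) ≠ 0 := by rw [P]; norm_num
    have h2 := left_ne_zero_of_mul h1
    have h3 := left_ne_zero_of_mul h2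
    have h4 := right_ne_zero_of_mul h1
    have h5 := right_ne_zero_of_mul h2
    have h6 := right_ne_zero_of_mul h3
    have h7 : Dx (aa ζ) (bb ζ) ≠ 0 := mul_ne_zero (mul_ne_zero h6 (pow_ne_zero _ h5)) (pow_ne_zero _ h4)
    apply h7
    rw [← hy]
    norm_num
  have hact : ∀ σ : GK s, σ (aa ζ) = ra (ll χ σ) (aa ζ) (bb ζ) ∧ σ (bb ζ) = rb (ll χ σ) (aa ζ) (bb ζ) :=
    fun σ => act hζ (c16_odd hc σ) (c16_ζ hζ h σ)
  have hT : ∀ j, Th j (aa ζ) (bb ζ) ≠ 0 := Th_ne P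
  set F : GK s → Z4 := fun σ => lg ζ (σ y * r ^ (ll χ σ).val / (y * Th (ll χ σ) (aa ζ) (bb ζ))) with hFdef
  have key : ∀ σ : GK s, σ y * r ^ (ll χ σ).val = y * Th (ll χ σ) (aa ζ) (bb ζ) * pw ζ (F σ) := by
    intro σ
    rw [hFdef]
    beta_reduce
    rw [pw_lg hζ]
    · field_simp [hT]
    · rw [div_pow, mul_pow, mul_pow, ← map_pow, hy, map_Dx, (hact σ).1, (hact σ).2, ← pow_mul, mul_comm (ll χ σ).val,
        pow_mul, hr, Dx_rot P]
      refine div_self (mul_ne_zero ?_ (pow_ne_zero _ (hT _)))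
      rw [← hy]
      exact pow_ne_zero _ hy0
  refine ⟨F, ?_, fun σ n hn => ?_, fun σ τ => ?_⟩
  · exact ((lc_apply y).prodMk (ll_lc hζ h)).comp
      (fun v : QB × Z4 => lg ζ (v.1 * r ^ v.2.val / (y * Th v.2 (aa ζ) (bb ζ))))
  · rw [hFdef]
    beta_reduce
    have h1 : ll χ (σ * n) = ll χ σ := by
      unfold ll c16
      rw [hcN σ n hn]
    rw [show (σ * n) y = σ (n y) from rfl, hN n hn, h1]
  · have e1 := key (σ * τ)
    rw [show (σ * τ) y = σ (τ y) from rfl, ll_mul hc] at e1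
    have e2 := congrArg σ (key τ)
    rw [map_mul, map_mul, map_mul, map_pow, hk, map_Th, (hact σ).1, (hact σ).2, map_pw hζ (c4_ι hζ h σ)] at e2
    have e3 := key σ
    have e4 := Th_rot P hr (ll χ σ) (ll χ τ)
    have e5 : pw ζ (F (σ * τ) + (ll χ τ) * k σ) = pw ζ (F σ + c4 χ σ * F τ) := by
      rw [pw_add hζ, pw_add hζ]
      have e6 : (r * pw ζ (k σ)) ^ (ll χ τ).val = r ^ (ll χ τ).val * pw ζ (ll χ τ * k σ) := by
        rw [mul_pow, pw_pow hζ, ZMod.natCast_zmod_val]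
      rw [e6] at e2
      have e7 : y * Th (ll χ σ + ll χ τ) (aa ζ) (bb ζ) * r ^ ((ll χ σ).val + (ll χ τ).val) ≠ 0 :=
        mul_ne_zero (mul_ne_zero hy0 (hT _)) (pow_ne_zero _ hr0)
      apply mul_left_cancel₀ e7
      rw [pow_add] at e4 ⊢
      linear_combination (-(r ^ (ll χ σ).val * r ^ (ll χ τ).val * pw ζ (ll χ τ * k σ))) * e1 +
        (r ^ (ll χ σ + ll χ τ).val * r ^ (ll χ σ).val) * e2 +
        (r ^ (ll χ σ + ll χ τ).val * Th (ll χ τ) (ra (ll χ σ) (aa ζ) (bb ζ)) (rb (ll χ σ) (aa ζ) (bb ζ)) *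
          pw ζ (c4 χ σ * F τ)) * e3 + (y * pw ζ (F σ) * pw ζ (c4 χ σ * F τ)) * e4
    have e8 := pw_inj hζ e5
    linear_combination e8

end chi

end Pool.Agent.K7.H6.PSH
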