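import Pool.Agent.K7.H6.PS.H4

/-!
# Parity of Selmer groups: job H, conclusion
-/

set_option autoImplicit false
set_option linter.unusedSectionVars false

namespace Pool.Agent.K7.H6.PSH

open Pool.Agent.Y715.Gi (QB KK GK)
open Pool.Agent.Z384 (II DD DDs Fld)
open Pool.Agent.H76.PS

/-- the square root of two is moved -/
theorem ll_ne {s : QB} {d : ℕ} (hs : s ^ 2 = -(d : QB)) (hF : Fld d) {c : QB ≃ₐ[ℚ] QB} (hc : IsConj c)
    {ζ : QB} (hζ : ζ ^ 8 = -1) {χ : GK s → ℤ_[2]} (h : IsCyc χ) (hC : IsChar χ) :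
    ∃ σ : GK s, 2 * ll χ σ ≠ 0 := by
  by_contra hcon
  push Not at hcon
  have hfix : ∀ σ : GK s, σ (aa ζ ^ 2 - 2) = aa ζ ^ 2 - 2 := by
    intro σ
    have h1 := (act hζ (c16_odd hC σ) (c16_ζ hζ h σ)).1
    have h1 : σ (aa ζ) = ra (ll χ σ) (aa ζ) (bb ζ) := h1
    have h2 := hcon σ
    rw [map_sub, map_pow, h1, map_ofNat]
    rcases Z4c (ll χ σ) with e | e | e | e
    · rw [e, ra0]
    · rw [e] at h2; exact absurd h2 (by decide)
    · rw [e, ra2]; ring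
    · rw [e] at h2; exact absurd h2 (by decide)
  have h3 := (InfiniteGalois.mem_bot_iff_fixed (k := KK s) (K := QB) (aa ζ ^ 2 - 2)).2 hfix
  rw [IntermediateField.mem_bot] at h3
  obtain ⟨x, hx⟩ := h3
  have h4 : aa ζ ^ 2 - 2 ∈ KK s := by
    rw [← hx]
    exact x.2
  obtain ⟨u, v, huv⟩ := Pool.Agent.Z384.KK_ex hs h4
  have h5 : c (aa ζ ^ 2 - 2) = aa ζ ^ 2 - 2 := by
    rw [map_sub, map_pow, c_aa hc hζ, map_ofNat]
  have h6 : (v : QB) * s = 0 := by
    have h7 : c (aa ζ ^ 2 - 2) = u - v * s := by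
      rw [huv, map_add, map_mul, c_s hc hs hF.ne_zero, map_ratCast, map_ratCast]
      ring
    rw [h5, huv] at h7
    have h8 : (2 : QB) * (v * s) = 0 := by linear_combination h7
    simpa using h8
  have h7 := a_sq hζ
  rw [huv, h6, add_zero] at h7
  have h8 : u ^ 2 = 2 := by exact_mod_cast h7
  have h9 : Irrational (Real.sqrt 2) := irrational_sqrt_two
  apply h9
  refine ⟨|u|, ?_⟩
  rw [show ((|u| : ℚ) : ℝ) = |(u : ℝ)| by push_cast; rfl]
  rw [← Real.sqrt_sq_eq_abs]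
  congr 1
  exact_mod_cast h8

theorem stH (hE : StE) (hE0 : StE0) (hD3 : StD3) (hG1 : StG1) : StH := by
  intro s d hs hF χ hχ χ' hχ' c hc cj hcj c' hc' hA
  classical
  obtain ⟨hC, hCN⟩ := hG1 s χ hχ
  have hfix := fix_Nf hD3 hE0 hs hF
  -- the elements
  obtain ⟨ζ, hζ⟩ : ∃ ζ : QB, ζ ^ 8 = -1 := IsAlgClosed.exists_pow_nat_eq _ (by norm_num)
  obtain ⟨r, hr⟩ : ∃ r : QB, r ^ 4 = 2 := IsAlgClosed.exists_pow_nat_eq _ (by norm_num)
  obtain ⟨y, hy⟩ : ∃ y : QB, y ^ 4 = Dx (aa ζ) (bb ζ) := IsAlgClosed.exists_pow_nat_eq _ (by norm_num)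
  have hr0 : r ≠ 0 := by
    rintro rfl
    norm_num at hr
  have nζ : ∀ n ∈ Nf s, n ζ = ζ := by
    apply hfix 4 ζ
    · rw [show 2 ^ 4 = 16 from rfl, i16 hζ]; exact tu_one
    · intro n _
      rw [show 2 ^ 4 = 16 from rfl, i16 hζ, map_one]
  have nr : ∀ n ∈ Nf s, n r = r := by
    apply hfix 2 r
    · rw [show 2 ^ 2 = 4 from rfl, hr]; exact tu_two
    · intro n _
      rw [show 2 ^ 2 = 4 from rfl, hr, map_ofNat]
  have ny : ∀ n ∈ Nf s, n y = y := by
    apply hfix 2 y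
    · rw [show 2 ^ 2 = 4 from rfl, hy]; exact tu_Dx hζ
    · intro n hn
      rw [show 2 ^ 2 = 4 from rfl, hy, map_Dx]
      unfold aa bb
      simp only [map_sub, map_pow, nζ n hn]
  -- the functions
  obtain ⟨k2, k2lc, k2a, k2n, k2m⟩ := kum4 hζ hχ hr0 (fun σ => by rw [← map_pow, hr, map_ofNat]) nr
  obtain ⟨f, flc, fn, fm⟩ := thF hζ hχ hC hCN hy hr ny k2a
  have llc := ll_lc hζ hχ
  have lln : ∀ σ, ∀ n ∈ Nf s, ll χ (σ * n) = ll χ σ := by
    intro σ n hn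
    unfold ll c16
    rw [hCN σ n hn]
  obtain ⟨l', l'lc, hl'⟩ := descend (ll χ) llc lln
  obtain ⟨f', f'lc, hf'⟩ := descend f flc fn
  -- the character of the square root of two
  set red := ZMod.castHom (by norm_num : 2 ∣ 2 ^ 2) (ZMod 2) with hred
  have l'm : ∀ x y : Gs s, l' (x * y) = l' x + l' y := by
    intro x y
    obtain ⟨σ, rfl⟩ := QuotientGroup.mk_surjective x
    obtain ⟨τ, rfl⟩ := QuotientGroup.mk_surjective y
    rw [← QuotientGroup.mk_mul, hl', hl', hl', ll_mul hC]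
  have hψ : (fun g => red (l' g)) ∈ HS (Gs s) := by
    refine ⟨l'lc.comp red, fun x y => ?_⟩
    beta_reduce
    rw [l'm, map_add]
  have hψ0 : (fun g => red (l' g)) ≠ 0 := by
    intro h0
    obtain ⟨σ, hσ⟩ := ll_ne hs hF hc hζ hχ hC
    apply hσ
    rw [red_zero]
    have h1 := congrFun h0 (QuotientGroup.mk σ)
    beta_reduce at h1
    rw [hl'] at h1
    exact h1
  obtain ⟨b, hb, hcup⟩ := hA _ hψ hψ0
  obtain ⟨b0, x0, hb0, htu, hx0, hbx⟩ := (hE s d hs hF).2.2 b hb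
  obtain ⟨y0, hy0⟩ : ∃ y0 : QB, y0 ^ 2 = x0 := IsAlgClosed.exists_pow_nat_eq _ (by norm_num)
  have hy04 : y0 ^ 4 = b0 := by rw [← hx0, ← hy0]; ring
  have hfb : ∀ σ : GK s, σ b0 = b0 := fun σ => Pool.Agent.Z384.fixK σ hb0
  have hy00 : y0 ≠ 0 := by
    rintro rfl
    apply htu.1
    rw [← hy04]
    norm_num
  have ny0 : ∀ n ∈ Nf s, n y0 = y0 := by
    apply hfix 2 y0
    · rw [show 2 ^ 2 = 4 from rfl, hy04]; exact htu
    · intro n _
      rw [show 2 ^ 2 = 4 from rfl, hy04, hfb]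
  obtain ⟨k, klc, ka, kn, km⟩ := kum4 hζ hχ hy00 (fun σ => by rw [← map_pow, hy04, hfb]) ny0
  obtain ⟨k', k'lc, hk'⟩ := descend k klc kn
  have hx00 : x0 ≠ 0 := by rw [← hy0]; exact pow_ne_zero _ hy00
  -- `k` modulo two is `b`
  have hkb : (fun g => red (k' g)) = b := by
    funext x
    obtain ⟨σ, rfl⟩ := QuotientGroup.mk_surjective x
    refine z2_eq _ _ ?_
    rw [hk', hbx, ← red_zero]
    have h1 : σ x0 = x0 * pw ζ (2 * k σ) := by
      rw [← hy0, map_pow, ka, mul_pow, pw_pow hζ]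
      rfl
    constructor
    · intro h2
      rw [h1, h2, pw_zero hζ, mul_one]
    · intro h2
      rw [h2] at h1
      have h3 : pw ζ (2 * k σ) = 1 := by
        apply mul_left_cancel₀ hx00
        rw [← h1, mul_one]
      exact pw_eq_one hζ h3
  -- the conjugate
  have hcc := cc hc
  have hcyζ : ∀ a : Z4, c (pw ζ a) = pw ζ (-a) := by
    intro a
    rw [pw_neg hζ]
    unfold pw
    rw [map_pow, map_pow, c_ζ hc hζ, inv_pow, inv_pow]
  have hll : ∀ σ, ll χ (cj σ) = ll χ σ := by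
    intro σ
    unfold ll
    congr 1
    apply ζ_inj hζ
    rw [← c16_ζ hζ hχ (cj σ), hcj, c_ζ hc hζ, map_inv₀, c16_ζ hζ hχ σ, map_inv₀, map_pow, c_ζ hc hζ, inv_pow, inv_inv]
  have hkc : ∀ σ : GK s, σ (c y0) = c y0 * pw ζ (-k (cj σ)) := by
    intro σ
    have h1 := ka (cj σ)
    rw [hcj] at h1
    have h2 := congrArg c h1
    rw [hcc, map_mul, hcyζ] at h2
    exact h2
  obtain ⟨m, e, hme⟩ := norm_pow2 hc hs hF.ne_zero hb0 htu
  obtain ⟨a0, ha0⟩ : ∃ a0 : Z4, y0 * c y0 * r ^ m = r ^ e * pw ζ a0 := by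
    have h1 : (y0 * c y0 * r ^ m / r ^ e) ^ 4 = 1 := by
      rw [div_pow, mul_pow, mul_pow, ← pow_mul, ← pow_mul, mul_comm m 4, mul_comm e 4, pow_mul, pow_mul, hr, ← map_pow,
        hy04, hme]
      exact div_self (pow_ne_zero _ two_ne_zero)
    obtain ⟨a0, h2⟩ := exists_pw hζ h1
    refine ⟨a0, ?_⟩
    rw [← h2]
    field_simp
  have hcy0 : c y0 ≠ 0 := by
    intro h
    exact hy00 (by rw [← hcc y0, h, map_zero])
  have hrel : ∀ σ : GK s, k σ - k (cj σ) + m * k2 σ + a0 = e * k2 σ + c4 χ σ * a0 := by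
    intro σ
    have h1 := congrArg σ ha0
    rw [map_mul, map_mul, map_mul, map_pow, map_pow, ka, hkc, k2a, map_pw hζ (c4_ι hζ hχ σ), mul_pow, mul_pow,
      pw_pow hζ, pw_pow hζ] at h1
    apply pw_inj hζ
    rw [pw_add hζ, pw_add hζ, sub_eq_add_neg, pw_add hζ, pw_add hζ]
    apply mul_left_cancel₀ (pow_ne_zero e hr0)
    have h2 : r ^ e * (pw ζ (k σ) * pw ζ (-k (cj σ)) * pw ζ (m * k2 σ) * pw ζ a0) =
        (y0 * pw ζ (k σ)) * (c y0 * pw ζ (-k (cj σ))) * (r ^ m * pw ζ (m * k2 σ)) := by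
      linear_combination (-(pw ζ (k σ) * pw ζ (-k (cj σ)) * pw ζ (m * k2 σ))) * ha0
    rw [h2, h1]
    ring
  -- the class
  refine ⟨fun x y => k' x * l' y, ?_, ?_, ?_, fun x => -(((e : Z4) - m) * f' x + a0 * l' x), ?_, ?_⟩
  · exact (k'lc.comp_continuous (f := fun v : Gs s × Gs s => v.1) continuous_fst).mul
      (l'lc.comp_continuous (f := fun v : Gs s × Gs s => v.2) continuous_snd)
  · intro x y v
    obtain ⟨σ, rfl⟩ := QuotientGroup.mk_surjective x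
    obtain ⟨τ, rfl⟩ := QuotientGroup.mk_surjective y
    beta_reduce
    rw [l'm, ← QuotientGroup.mk_mul, hk', hk', hk', hχ', km σ τ]
    show c4 χ σ * (k τ * l' v) - _ + _ - _ = 0
    ring
  · intro h1
    apply hcup
    refine Pool.Agent.K7.H6.PS.cup_symm hb hψ ?_
    have h2 : cup b (fun g => red (l' g)) = fun x y => red (k' x * l' y) := by
      funext x y
      rw [map_mul]
      unfold cup
      rw [← hkb]
    rw [h2]
    exact h1
  · exact (((IsLocallyConstant.const ((e : Z4) - m)).mul f'lc).add ((IsLocallyConstant.const a0).mul l'lc)).neg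
  · intro x y
    obtain ⟨σ, rfl⟩ := QuotientGroup.mk_surjective x
    obtain ⟨τ, rfl⟩ := QuotientGroup.mk_surjective y
    beta_reduce
    rw [hc', hc', hk', hk', hl', hl', hl', hll, l'm, hl', hl', ← QuotientGroup.mk_mul, hf', hf', hf', hχ']
    show k (cj σ) * ll χ τ - k σ * ll χ τ = _ + c4 χ σ * _ - _
    linear_combination (-(ll χ τ)) * hrel σ - ((e : Z4) - m) * fm σ τ

end Pool.Agent.K7.H6.PSH
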