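import Pool.Agent.K7.H6.PS.F1
import Pool.Agent.K7.H34.PS.E0

/-!
# Parity of Selmer groups: the decomposition group surjects
-/

set_option autoImplicit false
set_option linter.unusedSectionVars false

namespace Pool.Agent.K7.H6.PSF

open Pool.Agent.Y715.Gi (QB KK GK)
open Pool.Agent.Y715.Nr Pool.Agent.W237.RK
open Pool.Agent.Z384 (II DD DDs Fld)
open Pool.Agent.H76.PS
open Pool.Agent.K7.H6.PSH Pool.Agent.K7.H6.PSE

variable {s : QB}

theorem D_compact (hE1 : StE1) {d : ℕ} (hs : s ^ 2 = -(d : QB)) (hF : Fld d) (ι₀ : QB →ₐ[ℚ] PadicAlgCl 2) :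
    IsCompact ((DDs (s := s) ι₀ : Subgroup (GK s)) : Set (GK s)) := by
  obtain ⟨r, hr, -, hrange⟩ := hE1 s d hs hF ι₀
  have hcomp : CompactSpace (Au 2) := inferInstance
  rw [← hrange, MonoidHom.coe_range]
  exact isCompact_range hr

/-- the decomposition group surjects onto `Gs s` -/
theorem surjN (hE0 : StE0) (hE1 : StE1) {d : ℕ} (hs : s ^ 2 = -(d : QB)) (hF : Fld d)
    (ι₀ : QB →ₐ[ℚ] PadicAlgCl 2) (g : GK s) : ∃ δ ∈ DDs (s := s) ι₀, δ⁻¹ * g ∈ Nf s := by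
  have hK := D_compact hE1 hs hF ι₀
  by_contra hcon
  push Not at hcon
  have : Nonempty {N : Subgroup (GK s) // TE N} := ⟨⟨⊤, Pool.Agent.K7.H34.PS.te_top⟩⟩
  obtain ⟨N, hN⟩ := hK.elim_directed_family_closed
    (fun N : {N : Subgroup (GK s) // TE N} => {δ : GK s | δ⁻¹ * g ∈ (N : Subgroup (GK s))})
    (fun N => (Subgroup.isClosed_of_isOpen _ N.2.isOpen).preimage
      ((continuous_mul_const g).comp continuous_inv)) (by
      ext x
      simp only [Set.mem_inter_iff, Set.mem_iInter, Set.mem_empty_iff_false, iff_false, not_and]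
      intro hx hall
      refine hcon x hx ?_
      rw [Nf, Subgroup.mem_sInf]
      intro N hN
      exact hall ⟨N, hN⟩) (by
      intro N M
      exact ⟨⟨N ⊓ M, Pool.Agent.K7.H34.PS.te_inf N.2 M.2⟩, fun x hx => hx.1, fun x hx => hx.2⟩)
  obtain ⟨δ, hδ, h⟩ := (hE0 s d hs hF).2.2.2.2 ι₀ N.1 N.2.isOpen (Pool.Agent.K7.H34.PS.nf_le N.2) g
  have : δ ∈ ((DDs (s := s) ι₀ : Subgroup (GK s)) : Set (GK s)) ∩ {δ : GK s | δ⁻¹ * g ∈ (N : Subgroup (GK s))} :=
    ⟨hδ, h⟩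
  rw [hN] at this
  exact this

/-- `TE` from the finiteness of the orders -/
theorem te_of' {N : Subgroup (GK s)} (ho : IsOpen (N : Set (GK s))) (hn : N.Normal)
    (hp : ∀ g : GK s, ∃ a : ℕ, g ^ 2 ^ a ∈ N)
    (hu : ∀ (p : ℕ) [Fact p.Prime] (ι : QB →ₐ[ℚ] PadicAlgCl p), p ≠ 2 →
    ∀ σ ∈ (II ι : Set (GK s)), σ ∈ N) : TE N where
  isOpen := ho
  normal := hn
  index := by
    have hfin : Finite (GK s ⧸ N) := Subgroup.quotient_finite_of_isOpen N ho
    have : Fact (Nat.Prime 2) := ⟨Nat.prime_two⟩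
    have hp2 : IsPGroup 2 (GK s ⧸ N) := by
      intro x
      obtain ⟨g, rfl⟩ := QuotientGroup.mk_surjective x
      obtain ⟨a, ha⟩ := hp g
      refine ⟨a, ?_⟩
      rw [← QuotientGroup.mk_pow]
      exact (QuotientGroup.eq_one_iff _).2 ha
    obtain ⟨c, hc⟩ := IsPGroup.iff_card.1 hp2
    exact ⟨c, hc⟩
  unramified := hu

theorem II_Nf {p : ℕ} [Fact p.Prime] (ι : QB →ₐ[ℚ] PadicAlgCl p) (hp : p ≠ 2) {σ : GK s}
    (h : σ ∈ (II ι : Set (GK s))) : σ ∈ Nf s := by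
  rw [Nf, Subgroup.mem_sInf]
  intro N hN
  exact hN.unramified p ι hp σ h

end Pool.Agent.K7.H6.PSF
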