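import Pool.Agent.H76.PS.Defs3
import Pool.Agent.K7.H6.PS.S1
import Pool.Agent.K7.H6.PS.G1

/-!
# Parity of Selmer groups: job LG
-/

set_option autoImplicit false
set_option linter.unusedSectionVars false

namespace Pool.Agent.K7.H6.PSL

open Pool.Agent.Y715.Gi (QB KK GK)
open Pool.Agent.Y715.Nr Pool.Agent.W237.RK
open Pool.Agent.Z384 (II DD DDs Fld)
open Pool.Agent.H76.PS
open Pool.Agent.K7.H6.PSH Pool.Agent.K7.H6.PSE Pool.Agent.K7.H6.PSF
open Pool.Agent.K7.H6.PSG (cont_of)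

theorem lcz {X : Type} [TopologicalSpace X] {F : X → ℤ_[2]} (hF : Continuous F) (k : ℕ) :
    IsLocallyConstant (fun x => PadicInt.toZModPow k (F x)) := by
  rw [IsLocallyConstant.iff_exists_open]
  intro x
  refine ⟨{y | ‖F y - F x‖ < ((2 : ℕ) : ℝ) ^ (-(k : ℤ) + 1)}, ?_, ?_, fun y hy => ?_⟩
  · exact isOpen_lt (hF.sub continuous_const).norm continuous_const
  · show ‖F x - F x‖ < _
    rw [sub_self, norm_zero]
    positivity
  · have hy : ‖F y - F x‖ < ((2 : ℕ) : ℝ) ^ (-(k : ℤ) + 1) := hy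
    rw [← PadicInt.norm_le_pow_iff_norm_lt_pow_add_one, PadicInt.norm_le_pow_iff_mem_span_pow,
      ← PadicInt.ker_toZModPow, RingHom.mem_ker, map_sub, sub_eq_zero] at hy
    exact hy

variable {s : QB}

/-- separation by `TE` subgroups -/
theorem sep {K : Set (GK s)} (hK : IsCompact K) (h : ∀ x ∈ K, x ∉ Nf s) : ∃ N : Subgroup (GK s), TE N ∧ ∀ x ∈ K, x ∉ N := by
  have : Nonempty {N : Subgroup (GK s) // TE N} := ⟨⟨⊤, Pool.Agent.K7.H34.PS.te_top⟩⟩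
  obtain ⟨N, hN⟩ := hK.elim_directed_family_closed
    (fun N : {N : Subgroup (GK s) // TE N} => ((N : Subgroup (GK s)) : Set (GK s)))
    (fun N => Subgroup.isClosed_of_isOpen _ N.2.isOpen) (by
      ext x
      simp only [Set.mem_inter_iff, Set.mem_iInter, Set.mem_empty_iff_false, iff_false, not_and]
      intro hx hall
      refine h x hx ?_
      rw [Nf, Subgroup.mem_sInf]
      intro N hN
      exact hall ⟨N, hN⟩) (by
      intro N M
      exact ⟨⟨N ⊓ M, Pool.Agent.K7.H34.PS.te_inf N.2 M.2⟩, fun x hx => hx.1, fun x hx => hx.2⟩)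
  refine ⟨N.1, N.2, fun x hx hxN => ?_⟩
  have : x ∈ K ∩ ((N : Subgroup (GK s)) : Set (GK s)) := ⟨hx, hxN⟩
  rw [hN] at this
  exact this

theorem dvd_iff {x : ℤ_[2]} {k : ℕ} : PadicInt.toZModPow k x = 0 ↔ (2 : ℤ_[2]) ^ k ∣ x := by
  rw [← RingHom.mem_ker, PadicInt.ker_toZModPow, Ideal.mem_span_singleton]
  rfl

theorem dvd_one {x : ℤ_[2]} : PadicInt.toZMod x = 0 ↔ (2 : ℤ_[2]) ∣ x := by
  rw [← RingHom.mem_ker, PadicInt.ker_toZMod, PadicInt.maximalIdeal_eq_span_p, Ideal.mem_span_singleton]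
  rfl

/-- the case of `ℤ_2` -/
theorem lgz (hE : StE) (hE0 : StE0) (hE1 : StE1) (hG1 : StG1) {d : ℕ} (hs : s ^ 2 = -(d : QB)) (hF : Fld d)
    (ι₀ : QB →ₐ[ℚ] PadicAlgCl 2) {χ : GK s → ℤ_[2]} (hχ : IsCyc χ) {z : GK s → GK s → ℤ_[2]}
    (hz : Continuous (fun v : GK s × GK s => z v.1 v.2)) (inv1 : ∀ σ τ, ∀ n ∈ Nf s, z (σ * n) τ = z σ τ)
    (inv2 : ∀ σ τ, ∀ n ∈ Nf s, z σ (τ * n) = z σ τ)
    (coc : ∀ x y w, χ x * z y w - z (x * y) w + z x (y * w) - z x y = 0) (h11 : z 1 1 = 0)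
    {f : DDs (s := s) ι₀ → ℤ_[2]} (hf : Continuous f)
    (hfz : ∀ δ δ' : DDs (s := s) ι₀, z δ δ' = f δ + χ δ * f δ' - f (δ * δ')) :
    ∃ F : GK s → ℤ_[2], Continuous F ∧ ∀ x y, z x y = F x + χ x * F y - F (x * y) := by
  classical
  obtain ⟨hC, hCN⟩ := hG1 s χ hχ
  have hDc := D_compact hE1 hs hF ι₀
  have hDcs : CompactSpace (DDs (s := s) ι₀) := isCompact_iff_compactSpace.1 hDc
  have z1 : ∀ w, z 1 w = 0 := by
    intro w
    have h1 := coc 1 1 w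
    rw [hC.one, one_mul, one_mul, one_mul, h11] at h1
    linear_combination h1
  have z2 : ∀ x, z x 1 = 0 := by
    intro x
    have h1 := coc x 1 1
    rw [mul_one, mul_one, h11] at h1
    linear_combination -h1
  have zN1 : ∀ n ∈ Nf s, ∀ w, z n w = 0 := by
    intro n hn w
    have h1 := inv1 1 w n hn
    rw [one_mul, z1] at h1
    exact h1
  have zN2 : ∀ n ∈ Nf s, ∀ x, z x n = 0 := by
    intro n hn x
    have h1 := inv2 x 1 n hn
    rw [one_mul, z2] at h1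
    exact h1
  -- the open subgroups
  have hlcz := fun k => lcz hz k
  have sub1 : ∀ k, ∃ N : Subgroup (GK s), TE N ∧ ∀ x ∈ N, ∀ w, (2 : ℤ_[2]) ^ k ∣ z x w := by
    intro k
    obtain ⟨N, hN, h⟩ := sep (K := Prod.fst '' {p : GK s × GK s | PadicInt.toZModPow k (z p.1 p.2) = 0}ᶜ)
      (((hlcz k).isOpen_fiber 0).isClosed_compl.isCompact.image continuous_fst) (by
        rintro _ ⟨p, hp, rfl⟩ hN
        apply hp
        show PadicInt.toZModPow k (z p.1 p.2) = 0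
        rw [zN1 _ hN, map_zero])
    refine ⟨N, hN, fun x hx w => ?_⟩
    rw [← dvd_iff]
    by_contra hcon
    exact h x ⟨(x, w), hcon, rfl⟩ hx
  have sub2 : ∀ k, ∃ N : Subgroup (GK s), TE N ∧ ∀ x ∈ N, ∀ w, (2 : ℤ_[2]) ^ k ∣ z w x := by
    intro k
    obtain ⟨N, hN, h⟩ := sep (K := Prod.snd '' {p : GK s × GK s | PadicInt.toZModPow k (z p.1 p.2) = 0}ᶜ)
      (((hlcz k).isOpen_fiber 0).isClosed_compl.isCompact.image continuous_snd) (by
        rintro _ ⟨p, hp, rfl⟩ hN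
        apply hp
        show PadicInt.toZModPow k (z p.1 p.2) = 0
        rw [zN2 _ hN, map_zero])
    refine ⟨N, hN, fun x hx w => ?_⟩
    rw [← dvd_iff]
    by_contra hcon
    exact h x ⟨(w, x), hcon, rfl⟩ hx
  have sub3 : ∀ k, (∀ δ : DDs (s := s) ι₀, (δ : GK s) ∈ Nf s → (2 : ℤ_[2]) ^ k ∣ f δ) →
      ∃ N : Subgroup (GK s), TE N ∧ ∀ δ : DDs (s := s) ι₀, (δ : GK s) ∈ N → (2 : ℤ_[2]) ^ k ∣ f δ := by
    intro k hk
    obtain ⟨N, hN, h⟩ := sep (K := Subtype.val '' {δ : DDs (s := s) ι₀ | PadicInt.toZModPow k (f δ) = 0}ᶜ)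
      (((lcz hf k).isOpen_fiber 0).isClosed_compl.isCompact.image continuous_subtype_val) (by
        rintro _ ⟨p, hp, rfl⟩ hN
        apply hp
        exact dvd_iff.2 (hk p hN))
    refine ⟨N, hN, fun x hx => ?_⟩
    rw [← dvd_iff]
    by_contra hcon
    exact h x ⟨x, hcon, rfl⟩ hx
  -- step 1
  have step1 : ∀ m : ℕ, ∀ δ : DDs (s := s) ι₀, (δ : GK s) ∈ Nf s → (2 : ℤ_[2]) ^ m ∣ f δ := by
    intro m
    induction m with
    | zero => intro δ _; rw [pow_zero]; exact one_dvd _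
    | succ m ih =>
      obtain ⟨N₁, hN₁, h1⟩ := sub1 (m + 1)
      obtain ⟨N₂, hN₂, h2⟩ := sub3 m ih
      set U : Subgroup (GK s) := N₁ ⊓ N₂ with hU
      have hUT : TE U := Pool.Agent.K7.H34.PS.te_inf hN₁ hN₂
      have hUN : Nf s ≤ U := Pool.Agent.K7.H34.PS.nf_le hUT
      have hg : ∀ δ : (U ⊓ DDs ι₀ : Subgroup (GK s)), ∃ g : ℤ_[2], f ⟨δ, δ.2.2⟩ = 2 ^ m * g :=
        fun δ => h2 ⟨δ, δ.2.2⟩ δ.2.1.2
      choose g hg using hg
      have hχ1 : ∀ x : GK s, (2 : ℤ_[2]) ∣ χ x - 1 := by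
        intro x
        rw [← dvd_one, map_sub, map_one, sub_eq_zero]
        have hu : χ x * χ x⁻¹ = 1 := by rw [← hC.mul, mul_inv_cancel, hC.one]
        have hu' := congrArg PadicInt.toZMod hu
        rw [map_mul, map_one] at hu'
        have : ∀ a b : ZMod 2, a * b = 1 → a = 1 := by decide
        exact this _ _ hu'
      have h2m : (2 : ℤ_[2]) ^ m ≠ 0 := pow_ne_zero _ two_ne_zero
      have hφ : (fun δ => PadicInt.toZMod (g δ)) ∈ HS (U ⊓ DDs ι₀ : Subgroup (GK s)) := by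
        refine ⟨?_, fun δ δ' => ?_⟩
        · rw [IsLocallyConstant.iff_exists_open]
          intro δ
          have hlc := (lcz hf (m + 1)).comp_continuous
            (f := fun x : (U ⊓ DDs ι₀ : Subgroup (GK s)) => (⟨x, x.2.2⟩ : DDs (s := s) ι₀))
            (Continuous.subtype_mk continuous_subtype_val _)
          obtain ⟨W, hW, h3, h4⟩ := (IsLocallyConstant.iff_exists_open _).1 hlc δ
          refine ⟨W, hW, h3, fun δ' hδ' => ?_⟩
          have h5 := h4 δ' hδ'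
          have h5 : PadicInt.toZModPow (m + 1) (f ⟨δ', δ'.2.2⟩) = PadicInt.toZModPow (m + 1) (f ⟨δ, δ.2.2⟩) := h5
          rw [← sub_eq_zero, ← map_sub, dvd_iff, hg, hg, ← mul_sub, pow_succ] at h5
          have h6 := (mul_dvd_mul_iff_left h2m).1 h5
          rw [← dvd_one, map_sub, sub_eq_zero] at h6
          exact h6
        · beta_reduce
          rw [← sub_eq_zero, ← map_add, ← map_sub, dvd_one]
          have h3 := hfz ⟨δ, δ.2.2⟩ ⟨δ', δ'.2.2⟩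
          obtain ⟨u, hu⟩ := h1 δ δ.2.1.1 δ'
          obtain ⟨v, hv⟩ := hχ1 δ
          have h4 : f (⟨δ, δ.2.2⟩ * ⟨δ', δ'.2.2⟩) = 2 ^ m * g (δ * δ') := hg (δ * δ')
          have hg1 := hg δ
          have hg2 := hg δ'
          rw [h4, hg1, hg2] at h3
          have h5 : (2 : ℤ_[2]) ^ m * (g (δ * δ') - (g δ + g δ')) = 2 ^ m * (2 * (v * g δ' - u)) := by
            have h6 : z (δ : GK s) (δ' : GK s) = 2 ^ (m + 1) * u := hu
            have h3 : z (δ : GK s) (δ' : GK s) = 2 ^ m * g δ + χ (δ : GK s) * (2 ^ m * g δ') - 2 ^ m * g (δ * δ') := h3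
            rw [h6] at h3
            rw [pow_succ] at h3
            linear_combination h3 + (2 : ℤ_[2]) ^ m * g δ' * hv
          exact ⟨_, mul_left_cancel₀ h2m h5⟩
      obtain ⟨φ', hφ', hφN, hφr⟩ := (hE s d hs hF).2.1 ι₀ U hUT.isOpen hUN _ hφ
      intro δ hδ
      have h3 := hφr δ (hUN hδ) ⟨hUN hδ, δ.2⟩
      rw [hφN _ hδ] at h3
      have h4 := dvd_one.1 h3.symm
      have h5 := hg ⟨δ, ⟨hUN hδ, δ.2⟩⟩
      have h5 : f δ = 2 ^ m * g ⟨δ, ⟨hUN hδ, δ.2⟩⟩ := h5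
      rw [h5, pow_succ]
      exact mul_dvd_mul_left _ h4
  have step1' : ∀ δ : DDs (s := s) ι₀, (δ : GK s) ∈ Nf s → f δ = 0 := by
    intro δ hδ
    refine PadicInt.ext_of_toZModPow.1 fun n => ?_
    rw [map_zero]
    exact dvd_iff.2 (step1 n δ hδ)
  -- step 2
  have hdens := surjN hE0 hE1 hs hF ι₀
  choose δ hδD hδN using hdens
  have hfw : ∀ (e w : GK s) (he : e ∈ DDs (s := s) ι₀) (hw : w ∈ DDs (s := s) ι₀), w ∈ Nf s →
      f ⟨e * w, mul_mem he hw⟩ = f ⟨e, he⟩ := by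
    intro e w he hw hwN
    have h1 := hfz ⟨e, he⟩ ⟨w, hw⟩
    have h1 : z e w = f ⟨e, he⟩ + χ e * f ⟨w, hw⟩ - f ⟨e * w, mul_mem he hw⟩ := h1
    rw [zN2 w hwN, step1' ⟨w, hw⟩ hwN] at h1
    linear_combination h1
  set F : GK s → ℤ_[2] := fun σ => f ⟨δ σ, hδD σ⟩ with hFdef
  have hdec : ∀ σ : GK s, σ = δ σ * ((δ σ)⁻¹ * σ) := fun σ => by group
  have hFσ : ∀ σ, F σ = f ⟨δ σ, hδD σ⟩ := fun σ => rfl
  have hFv : ∀ (e : GK s) (he : e ∈ DDs (s := s) ι₀) (u : GK s) (_ : u ∈ Nf s), F (e * u) = f ⟨e, he⟩ := by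
    intro e he u hu
    have h1 : (δ (e * u))⁻¹ * e ∈ Nf s := by
      have h2 := mul_mem (hδN (e * u)) (inv_mem hu)
      have h3 : (δ (e * u))⁻¹ * (e * u) * u⁻¹ = (δ (e * u))⁻¹ * e := by group
      rwa [h3] at h2
    have h1' : (δ (e * u))⁻¹ * e ∈ DDs (s := s) ι₀ := mul_mem (inv_mem (hδD _)) he
    have h3 := hfw (δ (e * u)) ((δ (e * u))⁻¹ * e) (hδD _) h1' h1
    rw [hFσ, ← h3]
    congr 1
    apply Subtype.ext
    show δ (e * u) * ((δ (e * u))⁻¹ * e) = e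
    group
  have hχσ : ∀ σ, χ σ = χ (δ σ) := by
    intro σ
    conv_lhs => rw [hdec σ]
    exact hCN _ _ (hδN σ)
  refine ⟨F, cont_of F fun k => ?_, fun σ τ => ?_⟩
  · obtain ⟨N₁, hN₁, h1⟩ := sub2 k
    obtain ⟨N₂, hN₂, h2⟩ := sub3 k (step1 k)
    set U : Subgroup (GK s) := N₁ ⊓ N₂ with hU
    have hUT : TE U := Pool.Agent.K7.H34.PS.te_inf hN₁ hN₂
    have hUN : Nf s ≤ U := Pool.Agent.K7.H34.PS.nf_le hUT
    rw [IsLocallyConstant.iff_exists_open]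
    intro σ
    refine ⟨(fun τ => σ⁻¹ * τ) ⁻¹' (U : Set (GK s)), hUT.isOpen.preimage (continuous_const_mul _), ?_, fun τ hτ => ?_⟩
    · show σ⁻¹ * σ ∈ U
      rw [inv_mul_cancel]
      exact one_mem _
    · have hτ : σ⁻¹ * τ ∈ U := hτ
      have hw : (δ σ)⁻¹ * δ τ ∈ U := by
        have h3 : (δ σ)⁻¹ * δ τ = ((δ σ)⁻¹ * σ) * (σ⁻¹ * τ) * ((δ τ)⁻¹ * τ)⁻¹ := by group
        rw [h3]
        exact mul_mem (mul_mem (hUN (hδN σ)) hτ) (inv_mem (hUN (hδN τ)))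
      have hwD : (δ σ)⁻¹ * δ τ ∈ DDs (s := s) ι₀ := mul_mem (inv_mem (hδD σ)) (hδD τ)
      have h3 := hfz ⟨δ σ, hδD σ⟩ ⟨(δ σ)⁻¹ * δ τ, hwD⟩
      have h4 : (⟨δ σ, hδD σ⟩ : DDs (s := s) ι₀) * ⟨(δ σ)⁻¹ * δ τ, hwD⟩ = ⟨δ τ, hδD τ⟩ := by
        apply Subtype.ext
        show δ σ * ((δ σ)⁻¹ * δ τ) = δ τ
        group
      rw [h4] at h3
      have h3 : z (δ σ) ((δ σ)⁻¹ * δ τ) = F σ + χ (δ σ) * f ⟨(δ σ)⁻¹ * δ τ, hwD⟩ - F τ := h3
      beta_reduce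
      rw [← sub_eq_zero, ← map_sub, dvd_iff]
      have h5 := h1 _ hw.1 (δ σ)
      have h6 := h2 ⟨(δ σ)⁻¹ * δ τ, hwD⟩ hw.2
      have h7 : F τ - F σ = χ (δ σ) * f ⟨(δ σ)⁻¹ * δ τ, hwD⟩ - z (δ σ) ((δ σ)⁻¹ * δ τ) := by
        linear_combination h3
      rw [h7]
      exact dvd_sub (Dvd.dvd.mul_left h6 _) h5
  · have h1 : σ * τ = (δ σ * δ τ) * (((δ τ)⁻¹ * ((δ σ)⁻¹ * σ) * δ τ) * ((δ τ)⁻¹ * τ)) := by group
    have h3 : (δ τ)⁻¹ * ((δ σ)⁻¹ * σ) * δ τ ∈ Nf s := by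
      have := (normal_Nf s).conj_mem _ (hδN σ) (δ τ)⁻¹
      rwa [inv_inv] at this
    have h4 := hFv (δ σ * δ τ) (mul_mem (hδD σ) (hδD τ)) _ (mul_mem h3 (hδN τ))
    rw [← h1] at h4
    have h5 : z σ τ = z (δ σ) (δ τ) := by
      conv_lhs => rw [hdec σ, hdec τ]
      rw [inv1 _ _ _ (hδN σ), inv2 _ _ _ (hδN τ)]
    rw [h4, h5, hχσ σ, hFσ σ, hFσ τ]
    exact hfz ⟨δ σ, hδD σ⟩ ⟨δ τ, hδD τ⟩

theorem stLG (hE : StE) (hE0 : StE0) (hE1 : StE1) (hG1 : StG1) : StLG := by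
  intro s d hs hF ι₀ A _ _ _ _ _ r b hb hsm χ hχ z hz h11 hf
  obtain ⟨f, hf, hfz⟩ := hf
  have key : ∀ e, ∃ F : GK s → ℤ_[2], Continuous F ∧ ∀ x y, b.repr (z x y) e = F x + χ x * F y - F (x * y) := by
    intro e
    refine lgz hE hE0 hE1 hG1 hs hF ι₀ hχ (z := fun x y => b.repr (z x y) e) ((hb e).comp hz.cont)
      (fun σ τ n hn => ?_) (fun σ τ n hn => ?_) (fun x y w => ?_) ?_ (f := fun δ => b.repr (f δ) e)
      ((hb e).comp hf) (fun δ δ' => ?_)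
    · beta_reduce
      rw [hz.inv1 σ τ n hn]
    · beta_reduce
      rw [hz.inv2 σ τ n hn]
    · have h2 := congrArg (fun a => b.repr a e) (hz.coc x y w)
      simpa using h2
    · beta_reduce
      rw [h11, map_zero]
      rfl
    · have h2 := congrArg (fun a => b.repr a e) (hfz δ δ')
      simpa using h2
  choose F hF1 hF2 using key
  refine ⟨fun x => ∑ e, algebraMap ℤ_[2] A (F e x) * b e, ?_, fun x y => ?_⟩
  · exact continuous_finsetSum _ fun e _ => (hsm.comp (hF1 e)).mul continuous_const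
  · beta_reduce
    conv_lhs => rw [← b.sum_repr (z x y)]
    rw [Finset.smul_sum, ← Finset.sum_add_distrib, ← Finset.sum_sub_distrib]
    refine Finset.sum_congr rfl fun e _ => ?_
    rw [hF2, Algebra.smul_def, Algebra.smul_def]
    simp only [map_mul, map_add, map_sub]
    ring

end Pool.Agent.K7.H6.PSL
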